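import Pool.Agent.Lib.MP_8465a2_an.Mass

/-!
Blow-up at a critical point, the covering argument and the local theorem.
-/

namespace Pool.Agent.LinCrit

open Finset Matrix MeasureTheory Pool.Agent.Alesker Topology Filter Metric
open scoped ContDiff ENNReal

noncomputable section

variable {n : ℕ}

lemma vanish {g : Fin n → (Fin n → ℝ) → ℝ} {x y : Fin n → ℝ} (hg : ∀ k, Har (g k) x (R0 n) 1)
    (h0 : ∀ k, g k x = 0) (hy : ‖y - x‖ ≤ 8) {i : Fin n} (hi : g i y ≠ 0) :
    ∃ (m : ℕ) (S ρ : ℝ) (k0 : Fin n) (y0 : Fin n → ℝ), 1 ≤ m ∧ 0 < S ∧ 0 < ρ ∧ ρ ≤ 1 ∧ ‖y0‖ ≤ 1 ∧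
      (∀ h, ‖h‖ ≤ ρ → ∀ k, |g k (x + h)| ≤ 2 * S * ‖h‖ ^ m) ∧
      ∀ r, 0 < r → r ≤ ρ → S * r ^ m / 2 ≤ |g k0 (x + r • y0)| := by
  classical
  have hex : ∃ m, ∃ k h, co m (g k) x h ≠ 0 := by
    by_contra h
    push Not at h
    refine hi (abs_nonpos_iff.mp (ge_of_tendsto' ((tendsto_add_atTop_iff_nat 1).mpr
      (tendsto_pow_atTop_nhds_zero_of_lt_one (r := ‖y - x‖ / 128) (by positivity) (by linarith)))
      fun d => ?_))
    simpa [h] using taylor_le d (hg i) hy
  obtain ⟨k1, h1, hk1⟩ := Nat.find_spec hex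
  have hmin := fun j => Nat.find_min hex (m := j)
  generalize Nat.find hex = m at hk1 hmin
  push Not at hmin
  have hm : 1 ≤ m := Nat.pos_of_ne_zero fun h => hk1 (by simp [h, co, TL, h0])
  choose Y hY hmax using fun k => (isCompact_closedBall (0 : Fin n → ℝ) 1).exists_isMaxOn
    ⟨0, by simp⟩ (pol_sm (co_pol m (g k) x)).continuous.abs.continuousOn
  obtain ⟨k0, -, hk0⟩ := exists_max_image univ (fun k => |co m (g k) x (Y k)|) ⟨i, mem_univ i⟩
  set S := |co m (g k0) x (Y k0)| with hS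
  have hb : ∀ k h, |co m (g k) x h| ≤ S * ‖h‖ ^ m := fun k h => by
    rcases eq_or_ne h 0 with rfl | hh
    · have := co_smul m (g k) x 0 0
      rw [smul_zero, zero_pow (by omega), zero_mul] at this
      rw [this, abs_zero]
      positivity
    · have hp := norm_pos_iff.mpr hh
      have := co_smul m (g k) x (‖h‖⁻¹ • h) ‖h‖
      rw [smul_inv_smul₀ hp.ne'] at this
      rw [this, abs_mul, abs_of_pos (by positivity), mul_comm]
      gcongr
      exact (hmax k (by simp [norm_smul, hp.ne'])).trans (hk0 k (mem_univ k))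
  have hS0 : 0 < S := (abs_nonneg _).lt_of_ne fun h => by
    have := (abs_pos.mpr hk1).trans_le (hb k1 h1)
    rw [hS, ← h, zero_mul] at this
    exact lt_irrefl _ this
  have hr : ∀ h, ‖h‖ ≤ min (S / 2) 1 → ∀ k, |g k (x + h) - co m (g k) x h| ≤ S / 2 * ‖h‖ ^ m :=
    fun h hh k => by
      have := taylor_le m (hg k) (h := h) (by linarith [min_le_right (S / 2) 1])
      rw [sum_range_succ, sum_eq_zero fun j hj => hmin j (mem_range.mp hj) k h, zero_add,
        mul_one] at this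
      refine this.trans ?_
      rw [pow_succ']
      exact mul_le_mul (by linarith [min_le_left (S / 2) 1, norm_nonneg h])
        (pow_le_pow_left₀ (by positivity) (by linarith [norm_nonneg h]) _) (by positivity)
        (by positivity)
  refine ⟨m, S, min (S / 2) 1, k0, Y k0, hm, hS0, by positivity, min_le_right _ _,
    mem_closedBall_zero_iff.mp (hY k0), fun h hh k => ?_, fun r hr0 hr1 => ?_⟩
  · have : 0 ≤ S * ‖h‖ ^ m := by positivity
    linarith [abs_sub_abs_le_abs_sub (g k (x + h)) (co m (g k) x h), hr h hh k, hb k h]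
  · have h2 : ‖r • Y k0‖ ≤ r := by
      rw [norm_smul, Real.norm_of_nonneg hr0.le]
      exact mul_le_of_le_one_right hr0.le (mem_closedBall_zero_iff.mp (hY k0))
    have h3 := hr _ (h2.trans hr1) k0
    have h4 : S / 2 * ‖r • Y k0‖ ^ m ≤ S / 2 * r ^ m := by gcongr
    have h5 : |co m (g k0) x (r • Y k0)| = r ^ m * S := by
      rw [co_smul, abs_mul, abs_of_pos (by positivity)]
    linarith [abs_sub_abs_le_abs_sub (co m (g k0) x (r • Y k0)) (g k0 (x + r • Y k0)),
      abs_sub_comm (co m (g k0) x (r • Y k0)) (g k0 (x + r • Y k0))]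

lemma nq_mulVec_le (H : Matrix (Fin n) (Fin n) ℝ) (g : Fin n → ℝ) : nq (H *ᵥ g) ≤ fro H * nq g := by
  unfold fro
  rw [sum_mul]
  exact sum_le_sum fun l _ => sum_mul_sq_le_sq_mul_sq univ (H l) g

lemma ray {w : (Fin n → ℝ) → ℝ} (hw : Sm w) {ε : ℝ} (hε : 0 < ε) (x h : Fin n → ℝ) {t0 b : ℝ}
    (ht0 : 0 ≤ t0) (ht1 : t0 ≤ 1) (hb : 0 < b) (hh : nq h ≤ b)
    (h0 : nq (gr w (x + t0 • h)) ≤ ε ^ 2 / 4) (h1 : ε ^ 2 ≤ nq (gr w (x + h))) :
    ENNReal.ofReal (1 / (16 * b)) ≤ ∫⁻ t in Set.Ioc t0 1, ENNReal.ofReal (dens w ε (x + t • h)) := by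
  have hc : Continuous fun t : ℝ => dens w ε (x + t • h) := (cont_dens hw hε).comp (by fun_prop)
  rw [← ofReal_integral_eq_lintegral_ofReal (hc.integrableOn_Icc.mono_set Set.Ioc_subset_Icc_self)
    (Eventually.of_forall fun t => dens_nonneg _ _ _), ← intervalIntegral.integral_of_le ht1]
  refine ENNReal.ofReal_le_ofReal ?_
  let th' : ℝ → ℝ := fun t => ε ^ 2 * (∑ l, h l * (2 * (hess w (x + t • h) *ᵥ gr w (x + t • h)) l)) /
    (nq (gr w (x + t • h)) + ε ^ 2) ^ 2
  have hd : ∀ t, HasDerivAt (fun t : ℝ => 1 - ε ^ 2 * (nq (gr w (x + t • h)) + ε ^ 2)⁻¹)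
      (th' t) t := fun t => by
    have := hasDerivAt_line (f := fun x => nq (gr w x) + ε ^ 2)
      ((sm_nq_gr hw).add contDiff_const) x h t
    simp_rw [pd_nq_gr hw] at this
    exact (((this.inv (den_pos w hε _).ne').const_mul (ε ^ 2)).const_sub 1).congr_deriv
      (by simp only [th']; ring)
  have hc' : Continuous th' := by
    have a1 := (sm_nq_gr hw).continuous.comp (show Continuous fun t : ℝ => x + t • h by fun_prop)
    have a2 := ((cont_hess hw).matrix_mulVec (cont_gr hw)).comp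
      (show Continuous fun t : ℝ => x + t • h by fun_prop)
    exact (continuous_const.mul (continuous_finsetSum _ fun l _ => continuous_const.mul
      (continuous_const.mul ((continuous_apply l).comp a2)))).div
      ((a1.add continuous_const).pow 2) fun t => pow_ne_zero _ (den_pos w hε _).ne'
  have e := intervalIntegral.integral_eq_sub_of_hasDerivAt (a := t0) (b := 1) (fun t _ => hd t)
    (hc'.intervalIntegrable _ _)
  have h2 : ∀ t, (th' t / 2 - 1 / 16) / b ≤ dens w ε (x + t • h) := fun t => by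
    rw [div_le_iff₀ hb]
    have a1 : (∑ l, h l * (hess w (x + t • h) *ᵥ gr w (x + t • h)) l) ^ 2 ≤
        b * (fro (hess w (x + t • h)) * nq (gr w (x + t • h))) :=
      (sum_mul_sq_le_sq_mul_sq _ _ _).trans (mul_le_mul hh (nq_mulVec_le _ _) (nq_nonneg _) hb.le)
    have a2 : th' t ^ 2 ≤ dens w ε (x + t • h) * b := by
      simp only [th', dens, mul_left_comm _ (2 : ℝ), ← mul_sum]
      have a3 := den_pos w hε (x + t • h)
      have a4 := fro_nonneg (hess w (x + t • h))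
      generalize (∑ l, h l * (hess w (x + t • h) *ᵥ gr w (x + t • h)) l) = s at a1
      generalize nq (gr w (x + t • h)) = r at a1 a3
      generalize fro (hess w (x + t • h)) = f at a1 a4
      rw [div_pow, div_mul_eq_mul_div, div_le_div_iff₀ (by positivity) (by positivity)]
      have a5 : 4 * ε ^ 2 * s ^ 2 ≤ f * b * (r + ε ^ 2) ^ 2 := by
        nlinarith [mul_le_mul_of_nonneg_left a1 (sq_nonneg ε),
          mul_nonneg (mul_nonneg a4 hb.le) (sq_nonneg (r - ε ^ 2))]
      nlinarith [mul_le_mul_of_nonneg_left a5 (by positivity : 0 ≤ ε ^ 2 * (r + ε ^ 2) ^ 2)]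
    nlinarith [sq_nonneg (th' t - 1 / 4)]
  refine le_trans ?_ (intervalIntegral.integral_mono_on ht1
    (Continuous.intervalIntegrable (by fun_prop) _ _) (hc.intervalIntegrable _ _) fun t _ => h2 t)
  rw [intervalIntegral.integral_div, intervalIntegral.integral_sub
    (Continuous.intervalIntegrable (by fun_prop) _ _) (by simp), intervalIntegral.integral_div, e,
    intervalIntegral.integral_const, one_smul, ← div_div]
  gcongr
  have a1 : ε ^ 2 * (nq (gr w (x + h)) + ε ^ 2)⁻¹ ≤ 1 / 2 := by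
    rw [← div_eq_mul_inv, div_le_iff₀ (den_pos w hε _)]; linarith
  have a2 : 3 / 4 ≤ ε ^ 2 * (nq (gr w (x + t0 • h)) + ε ^ 2)⁻¹ := by
    rw [← div_eq_mul_inv, le_div_iff₀ (den_pos w hε _)]; nlinarith
  rw [smul_eq_mul]
  linarith

lemma rays {F : (Fin n → ℝ) → ℝ≥0∞} (hF : Measurable F) (x : Fin n → ℝ) {r t0 : ℝ} (hr : 0 < r)
    (ht0 : 0 < t0) {Y : Set (Fin n → ℝ)} (hY : MeasurableSet Y) (hY1 : ∀ z ∈ Y, ‖z‖ ≤ 1) {c : ℝ≥0∞}
    (h : ∀ z ∈ Y, c ≤ ∫⁻ t in Set.Ioc t0 1, F (x + t • r • z)) :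
    ENNReal.ofReal ((t0 * r) ^ n) * (c * volume Y) ≤ ∫⁻ y in closedBall x r, F y := by
  have h1 : ∀ t ∈ Set.Ioc t0 1, ENNReal.ofReal ((t0 * r) ^ n) * ∫⁻ z in Y, F (x + t • r • z) ≤
      ∫⁻ y in closedBall x r, F y := fun t ht => by
    have ht' : 0 < t := ht0.trans ht.1
    rw [← lintegral_indicator measurableSet_closedBall,
      lintegral_scale (hF.indicator measurableSet_closedBall) x (mul_pos ht' hr),
      ← lintegral_indicator hY]
    gcongr with z
    · exact ht.1.le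
    · by_cases hz : z ∈ Y
      · rw [Set.indicator_of_mem hz, Set.indicator_of_mem, smul_smul]
        rw [mem_closedBall_iff_norm, add_sub_cancel_left, norm_smul,
          Real.norm_of_nonneg (by positivity)]
        exact (mul_le_of_le_one_right (by positivity) (hY1 z hz)).trans
          (mul_le_of_le_one_left hr.le ht.2)
      · simp [Set.indicator_of_notMem hz]
  calc _ = ENNReal.ofReal ((t0 * r) ^ n) * ∫⁻ _ in Y, c := by rw [setLIntegral_const]
    _ ≤ ENNReal.ofReal ((t0 * r) ^ n) * ∫⁻ z in Y, ∫⁻ t in Set.Ioc t0 1, F (x + t • r • z) := by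
        gcongr 1
        exact setLIntegral_mono' hY h
    _ = ∫⁻ t in Set.Ioc t0 1, ENNReal.ofReal ((t0 * r) ^ n) * ∫⁻ z in Y, F (x + t • r • z) := by
        rw [lintegral_const_mul' _ _ ENNReal.ofReal_ne_top,
          lintegral_lintegral_swap (show Measurable (Function.uncurry fun z (t : ℝ) =>
            F (x + t • r • z)) from hF.comp (by fun_prop)).aemeasurable]
    _ ≤ ∫⁻ _ in Set.Ioc t0 1, ∫⁻ y in closedBall x r, F y := setLIntegral_mono' measurableSet_Ioc h1
    _ ≤ _ := by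
        rw [setLIntegral_const, Real.volume_Ioc]
        exact mul_le_of_le_one_right' (ENNReal.ofReal_le_one.mpr (by linarith))

lemma lap_shift {v : (Fin n → ℝ) → ℝ} (hv : Sm v) (c : ℝ) (x : Fin n → ℝ) (s : ℝ) (z : Fin n → ℝ) :
    lap (fun z => c * v (x + s • z)) z = c * s ^ 2 * lap v (x + s • z) := by
  have h1 : ∀ {v : (Fin n → ℝ) → ℝ}, Sm v → ∀ c l, pd l (fun z => c * v (x + s • z)) =
      fun z => c * s * pd l v (x + s • z) := fun {v} hv c l => funext fun z => by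
    rw [pd_const_mul (f := fun z => v (x + s • z)) (hv.comp (by fun_prop)), pd_shift hv.diff,
      mul_assoc]
  unfold lap
  simp_rw [h1 hv, h1 (hv.pd _), mul_sum]
  exact sum_congr rfl fun l _ => by ring

/-- the point `x` carries mass at all small scales -/
def Good (w : (Fin n → ℝ) → ℝ) (c : ℝ) (j : ℕ) (x : Fin n → ℝ) : Prop :=
  ∀ ε : ℝ, 0 < ε → ε * (j + 1) ≤ 1 → ∃ r : ℝ, 0 < r ∧ r ≤ 1 ∧ r ^ (j + 1) ≤ ε * (j + 1) ∧
    ENNReal.ofReal (c * r ^ (n - 2)) ≤ ∫⁻ y in closedBall x r, ENNReal.ofReal (dens w ε y)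

lemma blow (hn : 3 ≤ n) : ∃ c : ℝ, 0 < c ∧ ∀ (w : (Fin n → ℝ) → ℝ) (y : Fin n → ℝ) (i : Fin n),
    Har w 0 (3 * R0 n) 1 → ‖y‖ ≤ 1 → pd i w y ≠ 0 → ∀ x, ‖x‖ ≤ 1 → gr w x = 0 →
    ∃ j, Good w c j x := by
  obtain ⟨A, hA, hgs⟩ := good_set n
  have hR := R0_pos n
  have hn' : (3 : ℝ) ≤ n := by exact_mod_cast hn
  obtain ⟨R, hRd⟩ : ∃ R, R = R0 n + 1 := ⟨_, rfl⟩
  have hR1 : 9 ≤ R := by linarith
  have hl : 1 ≤ Real.log (4 * R) := by
    rw [Real.le_log_iff_exp_le (by linarith)]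
    linarith [Real.exp_one_lt_d9]
  obtain ⟨κ, hκ⟩ : ∃ κ, κ = Real.exp (-(A * Real.log (4 * R))) := ⟨_, rfl⟩
  have hκ0 : 0 < κ := hκ ▸ Real.exp_pos _
  have hκ1 : κ ≤ 1 := hκ ▸ Real.exp_le_one_iff.mpr (by nlinarith)
  refine ⟨(κ / (2 * n)) ^ n / (32 * n), by positivity, fun w y i hw hy hi x hx h0 => ?_⟩
  have hg : ∀ k, Har (pd k w) x (R0 n) 1 := fun k => (hw.gr k).mono (by simp; linarith)
  obtain ⟨m, S, ρ, k0, y0, hm, hS, hρ, hρ1, hy0, hU, hL⟩ := vanish hg (congrFun h0)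
    ((norm_sub_le _ _).trans (by linarith)) hi
  obtain ⟨j, hj⟩ := exists_nat_ge (m + (2 * S * κ ^ m)⁻¹ + (2 * S * (κ * ρ / R) ^ m)⁻¹)
  have p1 : 0 < (2 * S * κ ^ m)⁻¹ := by positivity
  have p2 : 0 < (2 * S * (κ * ρ / R) ^ m)⁻¹ := by positivity
  have p3 : (1 : ℝ) ≤ m := by exact_mod_cast hm
  refine ⟨j, fun ε hε hε1 => ?_⟩
  obtain ⟨r, hr0, hr⟩ : ∃ r, 0 < r ∧ ε = 2 * S * (κ * r) ^ m :=
    ⟨(ε / (2 * S)) ^ (m⁻¹ : ℝ) / κ, by positivity, by
      rw [mul_div_cancel₀ _ hκ0.ne', Real.rpow_inv_natCast_pow (by positivity) (by omega)]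
      field_simp⟩
  have hr1 : R * r ≤ ρ := by
    have h1 : ε * (2 * S * (κ * ρ / R) ^ m)⁻¹ ≤ 1 := le_trans (by gcongr; linarith) hε1
    rw [← div_eq_mul_inv, div_le_one (by positivity), hr, mul_le_mul_iff_right₀ (by positivity),
      pow_le_pow_iff_left₀ (by positivity) (by positivity) (by omega), mul_div_assoc,
      mul_le_mul_iff_right₀ hκ0, le_div_iff₀' (by positivity)] at h1
    exact h1
  have hr2 : r ≤ ρ := le_trans (le_mul_of_one_le_left hr0.le (by linarith)) hr1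
  refine ⟨r, hr0, hr2.trans hρ1, ?_, ?_⟩
  · calc _ ≤ r ^ m := pow_le_pow_of_le_one hr0.le (hr2.trans hρ1)
            (by exact_mod_cast (show (m : ℝ) ≤ (j + 1 : ℕ) by push_cast; linarith))
      _ = ε * (2 * S * κ ^ m)⁻¹ := by rw [hr, mul_pow]; field_simp
      _ ≤ _ := by gcongr; linarith
  have hq : 0 < 2 * S * (R * r) ^ m := by positivity
  let v := fun z => (2 * S * (R * r) ^ m)⁻¹ * pd k0 w (x + r • z)
  have hz : ∀ z, ‖z - y0‖ ≤ R0 n → ‖r • z‖ ≤ R * r := fun z hz => by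
    rw [norm_smul, Real.norm_of_nonneg hr0.le, mul_comm]
    gcongr
    linarith [norm_sub_norm_le z y0]
  have hv : Har v y0 (R0 n) 1 := ⟨contDiff_const.mul ((hw.sm.pd k0).comp (by fun_prop)),
    fun z h => by
      rw [lap_shift (hw.sm.pd k0), (hg k0).har _ (by
        rw [add_sub_cancel_left]; linarith [hz z h]), mul_zero],
    fun z h => by
      rw [abs_mul, abs_of_pos (inv_pos.mpr hq), inv_mul_le_iff₀ hq, mul_one]
      refine (hU _ ((hz z h).trans hr1) k0).trans ?_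
      gcongr
      exact hz z h⟩
  have h1 := hgs v y0 (m * Real.log (4 * R)) hv (by nlinarith) (by
    rw [abs_mul, abs_of_pos (inv_pos.mpr hq), le_inv_mul_iff₀ hq, Real.exp_neg, Real.exp_nat_mul,
      Real.exp_log (by positivity)]
    refine le_trans ?_ (hL r hr0 hr2)
    have : (4 : ℝ) ≤ 4 ^ m := le_self_pow₀ (by norm_num) (by omega)
    calc _ = 2 * S * r ^ m / 4 ^ m := by rw [mul_pow, mul_pow]; field_simp
      _ ≤ 2 * S * r ^ m / 4 := by gcongr
      _ = _ := by ring)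
  rw [show -(A * (m * Real.log (4 * R))) = m * -(A * Real.log (4 * R)) by ring, Real.exp_nat_mul,
    ← hκ] at h1
  let Y := {z ∈ closedBall (0 : Fin n → ℝ) 1 | κ ^ m < |v z|}
  have hY : MeasurableSet Y := measurableSet_closedBall.inter
    (isOpen_lt continuous_const hv.sm.continuous.abs).measurableSet
  have h2 : ENNReal.ofReal (1 / 2) ≤ volume Y := by
    have h3 : closedBall (0 : Fin n → ℝ) 1 ⊆ Y ∪ {y ∈ closedBall y0 4 | |v y| ≤ κ ^ m} :=
      fun z hz => (lt_or_ge (κ ^ m) |v z|).imp (fun h => ⟨hz, h⟩) fun h =>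
        ⟨mem_closedBall_iff_norm.mpr ((norm_sub_le _ _).trans
          (by linarith [mem_closedBall_zero_iff.mp hz])), h⟩
    have h4 := (measure_mono h3).trans ((measure_union_le _ _).trans (add_le_add le_rfl h1))
    rw [Real.volume_pi_closedBall _ zero_le_one] at h4
    rw [← ENNReal.add_le_add_iff_right (a := ENNReal.ofReal (1 / 2)) ENNReal.ofReal_ne_top,
      ← ENNReal.ofReal_add (by norm_num) (by norm_num)]
    exact le_trans (ENNReal.ofReal_le_ofReal (by
      rw [add_halves]; exact one_le_pow₀ (by norm_num))) h4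
  have ht : κ / (2 * n) ≤ 1 := by rw [div_le_one (by positivity)]; linarith
  have h3 := rays (cont_dens hw.sm hε).measurable.ennreal_ofReal x hr0
    (show 0 < κ / (2 * n) by positivity) hY (fun z hz => mem_closedBall_zero_iff.mp hz.1)
    fun z hz => ray hw.sm hε x (r • z) (by positivity) ht (b := n * r ^ 2) (by positivity) ?_ ?_ ?_
  · refine le_trans ?_ (le_trans (mul_le_mul' le_rfl (mul_le_mul' le_rfl h2)) h3)
    rw [← ENNReal.ofReal_mul (by positivity), ← ENNReal.ofReal_mul (by positivity)]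
    refine ENNReal.ofReal_le_ofReal (le_of_eq ?_)
    rw [mul_pow _ r, show r ^ n = r ^ (n - 2) * r ^ 2 by rw [← pow_add]; congr 1; omega]
    field_simp
    norm_num
  all_goals
    have hz1 : ‖r • z‖ ≤ r := by
      rw [norm_smul, Real.norm_of_nonneg hr0.le]
      exact mul_le_of_le_one_right hr0.le (mem_closedBall_zero_iff.mp hz.1)
  · refine (sum_le_sum fun l _ => sq_le_sq.mpr ((norm_le_pi_norm (r • z) l).trans
      (hz1.trans (le_abs_self r)))).trans (by simp)
  · have h4 : ‖(κ / (2 * n)) • r • z‖ ≤ κ * r * (1 / (2 * n)) := by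
      rw [norm_smul, Real.norm_of_nonneg (by positivity)]
      calc _ ≤ κ / (2 * n) * r := by gcongr
        _ = _ := by ring
    have h5 : (1 / (2 * n) : ℝ) ≤ 1 := by rw [div_le_one (by positivity)]; linarith
    have h6 : ∀ l, gr w (x + (κ / (2 * n)) • r • z) l ^ 2 ≤ (ε * (1 / (2 * n))) ^ 2 := fun l => by
      refine sq_le_sq.mpr ((hU _ (h4.trans ?_) l).trans (le_trans ?_ (le_abs_self _)))
      · exact (mul_le_of_le_one_right (by positivity) h5).trans
          ((mul_le_of_le_one_left hr0.le hκ1).trans hr2)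
      · calc _ ≤ 2 * S * (κ * r * (1 / (2 * n))) ^ m := by gcongr
          _ = ε * (1 / (2 * n)) ^ m := by rw [hr, mul_pow _ (1 / (2 * n) : ℝ), mul_assoc (2 * S)]
          _ ≤ _ := by gcongr; exact pow_le_of_le_one (by positivity) h5 (by omega)
    refine (sum_le_sum fun l _ => h6 l).trans ?_
    simp only [sum_const, card_univ, Fintype.card_fin, nsmul_eq_mul]
    rw [show n * (ε * (1 / (2 * n))) ^ 2 = ε ^ 2 / 4 / n by field_simp; norm_num]
    exact div_le_self (by positivity) (by linarith)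
  · refine le_trans (sq_le_sq.mpr ?_) (sq_le_nq _ k0)
    have h4 := hz.2
    simp only [v] at h4
    rw [abs_mul, abs_of_pos (inv_pos.mpr hq), lt_inv_mul_iff₀ hq] at h4
    refine le_trans ?_ h4.le
    rw [abs_of_pos hε, hr, mul_comm κ, mul_pow, ← mul_assoc]
    gcongr
    exact le_mul_of_one_le_left hr0.le (by linarith)

end

end Pool.Agent.LinCrit
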