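import Pool.Agent.Lib.MP_8465a2_an.Taylor

/-!
Cartan type estimate for the sublevel sets of harmonic functions.
-/

namespace Pool.Agent.LinCrit

open Finset MeasureTheory Pool.Agent.Alesker Topology Filter Metric
open scoped ContDiff ENNReal Nat

noncomputable section

variable {n : ℕ}

lemma factor {F : ℂ → ℂ} (hF : DifferentiableOn ℂ F (ball 0 9)) (hb : ∀ w, ‖w‖ = 8 → ‖F w‖ ≤ 2)
    {L : ℝ} (hL : 1 ≤ L) (h0 : Real.exp (-L) ≤ ‖F 0‖) :
    ∃ (M : ℕ) (z : Fin M → ℂ), (M : ℝ) ≤ 2 * L ∧ (∀ j, ‖z j‖ ≤ 2) ∧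
      ∀ w, ‖w‖ ≤ 1 → Real.exp (-(7 * L)) * ∏ j, ‖w - z j‖ ≤ ‖F w‖ := by
  classical
  let P : ℕ → Prop := fun M => ∃ (z : Fin M → ℂ) (h : ℂ → ℂ), (∀ j, ‖z j‖ ≤ 2) ∧
    DifferentiableOn ℂ h (ball 0 9) ∧ ∀ w, F w = (∏ j, (w - z j)) * h w
  have e2 : (2 : ℝ) ≤ Real.exp 1 := by linarith [Real.add_one_le_exp 1]
  have key : ∀ (M : ℕ) (z : Fin M → ℂ) (h : ℂ → ℂ), (∀ j, ‖z j‖ ≤ 2) →
      DifferentiableOn ℂ h (ball 0 9) → (∀ w, F w = (∏ j, (w - z j)) * h w) →
      (∀ w, ‖w‖ ≤ 8 → 6 ^ M * ‖h w‖ ≤ 2) ∧ Real.exp (-L) ≤ 2 ^ M * ‖h 0‖ ∧ (M : ℝ) ≤ L + 1 := by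
    intro M z h hz hh e
    have h1 : ∀ w, ‖w‖ ≤ 8 → 6 ^ M * ‖h w‖ ≤ 2 := fun w hw => by
      rw [← le_div_iff₀' (by positivity)]
      refine Complex.norm_le_of_forall_mem_frontier_norm_le (U := ball 0 8) isBounded_ball
        (DifferentiableOn.diffContOnCl (hh.mono ?_)) (fun w hw => ?_) ?_
      · rw [closure_ball _ (by norm_num)]
        exact closedBall_subset_ball (by norm_num)
      · rw [frontier_ball _ (by norm_num), mem_sphere_zero_iff_norm] at hw
        rw [le_div_iff₀' (by positivity)]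
        refine le_trans ?_ (hb w hw)
        rw [e, norm_mul, norm_prod]
        gcongr
        calc (6 : ℝ) ^ M = ∏ _j : Fin M, 6 := by simp
          _ ≤ _ := prod_le_prod (fun _ _ => by norm_num) fun j _ => by
            linarith [norm_sub_norm_le w (z j), hz j]
      · rw [closure_ball _ (by norm_num)]
        exact mem_closedBall_zero_iff.mpr hw
    have h2 : Real.exp (-L) ≤ 2 ^ M * ‖h 0‖ := by
      refine h0.trans ?_
      rw [e, norm_mul, norm_prod]
      gcongr
      calc _ ≤ ∏ _j : Fin M, (2 : ℝ) := prod_le_prod (fun _ _ => norm_nonneg _) fun j _ => by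
            simpa using hz j
        _ = _ := by simp
    refine ⟨h1, h2, ?_⟩
    have h3 := h1 0 (by simp)
    have h4 : Real.exp M ≤ 3 ^ M := by
      rw [← Real.exp_one_pow]
      exact pow_le_pow_left₀ (by positivity) (Real.exp_one_lt_d9.le.trans (by norm_num)) _
    have h5 : Real.exp M * Real.exp (-L) ≤ Real.exp 1 := by
      calc _ ≤ 3 ^ M * (2 ^ M * ‖h 0‖) := by gcongr
        _ = 6 ^ M * ‖h 0‖ := by rw [← mul_assoc, ← mul_pow]; norm_num
        _ ≤ _ := h3.trans e2
    rw [← Real.exp_add, Real.exp_le_exp] at h5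
    linarith
  have hP0 : P 0 := ⟨Fin.elim0, F, fun j => j.elim0, hF, fun w => by simp⟩
  obtain ⟨M, hMdef⟩ : ∃ M, M = Nat.findGreatest P ⌈L + 1⌉₊ := ⟨_, rfl⟩
  have hPM : P M := hMdef ▸ Nat.findGreatest_spec (P := P) (Nat.zero_le ⌈L + 1⌉₊) hP0
  obtain ⟨z, h, hz, hh, e⟩ := hPM
  obtain ⟨h1, h2, h3⟩ := key M z h hz hh e
  have hne : ∀ w, ‖w‖ ≤ 2 → h w ≠ 0 := by
    intro w hw h0
    have hP : P (M + 1) := by
      refine ⟨Fin.cons w z, dslope h w, fun j => by cases j using Fin.cases <;> simp [*],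
        (Complex.differentiableOn_dslope (isOpen_ball.mem_nhds (by simp; linarith))).mpr hh,
        fun v => ?_⟩
      have := sub_smul_dslope h w v
      rw [h0, sub_zero, smul_eq_mul] at this
      rw [e, Fin.prod_univ_succ, ← this]
      simp only [Fin.cons_zero, Fin.cons_succ]
      ring
    obtain ⟨z', h', hz', hh', e'⟩ := id hP
    have := (key _ z' h' hz' hh' e').2.2.trans (Nat.le_ceil _)
    exact Nat.findGreatest_is_greatest (hMdef.ge.trans_lt (Nat.lt_succ_self M)) (by exact_mod_cast this) hP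
  have hs : ball (0 : ℂ) 2 ⊆ ball 0 9 := ball_subset_ball (by norm_num)
  have hne' : ∀ w ∈ ball (0 : ℂ) 2, h w ≠ 0 := fun w hw => hne w (mem_ball_zero_iff.mp hw).le
  obtain ⟨g, g0, hg⟩ := ((((hh.deriv isOpen_ball).mono hs).div (hh.mono hs)
    hne').isExactOn_ball).with_val_at 0 0
  have e3 : ∀ w ∈ ball (0 : ℂ) 2, ‖h w‖ = ‖h 0‖ * Real.exp (g w).re := by
    intro w hw
    have h4 := Convex.norm_image_sub_le_of_norm_hasDerivWithin_le (C := 0) (s := ball (0 : ℂ) 2)
      (f := fun w => h w * Complex.exp (-g w)) (f' := fun _ => 0) (fun v hv => by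
        have h5 := ((hh.differentiableAt (isOpen_ball.mem_nhds (hs hv))).hasDerivAt.mul
          (hg v hv).neg.cexp)
        refine (h5.congr_deriv ?_).hasDerivWithinAt
        have := hne' v hv
        simp only [Pi.div_apply, Pi.neg_apply]
        field_simp
        ring) (by simp) (convex_ball _ _) (mem_ball_self two_pos) hw
    rw [zero_mul, norm_le_zero_iff, sub_eq_zero, g0, neg_zero, Complex.exp_zero, mul_one] at h4
    rw [← h4, norm_mul, Complex.norm_exp, mul_assoc, ← Real.exp_add]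
    simp
  have h6 : (2 : ℝ) ^ M ≤ 6 ^ M := by gcongr; norm_num
  have h7 : Set.MapsTo g (ball 0 2) {z | z.re ≤ L + 1} := fun w hw => by
    have h8 := h1 w (by linarith [mem_ball_zero_iff.mp hw])
    rw [e3 w hw] at h8
    have h9 : Real.exp (-L) * Real.exp (g w).re ≤ Real.exp 1 := by
      calc _ ≤ (6 ^ M * ‖h 0‖) * Real.exp (g w).re := by
            gcongr; exact h2.trans (by gcongr)
        _ ≤ _ := by rw [mul_assoc]; exact h8.trans e2
    rw [← Real.exp_add, Real.exp_le_exp] at h9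
    change (g w).re ≤ L + 1
    linarith
  refine ⟨M, z, by linarith, hz, fun w hw => ?_⟩
  have hw2 : w ∈ ball (0 : ℂ) 2 := mem_ball_zero_iff.mpr (by linarith)
  have h8 := Complex.borelCaratheodory_zero (by linarith)
    (fun v hv => (hg v hv).differentiableAt.differentiableWithinAt) h7 two_pos hw2 g0
  have h9 : ‖g w‖ ≤ 2 * (L + 1) := by
    refine h8.trans ?_
    rw [div_le_iff₀ (by linarith)]
    nlinarith
  rw [e, norm_mul, norm_prod, mul_comm, e3 w hw2]
  refine mul_le_mul_of_nonneg_left ?_ (prod_nonneg fun _ _ => norm_nonneg _)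
  have h10 : (2 : ℝ) ^ M ≤ Real.exp (L + 1) :=
    (pow_le_pow_left₀ (by norm_num) e2 M).trans (by rw [Real.exp_one_pow]; gcongr)
  have h11 : Real.exp (-L) ≤ Real.exp (L + 1) * ‖h 0‖ := h2.trans (by gcongr)
  rw [← div_le_iff₀' (by positivity), ← Real.exp_sub] at h11
  calc _ ≤ Real.exp (-L - (L + 1)) * Real.exp (g w).re := by
        rw [← Real.exp_add, Real.exp_le_exp]
        linarith [Complex.abs_re_le_norm (g w), neg_abs_le (g w).re]
    _ ≤ _ := by gcongr

lemma cartan_meas : ∃ K : ℝ, 1 ≤ K ∧ ∀ (M : ℕ) (x : Fin M → ℝ) (β : ℝ), 0 < M → (∀ j, |x j| ≤ 2) →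
    volume {t ∈ Set.Icc (0 : ℝ) 1 | ∏ j, |t - x j| ≤ Real.exp (-(2 * M * β))} ≤
      ENNReal.ofReal (K * Real.exp (-β)) := by
  let ph : ℝ → ℝ := fun s => |s| ^ (-(1 / 2) : ℝ)
  have hm : Measurable ph := by fun_prop
  have hi : IntegrableOn ph (ball 0 4) :=
    integrableOn_ball_of_norm_le_rpow (C := 1) (α := 1 / 2) (by simp) (by simp; norm_num)
      (Eventually.of_forall fun s => by
        simp only [ph, Real.norm_eq_abs, one_mul]
        rw [abs_of_nonneg (by positivity)]) hm.aestronglyMeasurable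
  set K0 := ∫⁻ s in ball 0 4, ENNReal.ofReal (ph s)
  have hK : K0 ≠ ⊤ := hi.lintegral_lt_top.ne
  refine ⟨K0.toReal + 1, by linarith [K0.toReal_nonneg], fun M x β hM hx => ?_⟩
  have h1 : ∀ j, ∫⁻ t in Set.Icc (0 : ℝ) 1, ENNReal.ofReal (ph (t - x j)) ≤ K0 := fun j => by
    simp only [K0]
    rw [← lintegral_indicator measurableSet_Icc, ← lintegral_indicator measurableSet_ball,
      ← lintegral_sub_right_eq_self ((ball 0 4).indicator _) (x j)]
    refine lintegral_mono fun t => ?_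
    by_cases ht : t ∈ Set.Icc (0 : ℝ) 1
    · rw [Set.indicator_of_mem ht, Set.indicator_of_mem]
      rw [mem_ball_zero_iff, Real.norm_eq_abs, abs_lt]
      constructor <;> linarith [ht.1, ht.2, abs_le.mp (hx j)]
    · simp [Set.indicator_of_notMem ht]
  have hmj : ∀ j, Measurable fun t => ENNReal.ofReal (ph (t - x j)) := fun j => by fun_prop
  have h2 := mul_meas_ge_le_lintegral (μ := volume.restrict (Set.Icc (0 : ℝ) 1))
    (f := fun t => ∑ j, ENNReal.ofReal (ph (t - x j))) (Finset.measurable_sum _ fun j _ => hmj j)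
    (ENNReal.ofReal (M * Real.exp β))
  rw [lintegral_finsetSum _ fun j _ => hmj j, Measure.restrict_apply' measurableSet_Icc] at h2
  have h3 := h2.trans (sum_le_sum fun j _ => h1 j)
  have h4 : volume {t ∈ Set.Icc (0 : ℝ) 1 | ∏ j, |t - x j| ≤ Real.exp (-(2 * M * β))} ≤
      volume ({t | ENNReal.ofReal (M * Real.exp β) ≤ ∑ j, ENNReal.ofReal (ph (t - x j))} ∩
        Set.Icc (0 : ℝ) 1) := by
    refine measure_mono_ae ?_
    filter_upwards [(Set.finite_range x).countable.ae_notMem volume] with t ht ⟨h5, h6⟩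
    refine ⟨?_, h5⟩
    have hp : ∀ j, 0 < |t - x j| := fun j => abs_pos.mpr (sub_ne_zero.mpr fun h => ht ⟨j, h.symm⟩)
    rw [Set.mem_ofPred_eq, ← ENNReal.ofReal_sum_of_nonneg fun j _ => by positivity]
    refine ENNReal.ofReal_le_ofReal ?_
    have h7 : ∀ j, Real.exp β * (Real.log |t - x j| * -(1 / 2) - β + 1) ≤ ph (t - x j) := fun j => by
      simp only [ph]
      rw [Real.rpow_def_of_pos (hp j), ← add_sub_cancel β (Real.log |t - x j| * -(1 / 2)),
        add_sub_right_comm, add_comm (β - β), add_sub_left_comm, Real.exp_add]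
      gcongr
      simpa using Real.add_one_le_exp (Real.log |t - x j| * -(1 / 2) - β)
    have h8 := Real.log_le_log (prod_pos fun j _ => hp j) h6
    rw [Real.log_exp, Real.log_prod fun j _ => (hp j).ne'] at h8
    refine le_trans ?_ (sum_le_sum fun j _ => h7 j)
    rw [← mul_sum, mul_comm]
    gcongr
    simp only [sum_add_distrib, sum_sub_distrib, ← sum_mul, sum_const, card_univ, Fintype.card_fin,
      nsmul_eq_mul]
    linarith
  refine h4.trans ?_
  have hM' : (0 : ℝ) < M := by exact_mod_cast hM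
  rw [← ENNReal.mul_le_mul_iff_right (a := ENNReal.ofReal (M * Real.exp β))
    (ENNReal.ofReal_pos.mpr (by positivity)).ne' ENNReal.ofReal_ne_top]
  refine h3.trans ?_
  rw [← ENNReal.ofReal_mul (by positivity), sum_const, card_univ, Fintype.card_fin, nsmul_eq_mul,
    ← ENNReal.ofReal_toReal hK, ← ENNReal.ofReal_natCast, ← ENNReal.ofReal_mul (by positivity),
    ENNReal.toReal_ofReal ENNReal.toReal_nonneg]
  refine ENNReal.ofReal_le_ofReal ?_
  rw [mul_assoc, mul_left_comm (Real.exp β), ← Real.exp_add]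
  simp only [add_neg_cancel, Real.exp_zero, mul_one]
  gcongr
  linarith

lemma cartan1 : ∃ K : ℝ, 1 ≤ K ∧ ∀ (a : ℕ → ℝ) (f : ℝ → ℝ) (L s : ℝ), (∀ k, |a k| ≤ (1 / 16) ^ k) →
    (∀ t ∈ Set.Icc (0 : ℝ) 1, Tendsto (fun d => ∑ k ∈ range d, t ^ k * a k) atTop (𝓝 (f t))) →
    1 ≤ L → Real.exp (-L) ≤ |a 0| →
    volume {t ∈ Set.Icc (0 : ℝ) 1 | |f t| ≤ Real.exp (-s)} ≤
      ENNReal.ofReal (K * Real.exp (-s / (4 * L))) := by
  obtain ⟨K, hK, h⟩ := cartan_meas
  refine ⟨K * Real.exp 2, by nlinarith [Real.add_one_le_exp 2], fun a f L s ha hf hL h0 => ?_⟩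
  have e1 : K * Real.exp 2 * Real.exp (-s / (4 * L)) = K * Real.exp (2 - s / (4 * L)) := by
    rw [mul_assoc, ← Real.exp_add, neg_div, sub_eq_add_neg]
  rw [e1]
  by_cases hs : s ≤ 8 * L
  · refine (measure_mono fun t ht => ht.1).trans ?_
    rw [Real.volume_Icc, sub_zero]
    refine ENNReal.ofReal_le_ofReal (one_le_mul_of_one_le_of_one_le hK (Real.one_le_exp ?_))
    rw [sub_nonneg, div_le_iff₀ (by linarith)]
    linarith
  push Not at hs
  let F : ℂ → ℂ := fun w => ∑' k, w ^ k * a k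
  have hb : ∀ (r : ℝ) (w : ℂ), ‖w‖ ≤ r → ∀ k, ‖w ^ k * a k‖ ≤ (r / 16) ^ k := fun r w hw k => by
    rw [norm_mul, norm_pow, Complex.norm_real, div_eq_mul_one_div, mul_pow]
    exact mul_le_mul (pow_le_pow_left₀ (norm_nonneg _) hw k) (ha k) (norm_nonneg _)
      (pow_nonneg ((norm_nonneg _).trans hw) _)
  obtain ⟨M, z, hM, hz, hF⟩ := factor (F := F) (Complex.differentiableOn_tsum_of_summable_norm
    (summable_geometric_of_lt_one (r := 9 / 16) (by norm_num) (by norm_num))
    (fun k => by fun_prop) isOpen_ball fun k w hw => hb 9 w (mem_ball_zero_iff.mp hw).le k)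
    (fun w hw => tsum_of_norm_bounded hasSum_geometric_two fun k =>
      (hb 8 w hw.le k).trans (by norm_num)) hL (by
      simp only [F]
      rw [tsum_eq_single 0 fun k hk => by simp [hk]]
      simpa using h0)
  have h1 : ∀ t ∈ Set.Icc (0 : ℝ) 1, |f t| ≤ Real.exp (-s) →
      ∏ j, |t - (z j).re| ≤ Real.exp (7 * L - s) := fun t ht h2 => by
    have ht' : ‖(t : ℂ)‖ ≤ 1 := by rw [Complex.norm_real, Real.norm_of_nonneg ht.1]; exact ht.2
    have h3 : F t = f t := by
      have h4 := (Summable.of_norm_bounded (summable_geometric_of_lt_one (r := 1 / 16)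
        (by norm_num) (by norm_num)) (hb 1 t ht')).hasSum.tendsto_sum_nat
      have h5 := (Complex.continuous_ofReal.tendsto _).comp (hf t ht)
      refine tendsto_nhds_unique h4 (h5.congr fun d => ?_)
      simp
    have h4 := hF t ht'
    rw [h3, Complex.norm_real, Real.norm_eq_abs, ← le_div_iff₀' (by positivity)] at h4
    refine le_trans (prod_le_prod (fun _ _ => abs_nonneg _) fun j _ => ?_) (h4.trans ?_)
    · simpa using Complex.abs_re_le_norm (t - z j)
    · rw [div_le_iff₀ (by positivity), ← Real.exp_add]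
      exact h2.trans (le_of_eq (by congr 1; ring))
  rcases Nat.eq_zero_or_pos M with rfl | hM0
  · rw [Set.eq_empty_of_forall_notMem (s := {t | _}) fun t ht => by
      have := h1 t ht.1 ht.2
      rw [Fintype.prod_empty, Real.one_le_exp_iff] at this
      linarith]
    simp
  have hM' : (0 : ℝ) < M := by exact_mod_cast hM0
  refine (measure_mono fun t ht => ?_).trans ((h M (fun j => (z j).re) ((s - 7 * L) / (2 * M)) hM0
    fun j => (Complex.abs_re_le_norm _).trans (hz j)).trans (ENNReal.ofReal_le_ofReal ?_))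
  · refine ⟨ht.1, (h1 t ht.1 ht.2).trans (le_of_eq ?_)⟩
    congr 1
    field_simp
    ring
  · gcongr
    have : (s - 7 * L) / (4 * L) ≤ (s - 7 * L) / (2 * M) := by
      exact div_le_div_of_nonneg_left (by linarith) (by linarith) (by linarith)
    have e : (s - 7 * L) / (4 * L) = s / (4 * L) - 7 / 4 := by field_simp
    linarith

lemma lintegral_scale {F : (Fin n → ℝ) → ℝ≥0∞} (hF : Measurable F) (x : Fin n → ℝ) {t : ℝ}
    (ht : 0 < t) : ∫⁻ y, F y = ENNReal.ofReal (t ^ n) * ∫⁻ h, F (x + t • h) := by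
  have h1 := lintegral_map (μ := volume) (f := fun y => F (x + y)) (g := fun h : Fin n → ℝ => t • h)
    (by fun_prop) (by fun_prop)
  rw [Measure.map_addHaar_smul _ ht.ne', lintegral_smul_measure, lintegral_add_left_eq_self] at h1
  rw [← h1, smul_eq_mul, ← mul_assoc, ← ENNReal.ofReal_mul (by positivity)]
  simp [abs_of_pos, ht, ht.ne']

/-- sublevel sets of harmonic functions are small -/
lemma vol_le (n : ℕ) : ∃ K : ℝ, 1 ≤ K ∧ ∀ (v : (Fin n → ℝ) → ℝ) (x : Fin n → ℝ) (L s : ℝ),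
    Har v x (R0 n) 1 → 1 ≤ L → Real.exp (-L) ≤ |v x| →
    volume {y ∈ closedBall x 4 | |v y| ≤ Real.exp (-s)} ≤
      ENNReal.ofReal (K * Real.exp (-s / (4 * L))) := by
  obtain ⟨K, hK, h⟩ := cartan1
  refine ⟨2 * 16 ^ n * K, by nlinarith [one_le_pow₀ (n := n) (show (1 : ℝ) ≤ 16 by norm_num)],
    fun v x L s hv hL h0 => ?_⟩
  set Z := {y | |v y| ≤ Real.exp (-s)}
  have hZ : MeasurableSet Z := (isClosed_le hv.sm.continuous.abs continuous_const).measurableSet
  set W := {y ∈ closedBall x 4 | |v y| ≤ Real.exp (-s)}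
  have hW : MeasurableSet W := measurableSet_closedBall.inter hZ
  have h1 : ∀ t ∈ Set.Icc (1 / 2 : ℝ) 1,
      volume W ≤ ∫⁻ h in closedBall 0 8, Z.indicator 1 (x + t • h) := fun t ht => by
    have ht0 : 0 < t := by linarith [ht.1]
    rw [← lintegral_indicator_one hW, lintegral_scale (measurable_one.indicator hW) x ht0,
      ← lintegral_indicator measurableSet_closedBall]
    refine (mul_le_of_le_one_left' (ENNReal.ofReal_le_one.mpr (pow_le_one₀ ht0.le ht.2))).trans
      (lintegral_mono fun h => ?_)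
    by_cases hh : x + t • h ∈ W
    · have h2 := hh.1
      rw [mem_closedBall_iff_norm, add_sub_cancel_left, norm_smul, Real.norm_of_nonneg ht0.le] at h2
      rw [Set.indicator_of_mem hh, Set.indicator_of_mem (mem_closedBall_zero_iff.mpr
        (by nlinarith [ht.1, norm_nonneg h])), Set.indicator_of_mem (show _ ∈ Z from hh.2)]
    · simp [Set.indicator_of_notMem hh]
  have h2 : ∀ y ∈ closedBall (0 : Fin n → ℝ) 8, ∫⁻ t in Set.Icc (0 : ℝ) 1,
      Z.indicator 1 (x + t • y) ≤ ENNReal.ofReal (K * Real.exp (-s / (4 * L))) := fun y hy => by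
    rw [mem_closedBall_zero_iff] at hy
    refine le_trans (le_of_eq ?_) (h (fun k => co k v x y) (fun t => v (x + t • y)) L s
      (fun k => (co_le k hv y).trans ?_) (fun t ht => ?_) hL (by simpa [co, TL] using h0))
    · have hm : MeasurableSet ((fun t : ℝ => x + t • y) ⁻¹' Z) := hZ.preimage (by fun_prop)
      rw [show (fun t : ℝ => Z.indicator (1 : (Fin n → ℝ) → ℝ≥0∞) (x + t • y)) =
        ((fun t : ℝ => x + t • y) ⁻¹' Z).indicator 1 from rfl, lintegral_indicator_one hm,
        Measure.restrict_apply hm, Set.inter_comm]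
      rfl
    · rw [mul_one]
      exact pow_le_pow_left₀ (by positivity) (by linarith) _
    · have hty : ‖t • y‖ ≤ 8 := by
        rw [norm_smul, Real.norm_of_nonneg ht.1]
        nlinarith [ht.1, ht.2, norm_nonneg y]
      rw [← tendsto_add_atTop_iff_nat 1, tendsto_iff_norm_sub_tendsto_zero]
      refine squeeze_zero (fun _ => norm_nonneg _) (fun d => ?_)
        ((tendsto_add_atTop_iff_nat 1).mpr (tendsto_pow_atTop_nhds_zero_of_lt_one
          (r := 1 / 16) (by norm_num) (by norm_num)))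
      have := taylor_le d hv hty
      simp_rw [co_smul] at this
      rw [Real.norm_eq_abs, abs_sub_comm]
      refine this.trans ?_
      rw [mul_one]
      exact pow_le_pow_left₀ (by positivity) (by linarith) _
  have h3 : ENNReal.ofReal (1 / 2) * volume W ≤
      ENNReal.ofReal (K * Real.exp (-s / (4 * L))) * ENNReal.ofReal (16 ^ n) := by
    calc _ = ∫⁻ _ in Set.Icc (1 / 2 : ℝ) 1, volume W := by
          rw [setLIntegral_const, Real.volume_Icc, mul_comm]; norm_num
      _ ≤ ∫⁻ t in Set.Icc (1 / 2 : ℝ) 1, ∫⁻ h in closedBall 0 8, Z.indicator 1 (x + t • h) :=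
          setLIntegral_mono' measurableSet_Icc h1
      _ ≤ ∫⁻ t in Set.Icc (0 : ℝ) 1, ∫⁻ h in closedBall 0 8, Z.indicator 1 (x + t • h) :=
          lintegral_mono_set (Set.Icc_subset_Icc_left (by norm_num))
      _ = ∫⁻ h in closedBall 0 8, ∫⁻ t in Set.Icc (0 : ℝ) 1, Z.indicator 1 (x + t • h) :=
          lintegral_lintegral_swap (((measurable_one.indicator hZ).comp
            (by fun_prop)).aemeasurable)
      _ ≤ ∫⁻ _ in closedBall (0 : Fin n → ℝ) 8, ENNReal.ofReal (K * Real.exp (-s / (4 * L))) :=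
          setLIntegral_mono' measurableSet_closedBall h2
      _ = _ := by
          rw [setLIntegral_const, Real.volume_pi_closedBall _ (by norm_num)]; norm_num
  rw [← ENNReal.mul_le_mul_iff_right (a := ENNReal.ofReal (1 / 2)) (by simp) ENNReal.ofReal_ne_top]
  refine h3.trans (le_of_eq ?_)
  rw [← ENNReal.ofReal_mul (by positivity), ← ENNReal.ofReal_mul (by positivity)]
  congr 1
  ring

lemma good_set (n : ℕ) : ∃ A : ℝ, 1 ≤ A ∧ ∀ (v : (Fin n → ℝ) → ℝ) (x : Fin n → ℝ) (L : ℝ),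
    Har v x (R0 n) 1 → 1 ≤ L → Real.exp (-L) ≤ |v x| →
    volume {y ∈ closedBall x 4 | |v y| ≤ Real.exp (-(A * L))} ≤ ENNReal.ofReal (1 / 2) := by
  obtain ⟨K, hK, h⟩ := vol_le n
  have h1 : 0 ≤ Real.log (2 * K) := Real.log_nonneg (by linarith)
  refine ⟨4 * Real.log (2 * K) + 1, by linarith, fun v x L hv hL h0 =>
    (h v x L _ hv hL h0).trans (ENNReal.ofReal_le_ofReal ?_)⟩
  calc _ ≤ K * Real.exp (-Real.log (2 * K)) := by
        gcongr
        rw [div_le_iff₀ (by linarith)]
        nlinarith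
    _ = _ := by rw [Real.exp_neg, Real.exp_log (by linarith)]; field_simp

end

end Pool.Agent.LinCrit
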