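import Pool.Agent.Lib.MP_8465a2_an.Blow

/-!
The covering argument, propagation along chains of cubes, and the bound on a convex compact set.
-/

namespace Pool.Agent.LinCrit

open Finset Matrix MeasureTheory Pool.Agent.Alesker Topology Filter Metric
open scoped ContDiff ENNReal

noncomputable section

variable {n : ℕ}

lemma cover (hn : 3 ≤ n) {w : (Fin n → ℝ) → ℝ} {c : ℝ} (hc : 0 < c) (j : ℕ) {B : ℝ≥0∞}
    (hB : ∀ ε : ℝ, 0 < ε → ε ≤ 1 → ∫⁻ x in closedBall 0 2, ENNReal.ofReal (dens w ε x) ≤ B) :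
    μH[(n : ℝ) - 2] {x : Fin n → ℝ | ‖x‖ ≤ 1 ∧ Good w c j x} ≤
      ENNReal.ofReal (10 ^ (n - 2) / c) * B := by
  let A := {x : Fin n → ℝ | ‖x‖ ≤ 1 ∧ Good w c j x}
  let δ : ℕ → ℝ := fun k => 1 / (k + 1)
  have hδ : ∀ k, 0 < δ k := fun k => by positivity
  have hδ1 : ∀ k, δ k ≤ 1 := fun k => by
    rw [div_le_one (by positivity)]; linarith [Nat.cast_nonneg (α := ℝ) k]
  have hj : (1 : ℝ) ≤ j + 1 := by linarith [Nat.cast_nonneg (α := ℝ) j]
  let ε : ℕ → ℝ := fun k => δ k ^ (j + 1) / (j + 1)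
  have hε : ∀ k, 0 < ε k := fun k => div_pos (pow_pos (hδ k) _) (by positivity)
  have hε1 : ∀ k, ε k * (j + 1) = δ k ^ (j + 1) := fun k => div_mul_cancel₀ _ (by positivity)
  have hε2 : ∀ k, ε k * (j + 1) ≤ 1 := fun k => (hε1 k).trans_le (pow_le_one₀ (hδ k).le (hδ1 k))
  choose! r hr0 hr1 hr2 hr3 using fun k (x : Fin n → ℝ) (hx : x ∈ A) => hx.2 (ε k) (hε k) (hε2 k)
  have hr4 : ∀ k, ∀ x ∈ A, r k x ≤ δ k := fun k x hx =>
    (pow_le_pow_iff_left₀ (hr0 k x hx).le (hδ k).le (Nat.succ_ne_zero j)).mp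
      ((hr2 k x hx).trans_eq (hε1 k))
  choose u hu hd hcov using fun k => Vitali.exists_disjoint_subfamily_covering_enlargement_closedBall
    A id (r k) 1 (hr1 k) 5 (by norm_num)
  have hcount : ∀ k, (u k).Countable := fun k => (hd k).countable_of_nonempty_interior fun x hx =>
    ⟨x, mem_interior_iff_mem_nhds.mpr (closedBall_mem_nhds x (hr0 k x (hu k hx)))⟩
  have : ∀ k, Countable (u k) := fun k => (hcount k).to_subtype
  have hdiam : ∀ k (i : u k), ediam (closedBall (i : Fin n → ℝ) (5 * r k i)) ≤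
      ENNReal.ofReal (10 * r k i) := fun k i => ediam_le_of_forall_dist_le fun x hx y hy => by
    linarith [dist_triangle_right x y i, mem_closedBall.mp hx, mem_closedBall.mp hy]
  refine (Measure.hausdorffMeasure_le_liminf_tsum (ι := fun k => u k) _ A (l := atTop)
    (fun k => ENNReal.ofReal (10 * δ k)) ?_ (fun k i => closedBall (i : Fin n → ℝ) (5 * r k i))
    (Eventually.of_forall fun k i => (hdiam k i).trans
      (ENNReal.ofReal_le_ofReal (by linarith [hr4 k i (hu k i.2)])))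
    (Eventually.of_forall fun k x hx => ?_)).trans
      (liminf_le_of_frequently_le' (Frequently.of_forall fun k => ?_))
  · simpa [δ] using ENNReal.tendsto_ofReal (tendsto_one_div_add_atTop_nhds_zero_nat.const_mul (10 : ℝ))
  · obtain ⟨b, hb, h⟩ := hcov k x hx
    exact Set.mem_iUnion.mpr ⟨⟨b, hb⟩, h (mem_closedBall_self (hr0 k x hx).le)⟩
  · calc _ ≤ ∑' i : u k, ENNReal.ofReal (10 ^ (n - 2) / c) *
          ∫⁻ y in closedBall (i : Fin n → ℝ) (r k i), ENNReal.ofReal (dens w (ε k) y) :=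
          ENNReal.tsum_le_tsum fun i => by
            have h0 := hr0 k i (hu k i.2)
            refine le_trans ?_ (mul_le_mul' le_rfl (hr3 k i (hu k i.2)))
            rw [show (n : ℝ) - 2 = (n - 2 : ℕ) by rw [Nat.cast_sub (by omega)]; simp,
              ENNReal.rpow_natCast, ← ENNReal.ofReal_mul (by positivity)]
            refine (pow_le_pow_left' (hdiam k i) _).trans (le_of_eq ?_)
            rw [← ENNReal.ofReal_pow (by positivity), mul_pow]
            congr 1
            field_simp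
      _ = ENNReal.ofReal (10 ^ (n - 2) / c) *
          ∫⁻ y in ⋃ i ∈ u k, closedBall i (r k i), ENNReal.ofReal (dens w (ε k) y) := by
          rw [ENNReal.tsum_mul_left,
            lintegral_biUnion (s := fun i => closedBall i (r k i)) (hcount k)
              (fun _ _ => measurableSet_closedBall) (hd k)]
      _ ≤ _ := mul_le_mul' le_rfl ((lintegral_mono_set (Set.iUnion₂_subset fun i hi =>
          closedBall_subset_closedBall' (by
            rw [dist_zero_right]; linarith [hr1 k i (hu k hi), (hu k hi).1]))).trans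
          (hB _ (hε k) ((le_mul_of_one_le_right (hε k).le hj).trans (hε2 k))))

/-- the bound on the unit cube -/
lemma local_bound (hn : 3 ≤ n) : ∃ C : ℝ, 0 ≤ C ∧ ∀ (w : (Fin n → ℝ) → ℝ) (y : Fin n → ℝ)
    (i : Fin n) (L : ℝ), Har w 0 (3 * R0 n) 1 → ‖y‖ ≤ 1 → 2 ≤ L → Real.exp (-L) ≤ |pd i w y| →
    μH[(n : ℝ) - 2] {x : Fin n → ℝ | ‖x‖ ≤ 1 ∧ gr w x = 0} ≤
      ENNReal.ofReal (C * (L * Real.log L) ^ 2) := by
  obtain ⟨C, hC, h1⟩ := mass hn
  obtain ⟨c, hc, h2⟩ := blow hn
  refine ⟨10 ^ (n - 2) / c * C, by positivity, fun w y i L hw hy hL hi => ?_⟩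
  have h3 : Monotone fun j => {x : Fin n → ℝ | ‖x‖ ≤ 1 ∧ Good w c j x} := fun j l hjl x hx =>
    ⟨hx.1, fun ε hε h => by
      have h4 : ε * (j + 1) ≤ ε * (l + 1) := by gcongr
      obtain ⟨r, a1, a2, a3, a4⟩ := hx.2 ε hε (h4.trans h)
      exact ⟨r, a1, a2, (pow_le_pow_of_le_one a1.le a2 (by omega)).trans (a3.trans h4), a4⟩⟩
  refine (measure_mono (t := ⋃ j, {x : Fin n → ℝ | ‖x‖ ≤ 1 ∧ Good w c j x}) fun x hx => ?_).trans ?_
  · obtain ⟨j, hj⟩ := h2 w y i hw hy (abs_pos.mp ((Real.exp_pos _).trans_le hi)) x hx.1 hx.2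
    exact Set.mem_iUnion.mpr ⟨j, hx.1, hj⟩
  · rw [h3.measure_iUnion, mul_assoc, ENNReal.ofReal_mul (by positivity)]
    exact iSup_le fun j => cover hn hc j fun ε => h1 w y i L ε hw hy hL hi

/-- propagation of a lower bound along a segment -/
lemma chain {S : Set (Fin n → ℝ)} (hS : Convex ℝ S) (hb : Bornology.IsBounded S) :
    ∃ B : ℝ, 1 ≤ B ∧ ∀ (g : (Fin n → ℝ) → ℝ) (L : ℝ), ∀ p ∈ S, ∀ q ∈ S,
      (∀ c ∈ S, Har g c (R0 n + 1) 1) → 1 ≤ L → Real.exp (-L) ≤ |g p| →
      ∃ y, ‖y - q‖ ≤ 1 ∧ Real.exp (-(B * L)) ≤ |g y| := by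
  obtain ⟨A, hA, h⟩ := good_set n
  obtain ⟨k, hk⟩ := exists_nat_ge (diam S)
  refine ⟨A ^ k, one_le_pow₀ hA, fun g L p hp q hq hg hL h0 => ?_⟩
  have hq' : ‖q - p‖ ≤ k := (dist_eq_norm q p ▸ dist_le_diam_of_mem hb hq hp).trans hk
  clear hk
  induction k generalizing q with
  | zero =>
    refine ⟨p, ?_, by simpa using h0⟩
    rw [norm_sub_rev]
    exact hq'.trans (by simp)
  | succ k ih =>
    have hk : (0 : ℝ) < k + 1 := by positivity
    push_cast at hq'
    have e1 : q - (p + (k / (k + 1) : ℝ) • (q - p)) = (1 / (k + 1) : ℝ) • (q - p) := by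
      rw [show (1 / (k + 1) : ℝ) = 1 - k / (k + 1) by field_simp; ring, sub_smul, one_smul]
      abel
    have hm : p + (k / (k + 1) : ℝ) • (q - p) ∈ S :=
      hS.add_smul_sub_mem hp hq ⟨by positivity, by rw [div_le_one hk]; linarith⟩
    obtain ⟨y, hy, h1⟩ := ih _ hm (by
      rw [add_sub_cancel_left, norm_smul, Real.norm_of_nonneg (by positivity),
        div_mul_eq_mul_div, div_le_iff₀ hk]
      gcongr)
    have h2 := h g y (A ^ k * L) ((hg _ hm).mono (by linarith))
      (one_le_mul_of_one_le_of_one_le (one_le_pow₀ hA) hL) h1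
    have h3 : ‖q - (p + (k / (k + 1) : ℝ) • (q - p))‖ ≤ 1 := by
      rwa [e1, norm_smul, Real.norm_of_nonneg (by positivity), div_mul_eq_mul_div, one_mul,
        div_le_one hk]
    by_contra h4
    push Not at h4
    have h5 : closedBall q 1 ⊆ {z ∈ closedBall y 4 | |g z| ≤ Real.exp (-(A * (A ^ k * L)))} :=
      fun z hz => ⟨mem_closedBall.mpr (by
        rw [← dist_eq_norm] at hy h3
        linarith [mem_closedBall.mp hz, dist_triangle z q y,
          dist_triangle_right q y (p + (k / (k + 1) : ℝ) • (q - p))]),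
        by rw [← mul_assoc, ← pow_succ']; exact (h4 z (mem_closedBall_iff_norm.mp hz)).le⟩
    have h6 := (measure_mono h5).trans h2
    rw [Real.volume_pi_closedBall _ zero_le_one, ENNReal.ofReal_le_ofReal_iff (by norm_num)] at h6
    exact absurd ((one_le_pow₀ (by norm_num)).trans h6) (by norm_num)

lemma pd_trans {v : (Fin n → ℝ) → ℝ} (hv : Sm v) (c : Fin n → ℝ) (l : Fin n) (z : Fin n → ℝ) :
    pd l (fun z => v (c + z)) z = pd l v (c + z) := by
  simpa using pd_shift hv.diff c 1 l z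

lemma Har.trans {v : (Fin n → ℝ) → ℝ} {c : Fin n → ℝ} {R M : ℝ} (h : Har v c R M) :
    Har (fun z => v (c + z)) 0 R M :=
  ⟨h.sm.comp (by fun_prop), fun z hz => by
    simpa [h.har (c + z) (by simpa using hz)] using lap_shift h.sm 1 c 1 z,
    fun z hz => h.bd _ (by simpa using hz)⟩

/-- the bound on a convex compact set -/
lemma core (hn : 3 ≤ n) {S : Set (Fin n → ℝ)} (hS : Convex ℝ S) (hc : IsCompact S) :
    ∃ C : ℝ, 0 ≤ C ∧ ∀ (v : (Fin n → ℝ) → ℝ) (i : Fin n) (L : ℝ), ∀ p ∈ S,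
      (∀ c ∈ S, Har (fun z => v z + -v c) c (3 * R0 n) 1) → 2 ≤ L → Real.exp (-L) ≤ |pd i v p| →
      μH[(n : ℝ) - 2] {x ∈ S | gr v x = 0} ≤ ENNReal.ofReal (C * (L * Real.log L) ^ 2) := by
  obtain ⟨C, hC, h1⟩ := local_bound hn
  obtain ⟨B, hB, h2⟩ := chain hS hc.isBounded
  obtain ⟨t, htS, ht, hcov⟩ := finite_cover_balls_of_compact hc one_pos
  lift t to Finset (Fin n → ℝ) using ht
  have hR := R0_pos n
  have hlB := Real.log_nonneg hB
  refine ⟨#t * (C * (B * (2 * Real.log B + 1)) ^ 2), by positivity,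
    fun v i L p hp hv hL h0 => ?_⟩
  have hs : Sm v := by simpa using (hv p hp).sm.add (contDiff_const (c := v p))
  have e1 : ∀ a l, pd l (fun z => v z + a) = pd l v := fun a l => funext fun z => by
    rw [pd_add hs contDiff_const, pd_const, add_zero]
  have h3 : ∀ c ∈ t, μH[(n : ℝ) - 2] ((fun z => c + z) '' {x : Fin n → ℝ | ‖x‖ ≤ 1 ∧
      gr (fun z => v (c + z) + -v c) x = 0}) ≤
      ENNReal.ofReal (C * (B * (2 * Real.log B + 1)) ^ 2 * (L * Real.log L) ^ 2) := fun c hc => by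
    rw [(isometry_add_left c).hausdorffMeasure_image (Or.inr (add_left_surjective c))]
    obtain ⟨y, hy, h4⟩ := h2 (pd i v) L p hp c (htS hc) (fun c hc => by
      rw [← e1 (-v c)]
      exact Har.pd ((hv c hc).mono (by simp; linarith)) i) (by linarith) h0
    refine (h1 _ (y - c) i (B * L) (hv c (htS hc)).trans hy (by nlinarith) ?_).trans
      (ENNReal.ofReal_le_ofReal ?_)
    · rwa [pd_trans (hv c (htS hc)).sm, e1, add_sub_cancel]
    · have h5 : 1 / 2 ≤ Real.log L :=
        le_trans (by linarith [Real.log_two_gt_d9]) (Real.log_le_log two_pos hL)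
      rw [mul_assoc C, ← mul_pow, Real.log_mul (by positivity) (by positivity)]
      refine mul_le_mul_of_nonneg_left (pow_le_pow_left₀ (by positivity) ?_ _) hC
      have h6 : Real.log B + Real.log L ≤ (2 * Real.log B + 1) * Real.log L := by nlinarith
      calc _ ≤ B * L * ((2 * Real.log B + 1) * Real.log L) := by gcongr
        _ = _ := by ring
  refine (measure_mono (t := ⋃ c ∈ t, _) fun x hx => ?_).trans
    ((measure_biUnion_finset_le _ _).trans ((sum_le_card_nsmul _ _ _ h3).trans (le_of_eq ?_)))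
  · obtain ⟨c, hc, h4⟩ := Set.mem_iUnion₂.mp (hcov hx.1)
    refine Set.mem_iUnion₂.mpr ⟨c, hc, x - c, ⟨(mem_ball_iff_norm.mp h4).le, funext fun l => ?_⟩,
      add_sub_cancel c x⟩
    change pd l _ _ = _
    rw [pd_trans (hv c (htS hc)).sm, e1, add_sub_cancel]
    exact congrFun hx.2 l
  · rw [mul_assoc (#t : ℝ), ENNReal.ofReal_mul (Nat.cast_nonneg _), ENNReal.ofReal_natCast,
      nsmul_eq_mul]

/-- a weak Harnack inequality -/
lemma harnack {S : Set (Fin n → ℝ)} (hS : Convex ℝ S) (hb : Bornology.IsBounded S) :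
    ∃ δ : ℝ, 0 < δ ∧ ∀ (g : (Fin n → ℝ) → ℝ), ∀ p ∈ S, ∀ q ∈ S,
      (∀ c ∈ S, Har g c (R0 n + 1) 1) → (∀ z, ‖z - q‖ ≤ R0 n → 0 ≤ g z) → 1 / 2 ≤ g p →
      δ ≤ g q := by
  obtain ⟨B, hB, h1⟩ := chain hS hb
  obtain ⟨A, hA, h2⟩ := good_set n
  obtain ⟨t, ht⟩ : ∃ t : ℝ, t = n + 1 := ⟨_, rfl⟩
  have ht0 : 0 < t := by rw [ht]; positivity
  have htR : t ≤ R0 n := by
    have := Cg_ge n
    unfold R0
    nlinarith
  obtain ⟨y0, hy0, hmin⟩ := (isCompact_closedBall (0 : Fin n → ℝ) t⁻¹).exists_isMinOn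
    ⟨0, mem_closedBall_self (by positivity)⟩ sm_rho.continuous.continuousOn
  have h3 : 0 < rho y0 := by
    have : nq y0 < 1 := by
      have h4 : nq y0 ≤ n * t⁻¹ ^ 2 := (sum_le_sum fun l _ => sq_le_sq.mpr ((norm_le_pi_norm y0 l).trans
        ((mem_closedBall_zero_iff.mp hy0).trans (le_abs_self _)))).trans (by simp)
      refine h4.trans_lt ?_
      rw [inv_pow, ← div_eq_mul_inv, div_lt_one (by positivity), ht]
      nlinarith [Nat.cast_nonneg (α := ℝ) n]
    exact mul_pos (pow_pos (inv_pos.mpr (by linarith)) _) (expNegInvGlue.pos_of_pos (by linarith))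
  have hI := Irho_pos (n := n)
  let κ := Real.exp (-(A * (B * 1)))
  have hκ : 0 < κ := Real.exp_pos _
  refine ⟨rho y0 * κ * (1 / 2) / (t ^ n * Irho n), by positivity, fun g p hp q hq hg h0 h => ?_⟩
  obtain ⟨y, hy, h4⟩ := h1 g 1 p hp q hq hg le_rfl (le_trans (by
    rw [Real.exp_neg, inv_le_comm₀ (by positivity) (by positivity)]
    linarith [Real.exp_one_gt_d9]) (h.trans (le_abs_self _)))
  have h5 := h2 g y (B * 1) ((hg q hq).mono (by linarith)) (by linarith) h4
  have hc := (hg q hq).sm.continuous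
  let Y := {z ∈ closedBall q 1 | κ < |g z|}
  have hY : MeasurableSet Y :=
    measurableSet_closedBall.inter (isOpen_lt continuous_const hc.abs).measurableSet
  have h6 : ENNReal.ofReal (1 / 2) ≤ volume Y := by
    have h3 : closedBall q 1 ⊆ Y ∪ {z ∈ closedBall y 4 | |g z| ≤ κ} :=
      fun z hz => (lt_or_ge κ |g z|).imp (fun h => ⟨hz, h⟩) fun h => ⟨mem_closedBall.mpr (by
        rw [← dist_eq_norm] at hy
        linarith [mem_closedBall.mp hz, dist_triangle_right z y q]), h⟩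
    have h4 := (measure_mono h3).trans ((measure_union_le _ _).trans (add_le_add le_rfl h5))
    rw [Real.volume_pi_closedBall _ zero_le_one] at h4
    rw [← ENNReal.add_le_add_iff_right (a := ENNReal.ofReal (1 / 2)) ENNReal.ofReal_ne_top,
      ← ENNReal.ofReal_add (by norm_num) (by norm_num)]
    exact le_trans (ENNReal.ofReal_le_ofReal (by
      rw [add_halves]; exact one_le_pow₀ (by norm_num))) h4
  have h7 := mean (sm_two (hg q hq).sm) q t fun z hz => (hg q hq).har z (by
    rw [abs_of_pos ht0] at hz; linarith)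
  have h8 : ∀ z, 0 ≤ rho z * g (q + t • z) := fun z => by
    by_cases hz : z ∈ closedBall (0 : Fin n → ℝ) 1
    · refine mul_nonneg (rho_nonneg z) (h0 _ ?_)
      rw [add_sub_cancel_left, norm_smul, Real.norm_of_nonneg ht0.le]
      exact (mul_le_of_le_one_right ht0.le (mem_closedBall_zero_iff.mp hz)).trans htR
    · simp [rho_zero hz]
  have h9 : ENNReal.ofReal (rho y0 * κ) * volume Y ≤
      ENNReal.ofReal (t ^ n) * ENNReal.ofReal (Irho n * g q) := by
    rw [← setLIntegral_const, ← lintegral_indicator hY,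
      lintegral_scale (measurable_const.indicator hY) q ht0, ← h7,
      ofReal_integral_eq_lintegral_ofReal (f := fun z => rho z * g (q + t • z))
        (integrable_of_cs sm_rho.continuous cs_rho (hc.comp (by fun_prop)))
        (Eventually.of_forall h8)]
    gcongr with z
    by_cases hz : q + t • z ∈ Y
    · rw [Set.indicator_of_mem hz]
      have a1 := mem_closedBall_iff_norm.mp hz.1
      have a2 := h0 _ (a1.trans (by linarith [R0_pos n]))
      rw [add_sub_cancel_left, norm_smul, Real.norm_of_nonneg ht0.le, ← le_div_iff₀' ht0,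
        one_div] at a1
      exact ENNReal.ofReal_le_ofReal (mul_le_mul (hmin (mem_closedBall_zero_iff.mpr a1))
        (hz.2.le.trans_eq (abs_of_nonneg a2)) hκ.le (rho_nonneg _))
    · simp [Set.indicator_of_notMem hz]
  have h10 := (mul_le_mul' le_rfl h6).trans h9
  have a3 := h0 q (by simp; linarith [R0_pos n])
  rw [← ENNReal.ofReal_mul (by positivity), ← ENNReal.ofReal_mul (by positivity),
    ENNReal.ofReal_le_ofReal_iff (by positivity)] at h10
  rw [div_le_iff₀ (by positivity)]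
  linarith

end

end Pool.Agent.LinCrit
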