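import Pool.Agent.Lib.MP_8465a2_an.Mean

/-!
The algebraic inequality for traceless symmetric matrices.
-/

namespace Pool.Agent.LinCrit

open Finset Matrix

noncomputable section

variable {n : ℕ}

/-- squared Frobenius norm -/
def fro (H : Matrix (Fin n) (Fin n) ℝ) : ℝ := ∑ l, ∑ k, H l k ^ 2

/-- sum of the absolute values of the minors of order three -/
def T3 (H : Matrix (Fin n) (Fin n) ℝ) : ℝ :=
  ∑ I : Fin 3 → Fin n, ∑ J : Fin 3 → Fin n, |(H.submatrix I J).det|

lemma spec {H : Matrix (Fin n) (Fin n) ℝ} (h : ∀ i j, H i j = H j i) :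
    ∃ (U : Matrix (Fin n) (Fin n) ℝ) (d : Fin n → ℝ), Uᵀ * U = 1 ∧ U * Uᵀ = 1 ∧
      H = U * diagonal d * Uᵀ := by
  have hH : H.IsHermitian := by ext i j; simp [h i j]
  have e : star (hH.eigenvectorUnitary : Matrix (Fin n) (Fin n) ℝ) =
      (hH.eigenvectorUnitary : Matrix (Fin n) (Fin n) ℝ)ᵀ := by
    rw [star_eq_conjTranspose, conjTranspose_eq_transpose_of_trivial]
  refine ⟨hH.eigenvectorUnitary, hH.eigenvalues, ?_, ?_, ?_⟩
  · rw [← e]; exact Unitary.coe_star_mul_self _
  · rw [← e]; exact Unitary.coe_mul_star_self _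
  · have := hH.spectral_theorem
    rw [Unitary.conjStarAlgAut_apply, e] at this
    simpa using this

lemma nq_dot (v : Fin n → ℝ) : nq v = v ⬝ᵥ v := sum_congr rfl fun _ _ => sq _

lemma nq_mulVec {U : Matrix (Fin n) (Fin n) ℝ} (h : Uᵀ * U = 1) (c : Fin n → ℝ) :
    nq (U *ᵥ c) = nq c := by
  rw [nq_dot, nq_dot, dotProduct_mulVec, ← mulVec_transpose, mulVec_mulVec, h, one_mulVec]

lemma det_rect (A : Matrix (Fin 3) (Fin n) ℝ) (B : Matrix (Fin n) (Fin 3) ℝ)
    (hA : ∀ a i, |A a i| ≤ 1) : |(A * B).det| ≤ ∑ I : Fin 3 → Fin n, |(B.submatrix I id).det| := by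
  have e : (A * B).det = ∑ I : Fin 3 → Fin n, (∏ a, A a (I a)) * (B.submatrix I id).det := by
    rw [← det_transpose]
    simp_rw [← det_transpose (B.submatrix _ id)]
    simp only [det_apply', mul_apply, transpose_apply, prod_univ_sum, mul_sum,
      Fintype.piFinset_univ, submatrix_apply, id, prod_mul_distrib]
    rw [sum_comm]
    exact sum_congr rfl fun I _ => sum_congr rfl fun σ _ => by ring
  rw [e]
  refine (abs_sum_le_sum_abs _ _).trans (sum_le_sum fun I _ => ?_)
  rw [abs_mul, abs_prod]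
  exact mul_le_of_le_one_left (abs_nonneg _)
    (prod_le_one (fun _ _ => abs_nonneg _) fun a _ => hA a _)

lemma det_three_le (H : Matrix (Fin n) (Fin n) ℝ) (P : Matrix (Fin n) (Fin 3) ℝ)
    (hP : ∀ i a, |P i a| ≤ 1) : |(Pᵀ * (H * P)).det| ≤ T3 H := by
  refine (det_rect _ _ fun a i => hP i a).trans (sum_le_sum fun I _ => ?_)
  rw [← det_transpose, show ((H * P).submatrix I id)ᵀ = Pᵀ * (H.submatrix I id)ᵀ from by
    rw [← transpose_mul]; rfl]
  refine (det_rect _ _ fun a i => hP i a).trans (le_of_eq (sum_congr rfl fun J _ => ?_))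
  rw [← det_transpose]
  rfl

lemma eig (hn : 3 ≤ n) {H : Matrix (Fin n) (Fin n) ℝ} (h : ∀ i j, H i j = H j i)
    (ht : ∑ i, H i i = 0) (g : Fin n → ℝ) {s t : ℝ} (hs : 0 < s) (ht0 : 0 < t) (hg : s ^ 2 ≤ nq g) :
    (2 * nq (H *ᵥ g) - fro H * nq g) / nq g ^ 2 ≤ 2 * n ^ 2 * (t ^ 2 + T3 H / (t * s ^ 3)) := by
  obtain ⟨U, d, h1, h2, h3⟩ := spec h
  have hc : ∀ (S : Finset (Fin n)), 0 < S.card → ∃ i ∈ S, ∀ j ∈ S, |d j| ≤ |d i| :=
    fun S hS => exists_max_image S _ (card_pos.mp hS)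
  obtain ⟨i1, -, m1⟩ := hc univ (by simp; omega)
  obtain ⟨i2, a2, m2⟩ := hc (univ.erase i1) (by simp; omega)
  obtain ⟨i3, a3, m3⟩ := hc ((univ.erase i1).erase i2) (by rw [card_erase_of_mem a2]; simp; omega)
  have e1 : ∑ i, d i = 0 := by
    have : H.trace = 0 := ht
    rwa [h3, trace_mul_comm, ← Matrix.mul_assoc, h1, Matrix.one_mul, trace_diagonal] at this
  have e2 : fro H = ∑ i, d i ^ 2 := by
    have : fro H = (H * H).trace := by
      simp only [fro, trace, Matrix.diag, mul_apply]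
      exact sum_congr rfl fun l _ => sum_congr rfl fun k _ => by rw [sq, h k l]
    rw [this, h3, show U * diagonal d * Uᵀ * (U * diagonal d * Uᵀ) =
      U * (diagonal d * (Uᵀ * U) * diagonal d * Uᵀ) by simp only [Matrix.mul_assoc], h1,
      trace_mul_comm, Matrix.mul_assoc, h1, Matrix.mul_one, Matrix.mul_one, diagonal_mul_diagonal,
      trace_diagonal]
    exact sum_congr rfl fun i _ => (sq _).symm
  have e3 : nq (H *ᵥ g) ≤ d i1 ^ 2 * nq g := by
    rw [h3, ← mulVec_mulVec, ← mulVec_mulVec, nq_mulVec h1, ← nq_mulVec (U := Uᵀ) h2 g]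
    simp only [nq, mulVec_diagonal, mul_sum, mul_pow]
    exact sum_le_sum fun i _ => mul_le_mul_of_nonneg_right (sq_le_sq.mpr (m1 i (mem_univ i)))
      (sq_nonneg _)
  have e4 : d i1 ^ 2 + d i2 ^ 2 ≤ fro H := by
    rw [e2, ← add_sum_erase _ _ (mem_univ i1), ← add_sum_erase _ _ a2]
    linarith [sum_nonneg (s := (univ.erase i1).erase i2) fun i _ => sq_nonneg (d i)]
  have e5 : |d i1| ≤ |d i2| + (n - 2) * |d i3| := by
    rw [← add_sum_erase _ _ (mem_univ i1), ← add_sum_erase _ _ a2] at e1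
    rw [eq_neg_of_add_eq_zero_left e1, abs_neg]
    refine (abs_add_le _ _).trans (add_le_add le_rfl ((abs_sum_le_sum_abs _ _).trans
      ((sum_le_card_nsmul _ _ _ m3).trans (le_of_eq ?_))))
    rw [card_erase_of_mem a2, card_erase_of_mem (mem_univ _), card_univ, Fintype.card_fin,
      nsmul_eq_mul, Nat.sub_sub, Nat.cast_sub (by omega)]
    norm_num
  have e6 : |d i1| * |d i2| * |d i3| ≤ T3 H := by
    have hi : Function.Injective ![i1, i2, i3] := by
      have b1 := ne_of_mem_erase a2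
      have b2 := ne_of_mem_erase a3
      have b3 := ne_of_mem_erase (mem_of_mem_erase a3)
      intro a b
      fin_cases a <;> fin_cases b <;> simp [*, b1.symm, b2.symm, b3.symm]
    have h4 := det_three_le H (U.submatrix id ![i1, i2, i3]) fun i a => by
      have := congrFun (congrFun h2 i) i
      simp only [mul_apply, transpose_apply, one_apply_eq, ← sq] at this
      exact (sq_le_one_iff_abs_le_one _).mp (this ▸ sq_le_nq (U i) _)
    have h5 : (U.submatrix id ![i1, i2, i3])ᵀ * (H * U.submatrix id ![i1, i2, i3]) =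
        (Uᵀ * (H * U)).submatrix ![i1, i2, i3] ![i1, i2, i3] := rfl
    rw [h5, h3, Matrix.mul_assoc, Matrix.mul_assoc, h1, ← Matrix.mul_assoc, h1, Matrix.one_mul,
      Matrix.mul_one, submatrix_diagonal _ _ hi, det_diagonal, Fin.prod_univ_three, abs_mul,
      abs_mul, ← h3] at h4
    exact h4
  have a32 : |d i3| ≤ |d i2| := m2 i3 (mem_of_mem_erase a3)
  have a21 : |d i2| ≤ |d i1| := m1 i2 (mem_univ _)
  have hn' : (3 : ℝ) ≤ n := by exact_mod_cast hn
  rw [← sq_abs (d i1)] at e3 e4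
  rw [← sq_abs (d i2)] at e4
  have p1 := abs_nonneg (d i1)
  have p2 := abs_nonneg (d i2)
  have p3 := abs_nonneg (d i3)
  generalize |d i1| = a at *
  generalize |d i2| = b at *
  generalize |d i3| = c at *
  have hr : 0 < nq g := (pow_pos hs 2).trans_le hg
  have hT : 0 ≤ T3 H := le_trans (by positivity) e6
  have e7 : (2 * nq (H *ᵥ g) - fro H * nq g) / nq g ^ 2 ≤ 2 * n * (a * c) / s ^ 2 := by
    have : a ^ 2 - b ^ 2 ≤ 2 * n * (a * c) := by
      have : (a - b) * (a + b) ≤ (n * c) * (2 * a) :=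
        mul_le_mul (by nlinarith) (by linarith) (by positivity) (by positivity)
      nlinarith
    calc _ ≤ 2 * n * (a * c) * nq g / nq g ^ 2 := by gcongr; nlinarith
      _ = 2 * n * (a * c) / nq g := by field_simp
      _ ≤ _ := by gcongr
  refine e7.trans ?_
  rw [div_le_iff₀ (by positivity)]
  have e8 : a * c ≤ n * ((t ^ 2 + T3 H / (t * s ^ 3)) * s ^ 2) := by
    rw [show (t ^ 2 + T3 H / (t * s ^ 3)) * s ^ 2 = (t * s) ^ 2 + T3 H / (t * s) by field_simp]
    have hts : 0 < t * s := by positivity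
    have h0 : 0 ≤ T3 H / (t * s) := by positivity
    rcases le_total a (t * s) with h4 | h4
    · have : a * c ≤ (t * s) ^ 2 := by nlinarith
      nlinarith
    · have : a * c ≤ n * (T3 H / (t * s)) := by
        rw [← mul_div_assoc, le_div_iff₀ hts]
        have : a ≤ n * b := by nlinarith
        calc _ ≤ a * c * (n * b) := mul_le_mul_of_nonneg_left (h4.trans this) (by positivity)
          _ = n * (a * b * c) := by ring
          _ ≤ _ := by gcongr
      nlinarith [sq_nonneg (t * s)]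
  nlinarith

end

end Pool.Agent.LinCrit
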