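import Pool.Agent.Lib.MP_8465a2_an.Cartan
import Pool.Agent.Lib.MP_8465a2_an.Eig

/-!
The integral of the negative part of the Laplacian of the logarithm of the gradient.
-/

namespace Pool.Agent.LinCrit

open Finset Matrix MeasureTheory Pool.Agent.Alesker Topology Filter Metric
open scoped ContDiff ENNReal

noncomputable section

variable {n : ℕ}

/-- `a` and `b` are bounded by `K` and differ by at most `K δ` -/
structure Ap (δ K a b : ℝ) : Prop where
  l : |a| ≤ K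
  r : |b| ≤ K
  d : |a - b| ≤ K * δ

lemma Ap.mul {δ K L a b c d : ℝ} (h : Ap δ K a b) (h' : Ap δ L c d) :
    Ap δ (2 * K * L) (a * c) (b * d) := by
  have hK := (abs_nonneg _).trans h.l
  have hL := (abs_nonneg _).trans h'.l
  have hKL : K * L ≤ 2 * K * L := by nlinarith [mul_nonneg hK hL]
  refine ⟨?_, ?_, ?_⟩
  · rw [abs_mul]; exact (mul_le_mul h.l h'.l (abs_nonneg _) hK).trans hKL
  · rw [abs_mul]; exact (mul_le_mul h.r h'.r (abs_nonneg _) hK).trans hKL
  · rw [show a * c - b * d = a * (c - d) + (a - b) * d by ring]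
    refine (abs_add_le _ _).trans ?_
    rw [abs_mul, abs_mul]
    have h1 := mul_le_mul h.l h'.d (abs_nonneg _) hK
    have h2 := mul_le_mul h.d h'.r (abs_nonneg _) ((abs_nonneg _).trans h.d)
    linarith

lemma Ap.add {δ K L a b c d : ℝ} (h : Ap δ K a b) (h' : Ap δ L c d) :
    Ap δ (K + L) (a + c) (b + d) :=
  ⟨(abs_add_le _ _).trans (add_le_add h.l h'.l), (abs_add_le _ _).trans (add_le_add h.r h'.r), by
    rw [show a + c - (b + d) = (a - b) + (c - d) by ring, add_mul]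
    exact (abs_add_le _ _).trans (add_le_add h.d h'.d)⟩

lemma Ap.sub {δ K L a b c d : ℝ} (h : Ap δ K a b) (h' : Ap δ L c d) :
    Ap δ (K + L) (a - c) (b - d) :=
  ⟨(abs_sub _ _).trans (add_le_add h.l h'.l), (abs_sub _ _).trans (add_le_add h.r h'.r), by
    rw [show a - c - (b - d) = (a - b) - (c - d) by ring, add_mul]
    exact (abs_sub _ _).trans (add_le_add h.d h'.d)⟩

lemma Ap.sum {δ K : ℝ} {a b : Fin n → ℝ} (h : ∀ k, Ap δ K (a k) (b k)) :
    Ap δ (n * K) (∑ k, a k) (∑ k, b k) := by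
  have e : ∀ {f : Fin n → ℝ} {M : ℝ}, (∀ k, |f k| ≤ M) → |∑ k, f k| ≤ n * M := fun hf =>
    (abs_sum_le_sum_abs _ _).trans ((sum_le_sum fun k _ => hf k).trans (by simp))
  exact ⟨e fun k => (h k).l, e fun k => (h k).r, by
    rw [← sum_sub_distrib, mul_assoc]; exact e fun k => (h k).d⟩

lemma Ap.inv {δ K X a b : ℝ} (h : Ap δ K a b) (hK : 1 ≤ K) (hX : 1 ≤ X) (ha : X⁻¹ ≤ a)
    (hb : X⁻¹ ≤ b) : Ap δ (K * X ^ 2) a⁻¹ b⁻¹ := by
  have h0 : 0 < X⁻¹ := by positivity
  have h1 : ∀ {c}, X⁻¹ ≤ c → |c⁻¹| ≤ X := fun hc => by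
    rw [abs_of_pos (inv_pos.mpr (h0.trans_le hc))]
    exact inv_le_of_inv_le₀ (by linarith) hc
  have h2 : X ≤ K * X ^ 2 := by nlinarith
  refine ⟨(h1 ha).trans h2, (h1 hb).trans h2, ?_⟩
  rw [inv_sub_inv' (h0.trans_le ha).ne' (h0.trans_le hb).ne', abs_mul, abs_mul, abs_sub_comm]
  calc _ ≤ X * (K * δ) * X := by
        have := (abs_nonneg _).trans h.d
        gcongr
        exacts [h1 ha, h.d, h1 hb]
    _ = _ := by ring

lemma Ap.le {δ K a b : ℝ} (h : Ap δ K a b) : |a| ≤ |b| + K * δ := by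
  linarith [abs_sub_abs_le_abs_sub a b, h.d]

lemma Ap.of {δ a b : ℝ} (h1 : δ ≤ 1 / 2) (ha : |a| ≤ 1) (h : |a - b| ≤ 2 * δ) : Ap δ 2 a b :=
  ⟨by linarith, by linarith [abs_sub_abs_le_abs_sub b a, abs_sub_comm a b], h⟩

/-- size of the top degree perturbation -/
def eps (D : ℕ) : ℝ := (1 / 16) ^ (D + 1) / ((D + 2) * 3 ^ (D + 2))

lemma eps_pos (D : ℕ) : 0 < eps D := by unfold eps; positivity

lemma del_le (D : ℕ) : (1 / 16 : ℝ) ^ (D + 1) ≤ 1 / 2 :=
  (pow_le_of_le_one (by norm_num) (by norm_num) (by omega)).trans (by norm_num)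

lemma del_exp (k : ℕ) : (1 / 16 : ℝ) ^ k ≤ Real.exp (-(2 * k)) := by
  rw [show -(2 * k : ℝ) = k * -2 by ring, Real.exp_nat_mul]
  refine pow_le_pow_left₀ (by norm_num) ?_ _
  rw [Real.exp_neg, one_div]
  refine inv_anti₀ (by positivity) ?_
  rw [show (2 : ℝ) = (2 : ℕ) by norm_num, ← Real.exp_one_pow]
  nlinarith [Real.exp_one_lt_d9, Real.exp_pos 1]

lemma approx2 (D : ℕ) {v : (Fin n → ℝ) → ℝ} (hv : Har v 0 (2 * R0 n) 1) :
    ∃ p ∈ Pol n (D + 1), ∀ (e : ℝ) (m : Fin n), |e| ≤ eps D → ∀ x, ‖x‖ ≤ 3 →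
      Ap ((1 / 16) ^ (D + 1)) 2 (v x) (p x + e * x m ^ (D + 2)) ∧
      ∀ l, Ap ((1 / 16) ^ (D + 1)) 2 (pd l v x) (pd l (fun x => p x + e * x m ^ (D + 2)) x) := by
  obtain ⟨p, hp, h⟩ := approx D hv
  have hR := R0_pos n
  refine ⟨p, hp, fun e m he x hx => ?_⟩
  have hm : |x m| ≤ 3 := (norm_le_pi_norm x m).trans hx
  have h1 : |e| * ((D + 2) * 3 ^ (D + 2)) ≤ (1 / 16) ^ (D + 1) := (le_div_iff₀ (by positivity)).mp he
  have hD : (0 : ℝ) ≤ D := Nat.cast_nonneg D
  refine ⟨Ap.of (del_le D) (hv.bd x (by simp; linarith)) ?_, fun l =>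
    Ap.of (del_le D) ((Har.pd (by rwa [← two_mul]) l).bd x (by simp; linarith)) ?_⟩
  · rw [← sub_sub, two_mul]
    refine (abs_sub _ _).trans (add_le_add (h x hx).1 (le_trans ?_ h1))
    rw [abs_mul, abs_pow]
    gcongr
    calc _ ≤ (3 : ℝ) ^ (D + 2) := by gcongr
      _ ≤ _ := le_mul_of_one_le_left (by positivity) (by linarith)
  · rw [pd_add (pol_sm hp) (contDiff_const.mul ((sm_coord m).pow _)),
      pd_const_mul ((sm_coord m).pow _), pd_comp (sm_coord m) (hasDerivAt_pow (D + 2) (x m)),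
      ← sub_sub, two_mul]
    refine (abs_sub _ _).trans (add_le_add ((h x hx).2 l) (le_trans ?_ h1))
    rw [abs_mul, abs_mul, abs_mul, abs_pow, pd_coord, Nat.abs_cast]
    push_cast
    refine mul_le_mul_of_nonneg_left ?_ (abs_nonneg _)
    calc _ ≤ ((D : ℝ) + 2) * 3 ^ (D + 1) * 1 := by gcongr; split_ifs <;> simp
      _ ≤ _ := by rw [mul_one]; gcongr <;> norm_num

/-- gradient -/
def gr (w : (Fin n → ℝ) → ℝ) (x : Fin n → ℝ) : Fin n → ℝ := fun j => pd j w x

lemma sm_nq_gr {w : (Fin n → ℝ) → ℝ} (hw : Sm w) : Sm fun x => nq (gr w x) :=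
  ContDiff.sum fun l _ => (hw.pd l).pow 2

lemma Har.gr {w : (Fin n → ℝ) → ℝ} (hw : Har w 0 (3 * R0 n) 1) (j : Fin n) :
    Har (Alesker.pd j w) 0 (2 * R0 n) 1 := Har.pd (by rwa [show 2 * R0 n + R0 n = 3 * R0 n by ring]) j

lemma vol_cube {S : Set (Fin n → ℝ)} (hS3 : ∀ x ∈ S, ‖x‖ ≤ 3) :
    volume S ≤ ENNReal.ofReal (6 ^ n) := by
  refine (measure_mono fun x hx => mem_closedBall_zero_iff.mpr (hS3 x hx)).trans (le_of_eq ?_)
  rw [Real.volume_pi_closedBall _ (by norm_num)]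
  norm_num

lemma lint_add_le {S : Set (Fin n → ℝ)} (hS : MeasurableSet S) (hS3 : ∀ x ∈ S, ‖x‖ ≤ 3)
    {f g : (Fin n → ℝ) → ℝ} {c B : ℝ} (hc : 0 ≤ c) (hB : 0 ≤ B) (h : ∀ x ∈ S, f x ≤ g x + c)
    (hg : ∫⁻ x in S, ENNReal.ofReal (g x) ≤ ENNReal.ofReal B) :
    ∫⁻ x in S, ENNReal.ofReal (f x) ≤ ENNReal.ofReal (B + c * 6 ^ n) := by
  refine (setLIntegral_mono' hS fun x hx =>
    (ENNReal.ofReal_le_ofReal (h x hx)).trans ENNReal.ofReal_add_le).trans ?_
  rw [lintegral_add_right _ measurable_const, setLIntegral_const,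
    ENNReal.ofReal_add hB (by positivity), ENNReal.ofReal_mul hc]
  gcongr
  exact vol_cube hS3

lemma lint_sum_le {J : Type} [Fintype J] {S : Set (Fin n → ℝ)} {f : J → (Fin n → ℝ) → ℝ} {B : ℝ}
    (hm : ∀ j, Measurable (f j)) (h0 : ∀ j x, 0 ≤ f j x)
    (h : ∀ j, ∫⁻ x in S, ENNReal.ofReal (f j x) ≤ ENNReal.ofReal B) :
    ∫⁻ x in S, ENNReal.ofReal (∑ j, f j x) ≤ ENNReal.ofReal (Fintype.card J * B) := by
  simp_rw [ENNReal.ofReal_sum_of_nonneg fun j _ => h0 j _]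
  rw [lintegral_finsetSum _ fun j _ => (hm j).ennreal_ofReal]
  refine (sum_le_sum fun j _ => h j).trans (le_of_eq ?_)
  rw [sum_const, card_univ, nsmul_eq_mul, ENNReal.ofReal_mul (by positivity),
    ENNReal.ofReal_natCast]

lemma cont_hess {w : (Fin n → ℝ) → ℝ} (hw : Sm w) : Continuous (hess w) :=
  continuous_matrix fun i j => ((hw.pd j).pd i).continuous

lemma T3_le {w : (Fin n → ℝ) → ℝ} (hw : Har w 0 (3 * R0 n) 1) {S : Set (Fin n → ℝ)}
    (hS : MeasurableSet S) (hS3 : ∀ x ∈ S, ‖x‖ ≤ 3) (a : ℕ)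
    (ha : ∀ x ∈ S, ∀ j, |pd j w x| ≤ Real.exp (-a)) :
    ∫⁻ x in S, ENNReal.ofReal (T3 (hess w x)) ≤
      ENNReal.ofReal (n ^ 6 * (2000 * 6 ^ n * (a + 1) ^ 3 * Real.exp (-a) ^ 3)) := by
  have hδ : (1 / 16 : ℝ) ^ (2 * a + 1) ≤ Real.exp (-a) ^ 3 := by
    refine (del_exp _).trans ?_
    rw [← Real.exp_nat_mul, Real.exp_le_exp]
    push_cast
    linarith [Nat.cast_nonneg (α := ℝ) a]
  have he : Real.exp (-a) ≤ 1 := Real.exp_le_one_iff.mpr (by simp)
  have hδ' : (1 / 16 : ℝ) ^ (2 * a + 1) ≤ Real.exp (-a) :=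
    hδ.trans (pow_le_of_le_one (by positivity) he (by norm_num))
  have key : ∀ I J : Fin 3 → Fin n, ∫⁻ x in S, ENNReal.ofReal |((hess w x).submatrix I J).det| ≤
      ENNReal.ofReal (2000 * 6 ^ n * (a + 1) ^ 3 * Real.exp (-a) ^ 3) := by
    intro I J
    by_cases hI : Function.Injective I
    swap
    · obtain ⟨b, c, h1, h2⟩ := Function.not_injective_iff.mp hI
      have : ∀ x, ((hess w x).submatrix I J).det = 0 := fun x =>
        det_zero_of_row_eq h2 (by ext d; simp [h1])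
      simp [this]
    choose p hp h using fun j => approx2 (2 * a) (hw.gr j)
    have h := fun b => h (J b) (eps (2 * a)) (I b) (abs_of_pos (eps_pos _)).le
    have h1 := minor_le hI (F := fun b x => p (J b) x + eps (2 * a) * x (I b) ^ (2 * a + 2))
      (fun b => (pol_sm (hp _)).add (contDiff_const.mul ((sm_coord _).pow _))) hS hS3
      (b := 3 * Real.exp (-a)) (by positivity) (fun x hx b => by
        have := (h b x (hS3 x hx)).1.d
        linarith [abs_sub_abs_le_abs_sub (p (J b) x + eps (2 * a) * x (I b) ^ (2 * a + 2))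
          (pd (J b) w x), abs_sub_comm (p (J b) x + eps (2 * a) * x (I b) ^ (2 * a + 2))
          (pd (J b) w x), ha x hx (J b)]) (2 * a + 1) fun c b =>
      ⟨_, pol_smul (eps (2 * a))⁻¹ (pol_sub (pol_const (c b) _) (hp (J b))), fun x hx => by
        rw [← hx b, add_sub_cancel_left, inv_mul_cancel_left₀ (eps_pos _).ne']⟩
    refine (lint_add_le hS hS3 (c := 192 * (1 / 16) ^ (2 * a + 1)) (by positivity) (by positivity)
      (fun x hx => ?_) h1).trans (ENNReal.ofReal_le_ofReal ?_)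
    · have q := fun b c => (h b x (hS3 x hx)).2 (I c)
      have := (((((((q 0 0).mul (q 1 1)).mul (q 2 2)).sub (((q 0 0).mul (q 1 2)).mul (q 2 1))).sub
        (((q 0 1).mul (q 1 0)).mul (q 2 2))).add (((q 0 1).mul (q 1 2)).mul (q 2 0))).add
        (((q 0 2).mul (q 1 0)).mul (q 2 1))).sub (((q 0 2).mul (q 1 1)).mul (q 2 0))
      rw [← det_transpose, det_fin_three, det_fin_three]
      exact this.le.trans (le_of_eq (by norm_num))
    · push_cast
      have h6 : (0 : ℝ) < 6 ^ n := by positivity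
      have h7 : (1 : ℝ) ≤ (a + 1) ^ 3 := one_le_pow₀ (by simp)
      have h8 : 0 < Real.exp (-a) ^ 3 := by positivity
      have h9 : (1 / 16 : ℝ) ^ (2 * a + 1) ≤ (a + 1) ^ 3 * Real.exp (-a) ^ 3 := by nlinarith
      have h10 := mul_le_mul_of_nonneg_left h9 h6.le
      nlinarith [mul_pos h6 h8]
  have hm : ∀ I J : Fin 3 → Fin n, Measurable fun x => |((hess w x).submatrix I J).det| :=
    fun I J => ((cont_hess hw.sm).matrix_submatrix I J).matrix_det.abs.measurable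
  refine (lint_sum_le (fun I => Finset.measurable_sum _ fun J _ => hm I J)
    (fun I x => sum_nonneg fun _ _ => abs_nonneg _) fun I =>
      lint_sum_le (hm I) (fun _ _ => abs_nonneg _) (key I)).trans (le_of_eq ?_)
  congr 1
  simp only [Fintype.card_fun, Fintype.card_fin]
  push_cast
  ring

/-- numerator of a principal minor of order two of the differential of the Gauss map -/
def P2 (g : Fin n → ℝ) (B : Matrix (Fin n) (Fin n) ℝ) (r : ℝ) (i j : Fin n) : ℝ :=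
  r * (B i i * B j j - B i j * B j i) - B i i * g j * (B *ᵥ g) j - B j j * g i * (B *ᵥ g) i +
    B i j * g i * (B *ᵥ g) j + B j i * g j * (B *ᵥ g) i

lemma sum_P2 {H : Matrix (Fin n) (Fin n) ℝ} (h : ∀ i j, H i j = H j i) (ht : ∑ i, H i i = 0)
    (g : Fin n → ℝ) (r : ℝ) : ∑ i, ∑ j, P2 g H r i j = 2 * nq (H *ᵥ g) - fro H * r := by
  have e1 : ∑ i, ∑ j, H j i * g j * (H *ᵥ g) i = nq (H *ᵥ g) := sum_congr rfl fun i _ => by
    rw [← sum_mul, sq]
    congr 1
    exact sum_congr rfl fun j _ => by rw [h j i]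
  have e2 : ∑ i, ∑ j, H i j * g i * (H *ᵥ g) j = nq (H *ᵥ g) := by rw [sum_comm, e1]
  have e3 : ∑ i, ∑ j, H i j * H j i = fro H :=
    sum_congr rfl fun i _ => sum_congr rfl fun j _ => by rw [h j i, sq]
  have e4 : ∑ i, ∑ j, H i i * g j * (H *ᵥ g) j = 0 := by
    simp_rw [mul_assoc, ← mul_sum, ← sum_mul, ht, zero_mul]
  have e5 : ∑ i, ∑ j, H j j * g i * (H *ᵥ g) i = 0 := by rw [sum_comm, e4]
  have e6 : ∑ i, ∑ j, H i i * H j j = 0 := by simp_rw [← mul_sum, ← sum_mul, ht, zero_mul]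
  simp only [P2, sum_add_distrib, sum_sub_distrib, ← mul_sum]
  rw [e1, e2, e3, e4, e5]
  simp only [mul_sum] at e6 ⊢
  simp only [← mul_sum] at e6 ⊢
  rw [e6]
  ring

lemma P2_ap {δ K r r' : ℝ} {g g' : Fin n → ℝ} {B B' : Matrix (Fin n) (Fin n) ℝ}
    (hg : ∀ k, Ap δ 2 (g k) (g' k)) (hB : ∀ k l, Ap δ 2 (B k l) (B' k l)) (hr : Ap δ K r r')
    (i j : Fin n) : Ap δ (32 * K + 512 * n) (P2 g B r i j) (P2 g' B' r' i j) := by
  have hs : ∀ k, Ap δ (n * (2 * 2 * 2)) ((B *ᵥ g) k) ((B' *ᵥ g') k) := fun k =>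
    Ap.sum fun l => (hB k l).mul (hg l)
  have := ((((hr.mul (((hB i i).mul (hB j j)).sub ((hB i j).mul (hB j i)))).sub
    (((hB i i).mul (hg j)).mul (hs j))).sub (((hB j j).mul (hg i)).mul (hs i))).add
    (((hB i j).mul (hg i)).mul (hs j))).add (((hB j i).mul (hg j)).mul (hs i))
  rwa [show 2 * K * (2 * 2 * 2 + 2 * 2 * 2) + 2 * (2 * 2 * 2) * (n * (2 * 2 * 2)) +
    2 * (2 * 2 * 2) * (n * (2 * 2 * 2)) + 2 * (2 * 2 * 2) * (n * (2 * 2 * 2)) +
    2 * (2 * 2 * 2) * (n * (2 * 2 * 2)) = 32 * K + 512 * (n : ℝ) by ring] at this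

lemma gauss_minor {f : Fin n → (Fin n → ℝ) → ℝ} (hf : ∀ k, Sm (f k)) {c : ℝ} (hc : 0 < c)
    (i : Fin 2 → Fin n) :
    (∀ a, Sm fun x => f (i a) x * (√(nq (fun k => f k x) + c))⁻¹) ∧ ∀ x,
    (Matrix.of fun a a' => pd (i a') (fun x => f (i a) x * (√(nq (fun k => f k x) + c))⁻¹) x).det =
      P2 (fun k => f k x) (Matrix.of fun k l => pd k (f l) x) (nq (fun k => f k x) + c) (i 0) (i 1) *
        ((nq (fun k => f k x) + c)⁻¹ * (nq (fun k => f k x) + c)⁻¹) := by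
  have h0 : ∀ x, 0 < nq (fun k => f k x) + c := fun x => by linarith [nq_nonneg fun k => f k x]
  have h1 : Sm fun x => nq (fun k => f k x) + c :=
    (ContDiff.sum fun l _ => (hf l).pow 2).add contDiff_const
  have h2 : Sm fun x => (√(nq (fun k => f k x) + c))⁻¹ :=
    (h1.sqrt fun x => (h0 x).ne').inv fun x => (Real.sqrt_pos.mpr (h0 x)).ne'
  refine ⟨fun a => (hf _).mul h2, fun x => ?_⟩
  have h3 : ∀ l, pd l (fun x => nq (fun k => f k x) + c) x =
      2 * ((Matrix.of fun k l => pd k (f l) x) *ᵥ fun k => f k x) l := fun l => by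
    unfold nq
    rw [pd_add (ContDiff.sum fun l _ => (hf l).pow 2) contDiff_const, pd_const, add_zero,
      pd_sum _ fun l _ => (hf l).pow 2]
    simp_rw [sq, pd_mul (hf _) (hf _)]
    simp only [mulVec, dotProduct, of_apply, mul_sum]
    exact sum_congr rfl fun k _ => by ring
  have h4 := fun l => pd_comp h1 ((Real.hasDerivAt_sqrt (h0 x).ne').inv
    (Real.sqrt_pos.mpr (h0 x)).ne') l
  simp only [Pi.inv_apply, h3] at h4
  have h5 := Real.sq_sqrt (h0 x).le
  have h6 := (Real.sqrt_pos.mpr (h0 x)).ne'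
  simp only [det_fin_two, of_apply, pd_mul (hf _) h2, h4, P2]
  generalize √(nq (fun k => f k x) + c) = s at h5 h6 ⊢
  rw [← h5]
  field_simp
  ring

lemma P2_le (hn : 3 ≤ n) {w : (Fin n → ℝ) → ℝ} (hw : Har w 0 (3 * R0 n) 1) {S : Set (Fin n → ℝ)}
    (hS : MeasurableSet S) (hS3 : ∀ x ∈ S, ‖x‖ ≤ 3) {A : ℝ} (hA : 1 ≤ A)
    (ha : ∀ x ∈ S, Real.exp (-(2 * A)) ≤ nq (gr w x)) (i j : Fin n) :
    ∫⁻ x in S, ENNReal.ofReal (|P2 (gr w x) (hess w x) (nq (gr w x)) i j| / nq (gr w x) ^ 2) ≤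
      ENNReal.ofReal (10 ^ 8 * n ^ 3 * 6 ^ n * A ^ 2) := by
  classical
  by_cases hij : i = j
  · have : ∀ x, P2 (gr w x) (hess w x) (nq (gr w x)) i j = 0 := fun x => by
      rw [hij, P2]; ring
    simp [this]
  have hn' : (3 : ℝ) ≤ n := by exact_mod_cast hn
  obtain ⟨D, hD1, hD2⟩ : ∃ D : ℕ, 4 * A + 9 * n ≤ D ∧ D ≤ 4 * A + 9 * n + 1 :=
    ⟨⌈4 * A + 9 * n⌉₊, Nat.le_ceil _, (Nat.ceil_lt_add_one (by positivity)).le⟩
  obtain ⟨δ, hδ⟩ : ∃ δ : ℝ, δ = (1 / 16) ^ (D + 1) := ⟨_, rfl⟩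
  have hδ0 : 0 < δ := by rw [hδ]; positivity
  obtain ⟨Y, hY⟩ : ∃ Y : ℝ, Y = Real.exp (2 * A) := ⟨_, rfl⟩
  have hY1 : 1 ≤ Y := hY ▸ Real.one_le_exp (by linarith)
  have hδ1 : δ * (Y ^ 4 * (18 * n)) ≤ 1 := by
    calc _ ≤ Real.exp (-(2 * (D + 1 : ℕ))) * (Y ^ 4 * Real.exp (18 * n)) := by
          gcongr
          exacts [hδ ▸ del_exp _, by linarith [Real.add_one_le_exp (18 * n : ℝ)]]
      _ ≤ _ := by
          rw [hY, ← Real.exp_nat_mul, ← Real.exp_add, ← Real.exp_add, Real.exp_le_one_iff]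
          push_cast
          linarith
  have hY4 : Y ≤ Y ^ 4 := le_self_pow₀ hY1 (by norm_num)
  have hi : Function.Injective ![i, j] := by
    intro a b
    fin_cases a <;> fin_cases b <;> simp [hij, Ne.symm hij]
  choose p hp h using fun k => approx2 D (hw.gr k)
  let e : Fin n → ℝ := fun k => if k = i ∨ k = j then eps D else 0
  let f : Fin n → (Fin n → ℝ) → ℝ := fun k x => p k x + e k * x k ^ (D + 2)
  have hf : ∀ k, Sm (f k) := fun k => (pol_sm (hp _)).add (contDiff_const.mul ((sm_coord _).pow _))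
  have h := fun k => h k (e k) k (by
    simp only [e]; split_ifs
    exacts [(abs_of_pos (eps_pos _)).le, by simpa using (eps_pos _).le])
  rw [← hδ] at h
  obtain ⟨g1, g2⟩ := gauss_minor hf hδ0 ![i, j]
  have h0 : ∀ x, 0 < nq (fun k => f k x) + δ := fun x => by linarith [nq_nonneg fun k => f k x]
  have h1 := minor_le hi g1 hS hS3 zero_le_one (fun x _ a => by
    rw [abs_mul, abs_inv, abs_of_nonneg (Real.sqrt_nonneg _), ← div_eq_mul_inv,
      div_le_one (Real.sqrt_pos.mpr (h0 x))]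
    exact Real.abs_le_sqrt ((sq_le_nq (fun k => f k x) _).trans (by linarith))) (2 * D + 3) ?_
  · simp_rw [g2] at h1
    refine (lint_add_le hS hS3 (c := 10 ^ 6 * n ^ 2) (by positivity) (by positivity)
      (fun x hx => ?_) h1).trans (ENNReal.ofReal_le_ofReal ?_)
    · have q := fun k => h k x (hS3 x hx)
      have q1 : Ap δ (9 * n) (nq (gr w x)) (nq (fun k => f k x) + δ) := by
        have := (Ap.sum fun k => (q k).1.mul (q k).1).add (K := n * (2 * 2 * 2)) (L := n) (c := 0)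
          (d := δ) ⟨by simp, by rw [abs_of_pos hδ0]; nlinarith [mul_pos hδ0 (by positivity : 0 < Y ^ 4)],
            by rw [zero_sub, abs_neg, abs_of_pos hδ0]; nlinarith⟩
        simp only [← sq, add_zero] at this
        rwa [show (n : ℝ) * (2 ^ 2 * 2) + n = 9 * n by ring] at this
      have q2 : Y⁻¹ ≤ nq (gr w x) := by rw [hY, ← Real.exp_neg]; exact ha x hx
      have q3 : 9 * n * δ ≤ (2 * Y)⁻¹ := by
        rw [← one_div, le_div_iff₀ (by positivity)]
        refine le_trans ?_ hδ1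
        have := mul_le_mul_of_nonneg_left hY4 (by positivity : 0 ≤ 18 * n * δ)
        linarith
      have q4 : Y⁻¹ = 2 * (2 * Y)⁻¹ := by field_simp
      have q5 := q1.inv (X := 2 * Y) (by linarith) (by linarith)
        (by linarith [inv_pos.mpr (by positivity : 0 < 2 * Y)])
        (by linarith [(abs_le.mp q1.d).2])
      have q6 := ((P2_ap (g := gr w x) (g' := fun k => f k x) (B := hess w x)
        (B' := Matrix.of fun k l => pd k (f l) x) (fun k => (q k).1) (fun k l => (q l).2 k) q1 i j).mul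
        (q5.mul q5)).le
      rw [abs_mul, abs_of_nonneg (mul_self_nonneg (nq (gr w x))⁻¹), ← sq, inv_pow, ← div_eq_mul_inv] at q6
      refine q6.trans (add_le_add le_rfl ?_)
      calc _ = 230400 * n ^ 2 * (δ * (Y ^ 4 * (18 * n))) := by ring
        _ ≤ 10 ^ 6 * n ^ 2 * 1 := by gcongr; norm_num
        _ = _ := mul_one _
    · push_cast
      have h2 : (2 * D + 3 + 1 : ℝ) ≤ 24 * n * A := by nlinarith
      have h3 : (2 * D + 3 + 1 : ℝ) ^ 2 ≤ (24 * n * A) ^ 2 := by gcongr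
      have h4 : (1 : ℝ) ≤ A ^ 2 := one_le_pow₀ hA
      have h5 : (n : ℝ) ^ 2 * A ^ 2 ≤ n ^ 3 * A ^ 2 := by gcongr <;> linarith
      have h6 : (n : ℝ) ^ 2 ≤ n ^ 2 * A ^ 2 := le_mul_of_one_le_right (by positivity) h4
      rw [← add_mul, mul_right_comm _ (6 ^ n : ℝ)]
      gcongr
      nlinarith
  · intro c a
    let rest : (Fin n → ℝ) → ℝ := fun x => ∑ k ∈ (univ.erase i).erase j, p k x * p k x + δ
    have hr : rest ∈ Pol n (2 * D + 3) := pol_add (pol_sum _ fun k _ =>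
      pol_le (by omega) (pol_mul (hp k) (hp k))) (pol_const _ _)
    have hr0 : ∀ x, 0 < rest x := fun x =>
      add_pos_of_nonneg_of_pos (sum_nonneg fun _ _ => mul_self_nonneg _) hδ0
    have hr1 : ∀ x, nq (fun k => f k x) + δ = f i x ^ 2 + f j x ^ 2 + rest x := fun x => by
      rw [nq, ← add_sum_erase _ _ (mem_univ i),
        ← add_sum_erase _ _ (mem_erase.mpr ⟨Ne.symm hij, mem_univ j⟩),
        sum_congr rfl fun k hk => show f k x ^ 2 = p k x * p k x by
          simp [f, e, ne_of_mem_erase hk, ne_of_mem_erase (mem_of_mem_erase hk), sq]]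
      simp only [rest]
      ring
    have he : e (![i, j] a) = eps D := by fin_cases a <;> simp [e]
    refine ⟨_, pol_smul (eps D ^ 2)⁻¹ (pol_sub (pol_sub
      (pol_smul (c a ^ 2 / (1 - c 0 ^ 2 - c 1 ^ 2)) hr)
      (pol_le (by omega) (pol_mul (hp (![i, j] a)) (hp (![i, j] a)))))
      (pol_smul (2 * eps D) (pol_le (by omega) (pol_mul (hp (![i, j] a))
        (pol_coord_pow (![i, j] a) (D + 2)))))), fun x hx => ?_⟩
    have h2 : ∀ b, f (![i, j] b) x ^ 2 = c b ^ 2 * (nq (fun k => f k x) + δ) := fun b => by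
      rw [← hx b, mul_pow, inv_pow, Real.sq_sqrt (h0 x).le, inv_mul_cancel_right₀ (h0 x).ne']
    have h3 : (1 - c 0 ^ 2 - c 1 ^ 2) * (nq (fun k => f k x) + δ) = rest x := by
      have a0 : f i x ^ 2 = _ := h2 0
      have a1 : f j x ^ 2 = _ := h2 1
      linarith [hr1 x]
    have h4 : 1 - c 0 ^ 2 - c 1 ^ 2 ≠ 0 := fun h => by
      rw [h, zero_mul] at h3
      exact (hr0 x).ne h3
    rw [← h3, ← mul_assoc (c a ^ 2 / _), div_mul_cancel₀ _ h4, ← h2 a]
    simp only [f, he]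
    have := (eps_pos D).ne'
    field_simp
    ring

/-- negative of the Laplacian of the logarithm of the norm of the gradient -/
def ng (w : (Fin n → ℝ) → ℝ) (x : Fin n → ℝ) : ℝ :=
  (2 * nq (hess w x *ᵥ gr w x) - fro (hess w x) * nq (gr w x)) / nq (gr w x) ^ 2

lemma cont_gr {w : (Fin n → ℝ) → ℝ} (hw : Sm w) : Continuous (gr w) :=
  continuous_pi fun j => (hw.pd j).continuous

lemma nondeep (hn : 3 ≤ n) {w : (Fin n → ℝ) → ℝ} (hw : Har w 0 (3 * R0 n) 1)
    {S : Set (Fin n → ℝ)} (hS : MeasurableSet S) (hS3 : ∀ x ∈ S, ‖x‖ ≤ 3) {A : ℝ} (hA : 1 ≤ A)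
    (ha : ∀ x ∈ S, Real.exp (-(2 * A)) ≤ nq (gr w x)) :
    ∫⁻ x in S, ENNReal.ofReal (ng w x) ≤
      ENNReal.ofReal (n * (n * (10 ^ 8 * n ^ 3 * 6 ^ n * A ^ 2))) := by
  have hm : ∀ i j, Measurable fun x =>
      |P2 (gr w x) (hess w x) (nq (gr w x)) i j| / nq (gr w x) ^ 2 := fun i j => by
    have h1 := cont_gr hw.sm
    have h2 := cont_hess hw.sm
    have h3 := (sm_nq_gr hw.sm).continuous
    have h4 := h2.matrix_mulVec h1
    refine (Continuous.measurable ?_).div (h3.pow 2).measurable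
    unfold P2
    fun_prop
  have := lint_sum_le (fun i => Finset.measurable_sum _ fun j _ => hm i j)
    (fun i x => sum_nonneg fun _ _ => by positivity) fun i =>
      lint_sum_le (hm i) (fun _ _ => by positivity) (P2_le hn hw hS hS3 hA ha i)
  rw [Fintype.card_fin] at this
  refine (setLIntegral_mono' hS fun x hx => ENNReal.ofReal_le_ofReal ?_).trans this
  rw [ng, ← sum_P2 (H := hess w x) (pd_comm hw.sm · · x) (hw.har x (by simpa using (hS3 x hx).trans (by
    linarith [R0_pos n])))]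
  simp_rw [← sum_div]
  gcongr with i _ j _
  exact le_abs_self _

lemma shell (hn : 3 ≤ n) : ∃ C : ℝ, 0 ≤ C ∧ ∀ (w : (Fin n → ℝ) → ℝ) (y : Fin n → ℝ) (i : Fin n)
    (L : ℝ) (a : ℕ), Har w 0 (3 * R0 n) 1 → ‖y‖ ≤ 1 → 1 ≤ L → Real.exp (-L) ≤ |pd i w y| →
    ∫⁻ x in {x | ‖x‖ ≤ 3 ∧ Real.exp (-(a + 1)) ^ 2 ≤ nq (gr w x) ∧
      nq (gr w x) ≤ Real.exp (-a) ^ 2}, ENNReal.ofReal (ng w x) ≤
      ENNReal.ofReal (C * ((a + 1) ^ 3 * Real.exp (-a / (12 * L)))) := by
  obtain ⟨K, hK, hv⟩ := vol_le n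
  refine ⟨2 * n ^ 2 * (K + Real.exp 1 ^ 3 * (n ^ 6 * (2000 * 6 ^ n))), by positivity,
    fun w y i L a hw hy hL h0 => ?_⟩
  set S := {x | ‖x‖ ≤ 3 ∧ Real.exp (-(a + 1)) ^ 2 ≤ nq (gr w x) ∧ nq (gr w x) ≤ Real.exp (-a) ^ 2}
  have hc := (sm_nq_gr hw.sm).continuous
  have hS : MeasurableSet S := ((isClosed_le continuous_norm continuous_const).inter
    ((isClosed_le continuous_const hc).inter (isClosed_le hc continuous_const))).measurableSet
  have ha : ∀ x ∈ S, ∀ j, |pd j w x| ≤ Real.exp (-a) := fun x hx j =>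
    abs_le_of_sq_le_sq ((sq_le_nq (gr w x) j).trans hx.2.2) (by positivity)
  have h1 := T3_le hw hS (fun x hx => hx.1) a ha
  have h2 : volume S ≤ ENNReal.ofReal (K * Real.exp (-a / (4 * L))) :=
    le_trans (measure_mono fun x hx => And.intro (mem_closedBall_iff_norm.mpr
      ((norm_sub_le _ _).trans (by linarith [hx.1]))) (ha x hx i))
      (hv (pd i w) y L a ((hw.gr i).mono (by simp; linarith [R0_pos n])) hL h0)
  obtain ⟨t, ht⟩ : ∃ t, t = Real.exp (a / (12 * L)) := ⟨_, rfl⟩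
  have ht0 : 0 < t := ht ▸ Real.exp_pos _
  have hm : Measurable fun x => ENNReal.ofReal (T3 (hess w x)) :=
    (continuous_finsetSum _ fun I _ => continuous_finsetSum _ fun J _ =>
      ((cont_hess hw.sm).matrix_submatrix I J).matrix_det.abs).measurable.ennreal_ofReal
  calc _ ≤ ∫⁻ x in S, ENNReal.ofReal (2 * n ^ 2 * t ^ 2) +
          ENNReal.ofReal (2 * n ^ 2 / (t * Real.exp (-(a + 1)) ^ 3)) *
            ENNReal.ofReal (T3 (hess w x)) := by
        refine setLIntegral_mono' hS fun x hx => ?_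
        rw [← ENNReal.ofReal_mul (by positivity)]
        refine (ENNReal.ofReal_le_ofReal ?_).trans ENNReal.ofReal_add_le
        refine (eig hn (H := hess w x) (pd_comm hw.sm · · x) (hw.har x (by
          simpa using hx.1.trans (by linarith [R0_pos n]))) _ (Real.exp_pos _) ht0 hx.2.1).trans
          (le_of_eq (by ring))
    _ ≤ ENNReal.ofReal (2 * n ^ 2 * t ^ 2) * ENNReal.ofReal (K * Real.exp (-a / (4 * L))) +
          ENNReal.ofReal (2 * n ^ 2 / (t * Real.exp (-(a + 1)) ^ 3)) *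
            ENNReal.ofReal (n ^ 6 * (2000 * 6 ^ n * (a + 1) ^ 3 * Real.exp (-a) ^ 3)) := by
        rw [lintegral_add_left measurable_const, setLIntegral_const, lintegral_const_mul _ hm]
        gcongr
    _ ≤ _ := by
        rw [← ENNReal.ofReal_mul (by positivity), ← ENNReal.ofReal_mul (by positivity),
          ← ENNReal.ofReal_add (by positivity) (by positivity)]
        refine ENNReal.ofReal_le_ofReal ?_
        have e1 : Real.exp (-a / (12 * L)) = t⁻¹ := by rw [ht, neg_div, Real.exp_neg]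
        have e2 : Real.exp (-a / (4 * L)) = t⁻¹ ^ 3 := by
          rw [← e1, ← Real.exp_nat_mul]; congr 1; push_cast; field_simp; ring
        have e3 : Real.exp (-a) = Real.exp 1 * Real.exp (-(a + 1)) := by
          rw [← Real.exp_add]; congr 1; ring
        have h7 : (1 : ℝ) ≤ (a + 1) ^ 3 := one_le_pow₀ (by simp)
        rw [e1, e2, e3]
        calc _ = 2 * n ^ 2 * (K * 1 + Real.exp 1 ^ 3 * (n ^ 6 * (2000 * 6 ^ n)) * (a + 1) ^ 3) *
              t⁻¹ := by field_simp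
          _ ≤ 2 * n ^ 2 * (K * (a + 1) ^ 3 +
              Real.exp 1 ^ 3 * (n ^ 6 * (2000 * 6 ^ n)) * (a + 1) ^ 3) * t⁻¹ := by gcongr
          _ = _ := by ring

lemma shell_sum {L : ℝ} (hL : 2 ≤ L) : ∃ (A : ℕ) (c q : ℝ), 1 ≤ A ∧ A ≤ 600 * (L * Real.log L) ∧
    0 ≤ c ∧ 0 ≤ q ∧ q < 1 ∧ c * (1 - q)⁻¹ ≤ 36 ∧
    ∀ k : ℕ, ((A + k : ℕ) + 1) ^ 3 * Real.exp (-(A + k : ℕ) / (12 * L)) ≤ c * q ^ k := by
  obtain ⟨b, hb⟩ : ∃ b, b = 24 * L := ⟨_, rfl⟩
  have hb1 : 48 ≤ b := by linarith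
  have hl : 0.69 ≤ Real.log L :=
    (Real.log_two_gt_d9.le.trans' (by norm_num)).trans (Real.log_le_log two_pos hL)
  have hlb : Real.log b ≤ 6 * Real.log L := by
    rw [show 6 * Real.log L = Real.log (L ^ 6) by rw [Real.log_pow]; norm_num]
    refine Real.log_le_log (by linarith) ?_
    have : (2 : ℝ) ^ 5 ≤ L ^ 5 := by gcongr
    nlinarith
  have hlb0 : 0 < Real.log b := Real.log_pos (by linarith)
  have h1 : Real.exp (-(1 / b)) ≤ b / (b + 1) := by
    rw [Real.exp_neg, inv_le_comm₀ (by positivity) (by positivity), inv_div]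
    refine le_trans (le_of_eq ?_) (Real.add_one_le_exp _)
    field_simp
    ring
  have h2 : b / (b + 1) < 1 := (div_lt_one (by positivity)).mpr (by linarith)
  refine ⟨⌈4 * b * Real.log b⌉₊, 18 / b, Real.exp (-(1 / b)), Nat.one_le_ceil_iff.mpr (by positivity),
    (Nat.ceil_lt_add_one (by positivity)).le.trans (by nlinarith), by positivity, by positivity,
    h1.trans_lt h2, ?_, fun k => ?_⟩
  · have : (1 - Real.exp (-(1 / b)))⁻¹ ≤ (1 - b / (b + 1))⁻¹ := by gcongr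
    rw [show (1 - b / (b + 1))⁻¹ = b + 1 by field_simp; ring] at this
    calc _ ≤ 18 / b * (b + 1) := by gcongr
      _ ≤ _ := by rw [div_mul_eq_mul_div, div_le_iff₀ (by positivity)]; linarith
  · have h3 := Nat.le_ceil (4 * b * Real.log b)
    generalize ⌈4 * b * Real.log b⌉₊ = A at h3 ⊢
    have h4 := Real.pow_div_factorial_le_exp ((((A + k : ℕ) : ℝ) + 1) / b) (by positivity) 3
    rw [div_pow, div_div, div_le_iff₀ (by positivity)] at h4
    have h5 : Real.exp (1 / b) ≤ 3 :=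
      (Real.exp_le_exp.mpr (by rw [div_le_one (by positivity)]; linarith)).trans
        (Real.exp_one_lt_d9.le.trans (by norm_num))
    have h6 : Real.exp (-(A / b)) ≤ b⁻¹ ^ 4 := by
      rw [← Real.exp_log (x := b⁻¹) (by positivity), ← Real.exp_nat_mul, Real.log_inv,
        Real.exp_le_exp]
      have : 4 * Real.log b ≤ A / b := by rw [le_div_iff₀ (by positivity)]; linarith
      push_cast
      linarith
    calc _ ≤ Real.exp ((((A + k : ℕ) : ℝ) + 1) / b) * (b ^ 3 * (Nat.factorial 3 : ℕ)) *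
          Real.exp (-(A + k : ℕ) / (12 * L)) := by gcongr
      _ = 6 * b ^ 3 * Real.exp (1 / b) * Real.exp (-(A / b)) * Real.exp (-(1 / b)) ^ k := by
          rw [← Real.exp_nat_mul, mul_right_comm, ← Real.exp_add, mul_assoc (6 * b ^ 3),
            ← Real.exp_add, mul_assoc (6 * b ^ 3), ← Real.exp_add, mul_comm]
          congr 1
          · norm_num [Nat.factorial, mul_comm]
          · congr 1
            rw [show 12 * L = b / 2 by linarith]
            push_cast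
            field_simp
            ring
      _ ≤ 6 * b ^ 3 * 3 * b⁻¹ ^ 4 * Real.exp (-(1 / b)) ^ k := by gcongr
      _ = _ := by field_simp; norm_num

lemma ng_total (hn : 3 ≤ n) : ∃ C : ℝ, 0 ≤ C ∧ ∀ (w : (Fin n → ℝ) → ℝ) (y : Fin n → ℝ) (i : Fin n)
    (L : ℝ), Har w 0 (3 * R0 n) 1 → ‖y‖ ≤ 1 → 2 ≤ L → Real.exp (-L) ≤ |pd i w y| →
    ∫⁻ x in closedBall 0 3, ENNReal.ofReal (ng w x) ≤
      ENNReal.ofReal (C * (L * Real.log L) ^ 2) := by
  obtain ⟨C, hC, h⟩ := shell hn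
  refine ⟨n * (n * (10 ^ 8 * n ^ 3 * 6 ^ n * 600 ^ 2)) + C * 36, by positivity,
    fun w y i L hw hy hL h0 => ?_⟩
  obtain ⟨A, c, q, hA1, hA2, hc, hq0, hq1, hcq, hk⟩ := shell_sum hL
  have hcn := (sm_nq_gr hw.sm).continuous
  let S0 := {x | nq (gr w x) = 0}
  let S1 := {x | ‖x‖ ≤ 3 ∧ Real.exp (-(2 * A)) ≤ nq (gr w x)}
  let S := fun a : ℕ => {x | ‖x‖ ≤ 3 ∧ Real.exp (-(a + 1)) ^ 2 ≤ nq (gr w x) ∧
    nq (gr w x) ≤ Real.exp (-a) ^ 2}
  have h1 : closedBall 0 3 ⊆ (S0 ∪ S1) ∪ ⋃ k, S (A + k) := fun x hx => by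
    rw [mem_closedBall_zero_iff] at hx
    rcases (nq_nonneg (gr w x)).eq_or_lt with h2 | h2
    · exact Or.inl (Or.inl h2.symm)
    rcases le_total (Real.exp (-(2 * A))) (nq (gr w x)) with h3 | h3
    · exact Or.inl (Or.inr ⟨hx, h3⟩)
    rw [← Real.log_le_iff_le_exp h2] at h3
    have h4 : (0 : ℝ) ≤ -Real.log (nq (gr w x)) / 2 - A := by linarith
    refine Or.inr (Set.mem_iUnion.mpr ⟨⌊-Real.log (nq (gr w x)) / 2 - A⌋₊, hx, ?_, ?_⟩)
    · rw [← Real.exp_nat_mul, ← Real.le_log_iff_exp_le h2]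
      push_cast
      linarith [Nat.lt_floor_add_one (-Real.log (nq (gr w x)) / 2 - A)]
    · rw [← Real.exp_nat_mul, ← Real.log_le_iff_le_exp h2]
      push_cast
      linarith [Nat.floor_le h4]
  have h2 : ∫⁻ x in S0, ENNReal.ofReal (ng w x) = 0 :=
    setLIntegral_eq_zero (isClosed_eq hcn continuous_const).measurableSet fun x hx => by
      have : nq (gr w x) = 0 := hx
      simp [ng, this]
  have h3 := nondeep hn hw (S := S1) ((isClosed_le continuous_norm continuous_const).inter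
    (isClosed_le continuous_const hcn)).measurableSet (fun x hx => hx.1) (A := A)
    (by exact_mod_cast hA1) fun x hx => hx.2
  have h4 : ∫⁻ x in ⋃ k, S (A + k), ENNReal.ofReal (ng w x) ≤ ENNReal.ofReal (C * 36) := by
    refine (lintegral_iUnion_le _ _).trans ((ENNReal.tsum_le_tsum fun k =>
      (h w y i L (A + k) hw hy (by linarith) h0).trans (ENNReal.ofReal_le_ofReal
        (mul_le_mul_of_nonneg_left (hk k) hC))).trans ?_)
    rw [← ENNReal.ofReal_tsum_of_nonneg (fun k => by positivity)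
      (((summable_geometric_of_lt_one hq0 hq1).mul_left c).mul_left C), tsum_mul_left,
      tsum_mul_left, tsum_geometric_of_lt_one hq0 hq1]
    gcongr
  refine (lintegral_mono_set h1).trans ((lintegral_union_le _ _ _).trans
    ((add_le_add ((lintegral_union_le _ _ _).trans (add_le_add h2.le h3)) h4).trans ?_))
  rw [zero_add, ← ENNReal.ofReal_add (by positivity) (by positivity)]
  refine ENNReal.ofReal_le_ofReal ?_
  have hl : 0.69 ≤ Real.log L :=
    (Real.log_two_gt_d9.le.trans' (by norm_num)).trans (Real.log_le_log two_pos hL)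
  have h5 : 1 ≤ (L * Real.log L) ^ 2 := one_le_pow₀ (by nlinarith)
  calc _ ≤ n * (n * (10 ^ 8 * n ^ 3 * 6 ^ n * (600 * (L * Real.log L)) ^ 2)) +
        C * 36 * (L * Real.log L) ^ 2 := by
        exact add_le_add (by gcongr) (le_mul_of_one_le_right (by positivity) h5)
    _ = _ := by ring

end

end Pool.Agent.LinCrit
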