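import Pool.Agent.Lib.MP_8465a2_an.Cover

/-!
Transfer from the Euclidean unit ball to coordinates.
-/

namespace Pool.Agent.LinCrit

open Finset Matrix MeasureTheory Pool.Agent.Alesker Topology Filter Metric
open scoped ContDiff ENNReal

noncomputable section

variable {n : ℕ}

lemma pd_aff {v : (Fin n → ℝ) → ℝ} (hv : Sm v) (a b : ℝ) (l : Fin n) :
    pd l (fun z => a * v z + b) = fun z => a * pd l v z + 0 := funext fun z => by
  rw [pd_add (contDiff_const.mul hv) contDiff_const, pd_const, pd_const_mul hv]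

lemma lap_aff {v : (Fin n → ℝ) → ℝ} (hv : Sm v) (a b : ℝ) (x : Fin n → ℝ) :
    lap (fun z => a * v z + b) x = a * lap v x := by
  unfold lap
  rw [mul_sum]
  exact sum_congr rfl fun l _ => by rw [pd_aff hv, pd_aff (hv.pd l)]; simp

lemma lap_sum {f : Fin n → (Fin n → ℝ) → ℝ} (hf : ∀ j, Sm (f j)) (x : Fin n → ℝ) :
    lap (fun z => ∑ j, f j z) x = ∑ j, lap (f j) x := by
  unfold lap
  rw [sum_comm]
  refine sum_congr rfl fun l _ => ?_
  rw [show pd l (fun z => ∑ j, f j z) = fun z => ∑ j, pd l (f j) z from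
    funext (pd_sum _ (fun j _ => hf j) l), pd_sum _ fun j _ => (hf j).pd l]

lemma lap_comp {f : EuclideanSpace ℝ (Fin n) → ℝ} (hf : ContDiff ℝ 2 f)
    (T : (Fin n → ℝ) →L[ℝ] EuclideanSpace ℝ (Fin n)) {η : ℝ}
    (hT : ∀ l, T (Pi.single l 1) = η • EuclideanSpace.single l 1) (z : Fin n → ℝ) :
    lap (f ∘ T) z =
      η ^ 2 * ∑ i, iteratedFDeriv ℝ 2 f (T z) fun _ => EuclideanSpace.single i (1 : ℝ) := by
  unfold lap
  rw [mul_sum]
  refine sum_congr rfl fun l _ => ?_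
  have hd : DifferentiableAt ℝ (fderiv ℝ (f ∘ T)) z :=
    (((hf.comp T.contDiff).fderiv_right (m := 1) (by norm_num)).differentiable (by simp)) z
  have h1 : pd l (pd l (f ∘ T)) z = iteratedFDeriv ℝ 2 (f ∘ T) z fun _ => Pi.single l 1 := by
    rw [iteratedFDeriv_two_apply]
    unfold pd
    rw [fderiv_clm_apply hd (differentiableAt_const _)]
    simp
  rw [h1, T.iteratedFDeriv_comp_right hf z le_rfl,
    ContinuousMultilinearMap.compContinuousLinearMap_apply]
  simp_rw [hT]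
  rw [ContinuousMultilinearMap.map_smul_univ]
  simp

lemma transfer (n : ℕ) : ∃ (η : ℝ) (T : (Fin n → ℝ) →L[ℝ] EuclideanSpace ℝ (Fin n)),
    0 < η ∧ η ≤ 1 ∧ Function.Surjective T ∧ IsCompact (T ⁻¹' closedBall 0 (1 / 2)) ∧
    ∀ (u : EuclideanSpace ℝ (Fin n) → ℝ) (K : ℝ), ContDiffOn ℝ 2 u (ball 0 1) →
      (∀ x ∈ ball (0 : EuclideanSpace ℝ (Fin n)) 1,
        ∑ i, iteratedFDeriv ℝ 2 u x (fun _ => EuclideanSpace.single i (1 : ℝ)) = 0) →
      0 < K → (∀ x ∈ ball (0 : EuclideanSpace ℝ (Fin n)) 1, ‖fderiv ℝ u x‖ ≤ K) →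
      ∃ v : (Fin n → ℝ) → ℝ, Sm v ∧ ∀ c ∈ T ⁻¹' closedBall 0 (1 / 2),
        Har (fun z => v z + -v c) c (3 * R0 n) 1 ∧ ∀ z, ‖z - c‖ ≤ 3 * R0 n → T z ∈ ball 0 1 ∧
          ∀ l, pd l v z = K⁻¹ * (η * fderiv ℝ u (T z) (EuclideanSpace.single l 1)) := by
  let T0 := (EuclideanSpace.equiv (Fin n) ℝ).symm
  have hR := R0_pos n
  obtain ⟨η, hη⟩ : ∃ η, η = 1 / (8 * (‖T0.toContinuousLinearMap‖ + 1) * (3 * R0 n + 2)) := ⟨_, rfl⟩
  have hn0 := norm_nonneg T0.toContinuousLinearMap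
  have hη0 : 0 < η := by rw [hη]; positivity
  let T := η • T0.toContinuousLinearMap
  have hT : ∀ l, T (Pi.single l 1) = η • EuclideanSpace.single l 1 := fun l => rfl
  have hT1 : ∀ h, ‖h‖ ≤ 3 * R0 n + 2 → ‖T h‖ ≤ 1 / 8 := fun h hh => by
    change ‖η • T0.toContinuousLinearMap h‖ ≤ _
    rw [norm_smul, Real.norm_of_nonneg hη0.le]
    calc _ ≤ η * ((‖T0.toContinuousLinearMap‖ + 1) * (3 * R0 n + 2)) := by
          gcongr
          exact (T0.toContinuousLinearMap.le_opNorm h).trans (by gcongr; linarith)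
      _ = _ := by rw [hη]; field_simp
  have hT2 : ∀ c ∈ T ⁻¹' closedBall 0 (1 / 2), ∀ z, ‖z - c‖ ≤ 3 * R0 n + 2 → ‖T z‖ < 3 / 4 :=
    fun c hc z hz => by
      have := norm_sub_norm_le (T z) (T c)
      rw [← map_sub] at this
      linarith [hT1 _ hz, mem_closedBall_zero_iff.mp hc]
  refine ⟨η, T, hη0, ?_, fun x => ⟨T0.symm (η⁻¹ • x), ?_⟩, ?_, fun u K hu h0 hK hb => ?_⟩
  · rw [hη, div_le_one (by positivity)]
    nlinarith
  · simp [T, smul_smul, hη0.ne']
  · exact (T0.toHomeomorph.trans (Homeomorph.smulOfNeZero η hη0.ne')).isCompact_preimage.mpr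
      (isCompact_closedBall _ _)
  let χ : ContDiffBump (0 : EuclideanSpace ℝ (Fin n)) := ⟨3 / 4, 7 / 8, by norm_num, by norm_num⟩
  have hf : ContDiff ℝ 2 fun x => χ x * u x := contDiff_iff_contDiffAt.mpr fun x => by
    by_cases hx : x ∈ ball (0 : EuclideanSpace ℝ (Fin n)) 1
    · exact χ.contDiff.contDiffAt.mul (hu.contDiffAt (isOpen_ball.mem_nhds hx))
    · refine (contDiffAt_const (c := 0)).congr_of_eventuallyEq ?_
      filter_upwards [(isOpen_lt continuous_const continuous_norm).mem_nhds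
        (show 7 / 8 < ‖x‖ by simp at hx; linarith)] with y hy
      rw [χ.zero_of_le_dist (by simpa using hy.le), zero_mul]
  have he : ∀ x, ‖x‖ < 3 / 4 → (fun x => χ x * u x) =ᶠ[𝓝 x] u := fun x hx => by
    filter_upwards [isOpen_ball.mem_nhds (mem_ball_zero_iff.mpr hx)] with y hy
    rw [χ.one_of_mem_closedBall (ball_subset_closedBall hy), one_mul]
  have hl : ∀ z, ‖T z‖ < 3 / 4 → lap ((fun x => χ x * u x) ∘ T) z = 0 := fun z hz => by
    rw [lap_comp hf T hT, ((he _ hz).iteratedFDeriv ℝ 2).eq_of_nhds,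
      h0 _ (mem_ball_zero_iff.mpr (by linarith)), mul_zero]
  obtain ⟨v, hv, h1⟩ := smoothing (hf.comp T.contDiff)
  refine ⟨fun z => K⁻¹ * v z, contDiff_const.mul hv, fun c hc => ?_⟩
  have h2 : ∀ z, ‖z - c‖ ≤ 3 * R0 n → v =ᶠ[𝓝 z] (fun x => χ x * u x) ∘ T := fun z hz => by
    filter_upwards [closedBall_mem_nhds z one_pos] with y hy
    refine h1 y fun x hx => hl x (hT2 c hc x ?_)
    linarith [norm_sub_le_norm_sub_add_norm_sub x y c, norm_sub_le_norm_sub_add_norm_sub y z c,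
      mem_closedBall_iff_norm.mp hy]
  have h3 : ∀ z, ‖z - c‖ ≤ 3 * R0 n → ‖T z‖ < 3 / 4 := fun z hz => hT2 c hc z (by linarith)
  have h4 : ∀ z, ‖z - c‖ ≤ 3 * R0 n → T z ∈ ball 0 1 := fun z hz =>
    mem_ball_zero_iff.mpr (by linarith [h3 z hz])
  have h5 : ∀ z, ‖z - c‖ ≤ 3 * R0 n → v z = u (T z) := fun z hz =>
    (h2 z hz).eq_of_nhds.trans (he _ (h3 z hz)).eq_of_nhds
  have hc0 : ‖c - c‖ ≤ 3 * R0 n := by simp; linarith
  refine ⟨⟨(contDiff_const.mul hv).add contDiff_const, fun z hz => ?_, fun z hz => ?_⟩,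
    fun z hz => ⟨h4 z hz, fun l => ?_⟩⟩
  · rw [lap_aff hv, show lap v z = _ from sum_congr rfl fun l _ => pd_congr (pd_congr' (h2 z hz) l) l]
    exact mul_eq_zero_of_right _ (hl z (h3 z hz))
  · have := (convex_ball _ _).norm_image_sub_le_of_norm_fderiv_le (fun x hx =>
      (hu.contDiffAt (isOpen_ball.mem_nhds hx)).differentiableAt (by simp)) hb (h4 c hc0) (h4 z hz)
    rw [← map_sub] at this
    rw [← sub_eq_add_neg, ← mul_sub, h5 z hz, h5 c hc0, abs_mul, abs_of_pos (inv_pos.mpr hK),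
      inv_mul_le_iff₀ hK]
    exact this.trans (by gcongr; linarith [hT1 (z - c) (by linarith)])
  · rw [pd_const_mul hv, pd_congr (h2 z hz)]
    unfold pd
    rw [fderiv_comp _ (hf.differentiable (by simp) _) T.differentiableAt, T.fderiv,
      (he _ (h3 z hz)).fderiv_eq, ContinuousLinearMap.comp_apply, hT, map_smul, smul_eq_mul]

lemma clm_eq_sum (φ : EuclideanSpace ℝ (Fin n) →L[ℝ] ℝ) (e : EuclideanSpace ℝ (Fin n)) :
    φ e = ∑ l, e l * φ (EuclideanSpace.single l 1) := by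
  conv_lhs => rw [← (EuclideanSpace.basisFun (Fin n) ℝ).sum_repr e]
  simp

lemma exists_dir {φ : EuclideanSpace ℝ (Fin n) →L[ℝ] ℝ} {r : ℝ} (h : r < ‖φ‖) :
    ∃ e, ‖e‖ ≤ 1 ∧ r < φ e := by
  obtain ⟨e, he, h1⟩ := φ.exists_lt_apply_of_lt_opNorm h
  rcases le_total 0 (φ e) with h2 | h2
  · exact ⟨e, he.le, by rwa [Real.norm_of_nonneg h2] at h1⟩
  · exact ⟨-e, by rw [norm_neg]; exact he.le, by rwa [Real.norm_of_nonpos h2, ← map_neg] at h1⟩

/-- the two estimates: large frequency and small frequency -/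
lemma global (hn : 3 ≤ n) : ∃ C δ : ℝ, 0 ≤ C ∧ 0 < δ ∧ ∀ (u : EuclideanSpace ℝ (Fin n) → ℝ)
    (M N : ℝ), ContDiffOn ℝ 2 u (ball 0 1) →
    (∀ x ∈ ball (0 : EuclideanSpace ℝ (Fin n)) 1,
      ∑ i, iteratedFDeriv ℝ 2 u x (fun _ => EuclideanSpace.single i (1 : ℝ)) = 0) → 0 < M →
    (∀ r < M, ∃ x ∈ ball (0 : EuclideanSpace ℝ (Fin n)) (1 / 2), r < ‖fderiv ℝ u x‖) →
    (∀ x ∈ ball (0 : EuclideanSpace ℝ (Fin n)) 1, ‖fderiv ℝ u x‖ ≤ Real.exp N * M) →
    (2 ≤ N → μH[(n : ℝ) - 2] ({x | fderiv ℝ u x = 0} ∩ ball 0 (1 / 2)) ≤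
      ENNReal.ofReal (C * (N * Real.log N) ^ 2)) ∧
    (N = δ → {x | fderiv ℝ u x = 0} ∩ ball 0 (1 / 2) = ∅) := by
  obtain ⟨η, T, hη, hη1, hT, hc, h1⟩ := transfer n
  have hS := (convex_closedBall (0 : EuclideanSpace ℝ (Fin n)) (1 / 2)).linear_preimage T.toLinearMap
  obtain ⟨C, hC, h2⟩ := core hn hS hc
  obtain ⟨δ, hδ, h3⟩ := harnack hS hc.isBounded
  have hn' : (3 : ℝ) ≤ n := by exact_mod_cast hn
  have hR := R0_pos n
  obtain ⟨B, hB⟩ : ∃ B, B = 1 + Real.log (2 * n / η) := ⟨_, rfl⟩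
  have hB1 : 1 ≤ B := by
    have := Real.log_nonneg (show 1 ≤ 2 * n / η by rw [le_div_iff₀ hη]; linarith)
    linarith
  have hlB := Real.log_nonneg hB1
  refine ⟨(‖T‖₊ : ℝ) ^ (n - 2) * (C * (B * (2 * Real.log B + 1)) ^ 2), min (δ / 2) 1,
    by positivity, by positivity, fun u M N hu h0 hM hs hb => ?_⟩
  have hK : 0 < Real.exp N * M := by positivity
  obtain ⟨v, hv, h4⟩ := h1 u _ hu h0 hK hb
  have hc0 : ∀ c : Fin n → ℝ, ‖c - c‖ ≤ 3 * R0 n := fun c => by simp; linarith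
  refine ⟨fun hN => ?_, fun hN => Set.eq_empty_of_forall_notMem fun x hx => ?_⟩
  · obtain ⟨x, hx, h5⟩ := hs (M / 2) (by linarith)
    obtain ⟨p, rfl⟩ := hT x
    obtain ⟨e, he, h6⟩ := exists_dir h5
    obtain ⟨i, hi⟩ : ∃ i, M / (2 * n) ≤ |fderiv ℝ u (T p) (EuclideanSpace.single i 1)| := by
      by_contra h
      push Not at h
      have := sum_le_sum fun l (_ : l ∈ univ) => (le_abs_self _).trans ((abs_mul _ _).trans_le
        (mul_le_mul ((PiLp.norm_apply_le e l).trans he) (h l).le (abs_nonneg _) zero_le_one))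
      rw [← clm_eq_sum, sum_const, card_univ, Fintype.card_fin, nsmul_eq_mul,
        show n * (1 * (M / (2 * n))) = M / 2 by field_simp] at this
      linarith
    have hp := ball_subset_closedBall hx
    have h7 := h2 v i (B * N) p hp (fun c hc => (h4 c hc).1) (by nlinarith) (by
      rw [((h4 p hp).2 p (hc0 p)).2, abs_mul, abs_mul, abs_of_pos hη, abs_of_pos (inv_pos.mpr hK)]
      calc _ ≤ Real.exp (-(N + Real.log (2 * n / η))) := Real.exp_le_exp.mpr (by nlinarith)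
        _ = (Real.exp N * M)⁻¹ * (η * (M / (2 * n))) := by
          rw [Real.exp_neg, Real.exp_add, Real.exp_log (by positivity)]
          field_simp
        _ ≤ _ := by gcongr)
    refine (measure_mono fun x hx => ?_).trans
      ((T.lipschitz.hausdorffMeasure_image_le (by linarith) _).trans
        ((mul_le_mul' le_rfl h7).trans ?_))
    · obtain ⟨q, rfl⟩ := hT x
      have hq := ball_subset_closedBall hx.2
      exact ⟨q, ⟨hq, funext fun l => by
        simp [gr, ((h4 q hq).2 q (hc0 q)).2, show fderiv ℝ u (T q) = 0 from hx.1]⟩, rfl⟩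
    · rw [show (n : ℝ) - 2 = (n - 2 : ℕ) by rw [Nat.cast_sub (by omega)]; simp,
        ENNReal.rpow_natCast, ← ENNReal.ofReal_coe_nnreal, ← ENNReal.ofReal_pow (by positivity),
        ← ENNReal.ofReal_mul (by positivity), mul_assoc _ (C * _), mul_assoc C, ← mul_pow,
        Real.log_mul (by positivity) (by positivity)]
      have h5 : 1 / 2 ≤ Real.log N :=
        le_trans (by linarith [Real.log_two_gt_d9]) (Real.log_le_log two_pos hN)
      refine ENNReal.ofReal_le_ofReal (mul_le_mul_of_nonneg_left (mul_le_mul_of_nonneg_left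
        (pow_le_pow_left₀ (by positivity) ?_ _) hC) (by positivity))
      have h6 : Real.log B + Real.log N ≤ (2 * Real.log B + 1) * Real.log N := by nlinarith
      calc _ ≤ B * N * ((2 * Real.log B + 1) * Real.log N) := by gcongr
        _ = _ := by ring
  · have hN0 : 0 < N := by rw [hN]; positivity
    have hN1 : N ≤ 1 := hN ▸ min_le_right _ _
    have hN2 : N ≤ δ / 2 := hN ▸ min_le_left _ _
    obtain ⟨y, hy, h5⟩ := hs ((1 - N) * M) (by nlinarith)
    obtain ⟨p, rfl⟩ := hT x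
    obtain ⟨q, rfl⟩ := hT y
    obtain ⟨e, he, h6⟩ := exists_dir h5
    have hp := ball_subset_closedBall hx.2
    have hq := ball_subset_closedBall hy
    let g := fun z => -(2 * η)⁻¹ * ∑ l, (e l * pd l v z + 0) + 1 / 2
    have hs : ∀ l, Sm fun z => e l * pd l v z + 0 := fun l =>
      (contDiff_const.mul (hv.pd l)).add contDiff_const
    have h7 : ∀ c ∈ T ⁻¹' closedBall 0 (1 / 2), ∀ z, ‖z - c‖ ≤ 3 * R0 n →
        g z = (1 - (Real.exp N * M)⁻¹ * fderiv ℝ u (T z) e) / 2 := fun c hc z hz => by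
      simp only [g, ((h4 c hc).2 z hz).2, add_zero, mul_left_comm (e _), ← mul_sum, ← clm_eq_sum]
      field_simp
      ring
    have h8 : ∀ c ∈ T ⁻¹' closedBall 0 (1 / 2), ∀ z, ‖z - c‖ ≤ 3 * R0 n → 0 ≤ g z ∧ g z ≤ 1 :=
      fun c hc z hz => by
        have a1 : |(Real.exp N * M)⁻¹ * fderiv ℝ u (T z) e| ≤ 1 := by
          rw [abs_mul, abs_of_pos (inv_pos.mpr hK), inv_mul_le_iff₀ hK]
          exact ((fderiv ℝ u (T z)).le_opNorm e).trans
            (mul_le_mul (hb _ ((h4 c hc).2 z hz).1) he (norm_nonneg _) hK.le)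
        rw [h7 c hc z hz]
        constructor <;> linarith [abs_le.mp a1]
    have h9 := h3 g p hp q hq (fun c hc => ⟨(contDiff_const.mul (ContDiff.sum fun l _ => hs l)).add
      contDiff_const, fun z hz => ?_, fun z hz => ?_⟩) (fun z hz => (h8 q hq z (by linarith)).1)
      (by rw [h7 p hp p (hc0 p), show fderiv ℝ u (T p) = 0 from hx.1]; simp)
    · rw [h7 q hq q (hc0 q)] at h9
      have a1 : (1 - N) * (1 - N) ≤ (Real.exp N * M)⁻¹ * fderiv ℝ u (T q) e := by
        rw [le_inv_mul_iff₀ hK]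
        have a2 : Real.exp N * (1 - N) ≤ 1 := by
          rw [← le_inv_mul_iff₀ (Real.exp_pos _), mul_one, ← Real.exp_neg]
          linarith [Real.add_one_le_exp (-N)]
        nlinarith [mul_le_mul_of_nonneg_right a2 (show 0 ≤ (1 - N) * M by nlinarith)]
      nlinarith
    · rw [lap_aff (ContDiff.sum fun l _ => hs l), lap_sum hs, sum_eq_zero, mul_zero]
      intro l _
      have := (Har.pd (R := 2 * R0 n) ((h4 c hc).1.mono (by rw [sub_self, norm_zero]; linarith))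
        l).har z (by linarith)
      rw [show pd l (fun z => v z + -v c) = pd l v by simpa using pd_aff hv 1 (-v c) l] at this
      rw [lap_aff (hv.pd l), this, mul_zero]
    · have := h8 c hc z (by linarith)
      exact abs_le.mpr ⟨by linarith, this.2⟩

end

end Pool.Agent.LinCrit
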