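import Pool.Agent.Lib.MP_8465a2_an.Deep

/-!
The mass bound and the blow-up lower bound.
-/

namespace Pool.Agent.LinCrit

open Finset Matrix MeasureTheory Pool.Agent.Alesker Topology Filter Metric
open scoped ContDiff ENNReal

noncomputable section

variable {n : ℕ}

/-- density of the regularised measure -/
def dens (w : (Fin n → ℝ) → ℝ) (ε : ℝ) (x : Fin n → ℝ) : ℝ :=
  ε ^ 2 * fro (hess w x) / (nq (gr w x) + ε ^ 2) ^ 2

lemma fro_nonneg (H : Matrix (Fin n) (Fin n) ℝ) : 0 ≤ fro H :=
  sum_nonneg fun _ _ => sum_nonneg fun _ _ => sq_nonneg _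

lemma dens_nonneg (w : (Fin n → ℝ) → ℝ) (ε : ℝ) (x : Fin n → ℝ) : 0 ≤ dens w ε x := by
  have := fro_nonneg (hess w x)
  unfold dens
  positivity

lemma den_pos (w : (Fin n → ℝ) → ℝ) {ε : ℝ} (hε : 0 < ε) (x : Fin n → ℝ) :
    0 < nq (gr w x) + ε ^ 2 := add_pos_of_nonneg_of_pos (nq_nonneg _) (by positivity)

lemma cont_fro {w : (Fin n → ℝ) → ℝ} (hw : Sm w) : Continuous fun x => fro (hess w x) :=
  continuous_finsetSum _ fun l _ => continuous_finsetSum _ fun k _ =>
    ((hw.pd k).pd l).continuous.pow 2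

lemma cont_dens {w : (Fin n → ℝ) → ℝ} (hw : Sm w) {ε : ℝ} (hε : 0 < ε) : Continuous (dens w ε) :=
  (continuous_const.mul (cont_fro hw)).div (((sm_nq_gr hw).continuous.add continuous_const).pow 2)
    fun x => pow_ne_zero _ (den_pos w hε x).ne'

lemma pd_nq_gr {w : (Fin n → ℝ) → ℝ} (hw : Sm w) (c : ℝ) (l : Fin n) (x : Fin n → ℝ) :
    pd l (fun x => nq (gr w x) + c) x = 2 * (hess w x *ᵥ gr w x) l := by
  rw [pd_add (sm_nq_gr hw) contDiff_const, pd_const, add_zero]
  unfold nq gr
  rw [pd_sum _ fun l _ => (hw.pd l).pow 2]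
  simp_rw [sq, pd_mul (hw.pd _) (hw.pd _)]
  simp only [mulVec, dotProduct, hess, of_apply, mul_sum]
  exact sum_congr rfl fun k _ => by ring

lemma lap_log {w : (Fin n → ℝ) → ℝ} (hw : Sm w) {ε : ℝ} (hε : 0 < ε) {x : Fin n → ℝ}
    (hx : ∀ k, lap (pd k w) x = 0) : lap (fun x => Real.log (nq (gr w x) + ε ^ 2)) x =
      2 * (dens w ε x - (2 * nq (hess w x *ᵥ gr w x) - fro (hess w x) * nq (gr w x)) /
        (nq (gr w x) + ε ^ 2) ^ 2) := by
  have h0 := den_pos w hε
  have h1 : Sm fun x => nq (gr w x) + ε ^ 2 := (sm_nq_gr hw).add contDiff_const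
  have h2 : Sm fun x => (nq (gr w x) + ε ^ 2)⁻¹ := h1.inv fun x => (h0 x).ne'
  have h3 : ∀ l, Sm fun x => ∑ k, pd l (pd k w) x * pd k w x := fun l =>
    ContDiff.sum fun k _ => ((hw.pd k).pd l).mul (hw.pd k)
  have h4 : ∀ l, pd l (fun x => Real.log (nq (gr w x) + ε ^ 2)) = fun x =>
      (nq (gr w x) + ε ^ 2)⁻¹ * (2 * ∑ k, pd l (pd k w) x * pd k w x) := fun l => funext fun x => by
    rw [pd_comp h1 (Real.hasDerivAt_log (h0 x).ne'), pd_nq_gr hw]
    rfl
  have h5 : ∀ l, pd l (pd l fun x => Real.log (nq (gr w x) + ε ^ 2)) x =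
      -4 * ((nq (gr w x) + ε ^ 2) ^ 2)⁻¹ * (hess w x *ᵥ gr w x) l ^ 2 +
      2 * (nq (gr w x) + ε ^ 2)⁻¹ * (∑ k, pd l (pd l (pd k w)) x * pd k w x +
        ∑ k, hess w x l k ^ 2) := fun l => by
    rw [h4, pd_mul h2 (contDiff_const.mul (h3 l)), pd_comp h1 (hasDerivAt_inv (h0 x).ne'),
      pd_nq_gr hw, pd_const_mul (h3 l), pd_sum _ fun k _ => ((hw.pd k).pd l).mul (hw.pd k)]
    simp_rw [pd_mul ((hw.pd _).pd l) (hw.pd _), sum_add_distrib, ← sq]
    change -_ * (2 * (hess w x *ᵥ gr w x) l) * (2 * (hess w x *ᵥ gr w x) l) +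
      _ * (2 * (_ + ∑ k, hess w x l k ^ 2)) = _
    ring
  have h6 : ∑ l, ∑ k, pd l (pd l (pd k w)) x * pd k w x = 0 := by
    rw [sum_comm]
    refine sum_eq_zero fun k _ => ?_
    rw [← sum_mul, show ∑ l, pd l (pd l (pd k w)) x = 0 from hx k, zero_mul]
  unfold lap
  simp_rw [h5, sum_add_distrib, ← mul_sum, sum_add_distrib, h6]
  change _ * nq (hess w x *ᵥ gr w x) + _ * (_ + fro (hess w x)) = _
  have := (h0 x).ne'
  unfold dens
  field_simp
  ring

lemma ofReal_int_le {f : (Fin n → ℝ) → ℝ} (hf : Integrable f) :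
    ENNReal.ofReal (∫ x, f x) ≤ ∫⁻ x, ENNReal.ofReal (f x) := by
  refine (ENNReal.ofReal_le_ofReal (integral_mono hf hf.pos_part fun x => le_max_left _ _)).trans
    (le_of_eq ?_)
  rw [ofReal_integral_eq_lintegral_ofReal hf.pos_part
    (Eventually.of_forall fun x => le_max_right _ _)]
  simp

lemma geo {b : ℝ} (hb : 0 < b) : Real.exp (-(1 / b)) < 1 ∧ (1 - Real.exp (-(1 / b)))⁻¹ ≤ b + 1 := by
  have h1 : Real.exp (-(1 / b)) ≤ b / (b + 1) := by
    rw [Real.exp_neg, inv_le_comm₀ (by positivity) (by positivity), inv_div]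
    refine le_trans (le_of_eq ?_) (Real.add_one_le_exp _)
    field_simp
    ring
  have h2 : b / (b + 1) < 1 := (div_lt_one (by positivity)).mpr (by linarith)
  have : (1 - Real.exp (-(1 / b)))⁻¹ ≤ (1 - b / (b + 1))⁻¹ := by gcongr
  rw [show (1 - b / (b + 1))⁻¹ = b + 1 by field_simp; ring] at this
  exact ⟨h1.trans_lt h2, this⟩

lemma log_int (n : ℕ) : ∃ C : ℝ, 0 ≤ C ∧ ∀ (w : (Fin n → ℝ) → ℝ) (y : Fin n → ℝ) (i : Fin n)
    (L ε : ℝ), Har w 0 (3 * R0 n) 1 → ‖y‖ ≤ 1 → 1 ≤ L → Real.exp (-L) ≤ |pd i w y| → 0 < ε → ε ≤ 1 →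
    ∫⁻ x in closedBall 0 3, ENNReal.ofReal |Real.log (nq (gr w x) + ε ^ 2)| ≤
      ENNReal.ofReal (C * L) := by
  obtain ⟨K, hK, hv⟩ := vol_le n
  refine ⟨n * 6 ^ n + 10 * K, by positivity, fun w y i L ε hw hy hL h0 hε hε1 => ?_⟩
  have hR := R0_pos n
  let Z := fun a : ℕ => {x ∈ closedBall y 4 | |pd i w x| ≤ Real.exp (-a)}
  have hZ : ∀ a, MeasurableSet (Z a) := fun a => measurableSet_closedBall.inter
    (isClosed_le (hw.sm.pd i).continuous.abs continuous_const).measurableSet
  obtain ⟨g1, g2⟩ := geo (b := 4 * L) (by linarith)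
  calc _ ≤ ∫⁻ x in closedBall 0 3, ENNReal.ofReal n + 2 * ∑' a, (Z a).indicator 1 x := by
        refine setLIntegral_mono' measurableSet_closedBall fun x hx => ?_
        rw [mem_closedBall_zero_iff] at hx
        have h1 := den_pos w hε x
        rcases le_total 0 (Real.log (nq (gr w x) + ε ^ 2)) with h2 | h2
        · refine le_add_right (ENNReal.ofReal_le_ofReal ?_)
          rw [abs_of_nonneg h2]
          refine (Real.log_le_sub_one_of_pos h1).trans ?_
          have : nq (gr w x) ≤ ∑ _l : Fin n, 1 := sum_le_sum fun l _ =>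
            (sq_le_one_iff_abs_le_one _).mpr ((hw.gr l).bd x (by simp; linarith))
          simp only [sum_const, card_univ, Fintype.card_fin, nsmul_eq_mul, mul_one] at this
          nlinarith
        · refine le_add_left ?_
          rw [abs_of_nonpos h2]
          set m := ⌈-Real.log (nq (gr w x) + ε ^ 2) / 2⌉₊
          have h3 : (m : ℝ≥0∞) ≤ ∑' a, (Z a).indicator 1 x := by
            refine le_trans (le_of_eq ?_) (ENNReal.sum_le_tsum (range m))
            rw [sum_congr rfl fun a ha => Set.indicator_of_mem (show x ∈ Z a from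
              ⟨mem_closedBall_iff_norm.mpr ((norm_sub_le _ _).trans (by linarith)), ?_⟩) _]
            · simp
            · have h4 := Nat.lt_ceil.mp (mem_range.mp ha)
              refine abs_le_of_sq_le_sq ((sq_le_nq (gr w x) i).trans ?_) (by positivity)
              rw [← Real.exp_nat_mul]
              refine le_trans (by nlinarith) ((Real.log_le_iff_le_exp h1).mp ?_)
              push_cast
              linarith
          calc _ ≤ ENNReal.ofReal (2 * m) := ENNReal.ofReal_le_ofReal
                (by linarith [Nat.le_ceil (-Real.log (nq (gr w x) + ε ^ 2) / 2)])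
            _ = 2 * m := by rw [ENNReal.ofReal_mul (by norm_num)]; simp
            _ ≤ _ := by gcongr
    _ ≤ ENNReal.ofReal n * ENNReal.ofReal (6 ^ n) +
          2 * ∑' a : ℕ, ENNReal.ofReal (K * Real.exp (-(1 / (4 * L))) ^ a) := by
        rw [lintegral_add_left measurable_const, setLIntegral_const, lintegral_const_mul' _ _
          (by norm_num), lintegral_tsum fun a => (measurable_one.indicator (hZ a)).aemeasurable]
        gcongr with a
        · exact vol_cube fun x hx => mem_closedBall_zero_iff.mp hx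
        · refine (setLIntegral_le_lintegral _ _).trans ?_
          rw [lintegral_indicator_one (hZ a), ← Real.exp_nat_mul,
            show a * -(1 / (4 * L)) = -a / (4 * L) by ring]
          exact hv (pd i w) y L a ((hw.gr i).mono (by simp; linarith)) hL h0
    _ ≤ _ := by
        rw [← ENNReal.ofReal_tsum_of_nonneg (fun k => by positivity)
          ((summable_geometric_of_lt_one (by positivity) g1).mul_left K), tsum_mul_left,
          tsum_geometric_of_lt_one (by positivity) g1, ← ENNReal.ofReal_mul (by positivity),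
          ← ENNReal.ofReal_ofNat 2, ← ENNReal.ofReal_mul (by positivity),
          ← ENNReal.ofReal_add (by positivity) (by have := sub_pos.mpr g1; positivity)]
        refine ENNReal.ofReal_le_ofReal ?_
        have h1 : (0 : ℝ) ≤ n * 6 ^ n := by positivity
        nlinarith [mul_le_mul_of_nonneg_left g2 (by linarith : 0 ≤ K)]

lemma mass (hn : 3 ≤ n) : ∃ C : ℝ, 0 ≤ C ∧ ∀ (w : (Fin n → ℝ) → ℝ) (y : Fin n → ℝ) (i : Fin n)
    (L ε : ℝ), Har w 0 (3 * R0 n) 1 → ‖y‖ ≤ 1 → 2 ≤ L → Real.exp (-L) ≤ |pd i w y| → 0 < ε → ε ≤ 1 →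
    ∫⁻ x in closedBall 0 2, ENNReal.ofReal (dens w ε x) ≤
      ENNReal.ofReal (C * (L * Real.log L) ^ 2) := by
  obtain ⟨C1, hC1, h1⟩ := ng_total hn
  obtain ⟨C2, hC2, h2⟩ := log_int n
  let χ : ContDiffBump (0 : Fin n → ℝ) := ⟨2, 3, by norm_num, by norm_num⟩
  have hχ : Sm χ := χ.contDiff
  have hc : HasCompactSupport χ := χ.hasCompactSupport
  have hlc : Continuous (lap χ) := continuous_finsetSum _ fun l _ => ((hχ.pd l).pd l).continuous
  obtain ⟨B, hB⟩ := (isCompact_closedBall (0 : Fin n → ℝ) 3).exists_bound_of_continuousOn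
    hlc.continuousOn
  have hB0 : 0 ≤ B := (norm_nonneg _).trans (hB 0 (by simp))
  have hz : ∀ x ∉ closedBall (0 : Fin n → ℝ) 3, χ x = 0 ∧ lap χ x = 0 := fun x hx => by
    have : χ =ᶠ[𝓝 x] fun _ => 0 := by
      filter_upwards [isClosed_closedBall.isOpen_compl.mem_nhds hx] with z hz
      exact χ.zero_of_le_dist (not_le.mp fun h => hz (mem_closedBall.mpr h)).le
    refine ⟨this.self_of_nhds, sum_eq_zero fun l _ => ?_⟩
    rw [pd_congr (pd_congr' this l), show pd l (fun _ : Fin n → ℝ => (0 : ℝ)) = fun _ => 0 from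
      funext (pd_const 0 l), pd_const]
  refine ⟨B * C2 + C1, by positivity, fun w y i L ε hw hy hL h0 hε hε1 => ?_⟩
  have hR := R0_pos n
  let ph := fun x => Real.log (nq (gr w x) + ε ^ 2)
  let q := fun x => (2 * nq (hess w x *ᵥ gr w x) - fro (hess w x) * nq (gr w x)) /
    (nq (gr w x) + ε ^ 2) ^ 2
  have hph : Sm ph := ((sm_nq_gr hw.sm).add contDiff_const).log fun x => (den_pos w hε x).ne'
  have hq : Continuous q := by
    have a1 := (sm_nq_gr hw.sm).continuous
    have a2 := sm_nq.continuous.comp ((cont_hess hw.sm).matrix_mulVec (cont_gr hw.sm))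
    exact ((continuous_const.mul a2).sub ((cont_fro hw.sm).mul a1)).div
      ((a1.add continuous_const).pow 2) fun x => pow_ne_zero _ (den_pos w hε x).ne'
  have i1 : ∀ l, Integrable fun x => χ x * pd l (pd l ph) x := fun l =>
    integrable_of_cs hχ.continuous hc ((hph.pd l).pd l).continuous
  have i2 : ∀ l, Integrable fun x => pd l (pd l χ) x * ph x := fun l =>
    integrable_of_cs ((hχ.pd l).pd l).continuous (cs_pd (cs_pd hc l) l) hph.continuous
  have i3 := integrable_of_cs hχ.continuous hc hq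
  have i4 : Integrable fun x => 1 / 2 * (lap χ x * ph x) := by
    simp_rw [lap, sum_mul]
    exact (integrable_finsetSum _ fun l _ => i2 l).const_mul _
  have e1 : ∫ x, χ x * dens w ε x = (∫ x, 1 / 2 * (lap χ x * ph x)) + ∫ x, χ x * q x := by
    have e2 : ∫ x, 1 / 2 * (lap χ x * ph x) = ∫ x, 1 / 2 * ∑ l, χ x * pd l (pd l ph) x := by
      simp_rw [lap, sum_mul]
      rw [integral_const_mul, integral_const_mul, integral_finsetSum _ fun l _ => i1 l,
        integral_finsetSum _ fun l _ => i2 l]
      congr 1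
      refine sum_congr rfl fun l _ => ?_
      rw [ibp0 hχ hc (hph.pd l), ibp0 (hχ.pd l) (cs_pd hc l) hph, neg_neg]
    rw [e2, ← integral_add ((integrable_finsetSum _ fun l _ => i1 l).const_mul _) i3]
    refine integral_congr_ae (Eventually.of_forall fun x => ?_)
    simp only [← mul_sum]
    by_cases hx : x ∈ closedBall (0 : Fin n → ℝ) 3
    · have := lap_log hw.sm hε fun k => (hw.gr k).har x (by
        simpa using (mem_closedBall_zero_iff.mp hx).trans (by linarith))
      unfold lap at this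
      rw [this]
      ring
    · simp [(hz x hx).1]
  have hl : 0.69 ≤ Real.log L :=
    (Real.log_two_gt_d9.le.trans' (by norm_num)).trans (Real.log_le_log two_pos hL)
  calc _ ≤ ∫⁻ x, ENNReal.ofReal (χ x * dens w ε x) := by
        refine le_trans (setLIntegral_mono' measurableSet_closedBall fun x hx => ?_)
          (setLIntegral_le_lintegral _ _)
        rw [χ.one_of_mem_closedBall hx, one_mul]
    _ = ENNReal.ofReal (∫ x, χ x * dens w ε x) :=
        (ofReal_integral_eq_lintegral_ofReal (integrable_of_cs hχ.continuous hc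
          (cont_dens hw.sm hε)) (Eventually.of_forall fun x =>
            mul_nonneg χ.nonneg (dens_nonneg w ε x))).symm
    _ ≤ (∫⁻ x, ENNReal.ofReal (1 / 2 * (lap χ x * ph x))) + ∫⁻ x, ENNReal.ofReal (χ x * q x) := by
        rw [e1]
        exact ENNReal.ofReal_add_le.trans (add_le_add (ofReal_int_le i4) (ofReal_int_le i3))
    _ ≤ (∫⁻ x in closedBall 0 3, ENNReal.ofReal (B / 2) * ENNReal.ofReal |ph x|) +
          ∫⁻ x in closedBall 0 3, ENNReal.ofReal (ng w x) := by
        rw [← lintegral_indicator measurableSet_closedBall,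
          ← lintegral_indicator measurableSet_closedBall]
        gcongr with x x
        · by_cases hx : x ∈ closedBall (0 : Fin n → ℝ) 3
          · rw [Set.indicator_of_mem hx, ← ENNReal.ofReal_mul (by positivity)]
            refine ENNReal.ofReal_le_ofReal ?_
            have := (le_abs_self _).trans ((abs_mul _ _).le.trans
              (mul_le_mul_of_nonneg_right (hB x hx) (abs_nonneg (ph x))))
            linarith
          · simp [(hz x hx).2]
        · by_cases hx : x ∈ closedBall (0 : Fin n → ℝ) 3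
          · rw [Set.indicator_of_mem hx]
            rcases le_or_gt (2 * nq (hess w x *ᵥ gr w x) - fro (hess w x) * nq (gr w x)) 0 with
              h3 | h3
            · rw [ENNReal.ofReal_of_nonpos (mul_nonpos_of_nonneg_of_nonpos χ.nonneg
                (div_nonpos_of_nonpos_of_nonneg h3 (sq_nonneg _)))]
              exact zero_le
            · have h4 : 0 < nq (gr w x) := (nq_nonneg _).lt_of_ne' fun h5 => by
                have : gr w x = 0 := funext fun l =>
                  pow_eq_zero_iff (two_ne_zero).symm.symm |>.mp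
                    (le_antisymm (h5 ▸ sq_le_nq _ l) (sq_nonneg _))
                simp [this, nq] at h3
              refine ENNReal.ofReal_le_ofReal ((mul_le_of_le_one_left (by positivity)
                χ.le_one).trans ?_)
              simp only [q, ng]
              gcongr
              nlinarith
          · simp [(hz x hx).1]
    _ ≤ ENNReal.ofReal (B / 2) * ENNReal.ofReal (C2 * L) +
          ENNReal.ofReal (C1 * (L * Real.log L) ^ 2) := by
        rw [lintegral_const_mul' _ _ ENNReal.ofReal_ne_top]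
        gcongr
        exacts [h2 w y i L ε hw hy (by linarith) h0 hε hε1, h1 w y i L hw hy hL h0]
    _ ≤ _ := by
        rw [← ENNReal.ofReal_mul (by positivity),
          ← ENNReal.ofReal_add (by positivity) (by positivity)]
        refine ENNReal.ofReal_le_ofReal ?_
        have h3 : L ≤ 2 * (L * Real.log L) ^ 2 := by
          have : 0.69 ^ 2 ≤ Real.log L ^ 2 := by gcongr
          nlinarith [mul_le_mul_of_nonneg_left this (sq_nonneg L)]
        nlinarith [mul_le_mul_of_nonneg_left h3 (mul_nonneg hB0 hC2)]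

end

end Pool.Agent.LinCrit
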