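import Pool.Agent.Lib.MP_8465a2_an.Poly

/-!
Mean value property and gradient estimate for harmonic functions in coordinates.
-/

namespace Pool.Agent.LinCrit

open Finset MeasureTheory Pool.Agent.Alesker Topology Filter Metric
open scoped ContDiff ENNReal Convolution

noncomputable section

variable {n : ℕ}

/-- Laplacian -/
def lap (v : (Fin n → ℝ) → ℝ) (x : Fin n → ℝ) : ℝ := ∑ l, pd l (pd l v) x

/-- squared Euclidean norm -/
def nq (y : Fin n → ℝ) : ℝ := ∑ l, y l ^ 2

lemma nq_nonneg (y : Fin n → ℝ) : 0 ≤ nq y := sum_nonneg fun _ _ => sq_nonneg _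

lemma sq_le_nq (y : Fin n → ℝ) (l : Fin n) : y l ^ 2 ≤ nq y :=
  single_le_sum (f := fun l => y l ^ 2) (fun _ _ => sq_nonneg _) (mem_univ l)

lemma sm_nq : Sm (nq (n := n)) := ContDiff.sum fun l _ => (sm_coord l).pow 2

/-- radial bump -/
def Psi (y : Fin n → ℝ) : ℝ := expNegInvGlue (1 - nq y)

/-- radial weight -/
def rho (y : Fin n → ℝ) : ℝ := (1 - nq y)⁻¹ ^ 2 * expNegInvGlue (1 - nq y)

lemma sm_Psi : Sm (Psi (n := n)) := expNegInvGlue.contDiff.comp (contDiff_const.sub sm_nq)

lemma sm_rho : Sm (rho (n := n)) := by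
  have := (expNegInvGlue.contDiff_polynomial_eval_inv_mul (n := ⊤) (Polynomial.X ^ 2)).comp
    (contDiff_const (c := (1 : ℝ)).sub (sm_nq (n := n)))
  simp only [Function.comp_def, Polynomial.eval_pow, Polynomial.eval_X] at this
  exact this

lemma glue_zero {y : Fin n → ℝ} (hy : y ∉ closedBall (0 : Fin n → ℝ) 1) :
    expNegInvGlue (1 - nq y) = 0 := by
  refine expNegInvGlue.zero_of_nonpos (sub_nonpos.mpr ?_)
  by_contra h
  push Not at h
  refine hy (mem_closedBall_zero_iff.mpr ((pi_norm_le_iff_of_nonneg zero_le_one).mpr fun l => ?_))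
  exact (sq_le_one_iff_abs_le_one _).mp ((sq_le_nq y l).trans h.le)

lemma Psi_zero {y : Fin n → ℝ} (hy : y ∉ closedBall (0 : Fin n → ℝ) 1) : Psi y = 0 := glue_zero hy

lemma rho_zero {y : Fin n → ℝ} (hy : y ∉ closedBall (0 : Fin n → ℝ) 1) : rho y = 0 := by
  rw [rho, glue_zero hy, mul_zero]

lemma cs_Psi : HasCompactSupport (Psi (n := n)) :=
  HasCompactSupport.intro (isCompact_closedBall 0 1) fun _ => Psi_zero

lemma cs_rho : HasCompactSupport (rho (n := n)) :=
  HasCompactSupport.intro (isCompact_closedBall 0 1) fun _ => rho_zero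

lemma rho_nonneg (y : Fin n → ℝ) : 0 ≤ rho y :=
  mul_nonneg (sq_nonneg _) (expNegInvGlue.nonneg _)

lemma pd_nq (l : Fin n) (y : Fin n → ℝ) : pd l nq y = 2 * y l := by
  unfold nq
  rw [pd_sum _ fun j _ => (sm_coord j).pow 2]
  simp_rw [sq, pd_mul (sm_coord _) (sm_coord _), pd_coord]
  simp [sum_add_distrib, two_mul]

lemma pd_comp {f : (Fin n → ℝ) → ℝ} {φ : ℝ → ℝ} {φ' : ℝ} {x : Fin n → ℝ} (hf : Sm f)
    (hφ : HasDerivAt φ φ' (f x)) (l : Fin n) : pd l (fun y => φ (f y)) x = φ' * pd l f x := by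
  have := (hφ.comp_hasFDerivAt x (hf.diff x).hasFDerivAt).fderiv
  unfold pd
  rw [show (fun y => φ (f y)) = φ ∘ f from rfl, this]
  simp

lemma pd_Psi (l : Fin n) (y : Fin n → ℝ) : pd l Psi y = -2 * y l * rho y := by
  have h1 := expNegInvGlue.hasDerivAt_polynomial_eval_inv_mul 1 (1 - nq y)
  simp only [Polynomial.eval_one, one_mul, Polynomial.derivative_one, sub_zero, mul_one,
    Polynomial.eval_pow, Polynomial.eval_X] at h1
  have h2 := h1.comp (nq y) ((hasDerivAt_id (nq y)).const_sub 1)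
  have h3 := pd_comp sm_nq h2 l
  rw [pd_nq] at h3
  exact h3.trans (by unfold rho; ring)

/-- total weight -/
def Irho (n : ℕ) : ℝ := ∫ y : Fin n → ℝ, rho y

lemma Irho_pos : 0 < Irho n :=
  Continuous.integral_pos_of_hasCompactSupport_nonneg_nonzero sm_rho.continuous cs_rho rho_nonneg
    (x := 0) (by
      simp [rho, nq])

lemma pd_shift {f : (Fin n → ℝ) → ℝ} (hf : Differentiable ℝ f) (x : Fin n → ℝ) (s : ℝ) (l : Fin n)
    (y : Fin n → ℝ) : pd l (fun y => f (x + s • y)) y = s * pd l f (x + s • y) := by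
  have h1 : HasFDerivAt (fun y : Fin n → ℝ => x + s • y)
      (s • ContinuousLinearMap.id ℝ (Fin n → ℝ)) y := ((hasFDerivAt_id y).const_smul s).const_add x
  have h2 := ((hf (x + s • y)).hasFDerivAt.comp y h1).fderiv
  unfold pd
  rw [show (fun y => f (x + s • y)) = f ∘ fun y => x + s • y from rfl, h2]
  simp

lemma pd_one {f : (Fin n → ℝ) → ℝ} (hf : ContDiff ℝ 2 f) (l : Fin n) : ContDiff ℝ 1 (pd l f) :=
  (hf.fderiv_right (m := 1) (by norm_num)).clm_apply contDiff_const

lemma pd_cont {f : (Fin n → ℝ) → ℝ} (hf : ContDiff ℝ 1 f) (l : Fin n) : Continuous (pd l f) :=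
  (hf.continuous_fderiv (by simp)).clm_apply continuous_const

lemma ibp {φ f : (Fin n → ℝ) → ℝ} (hφ : Sm φ) (hc : HasCompactSupport φ) (hf : ContDiff ℝ 1 f)
    (i : Fin n) : ∫ x, φ x * pd i f x = -∫ x, pd i φ x * f x :=
  integral_mul_fderiv_eq_neg_fderiv_mul_of_integrable
    (integrable_of_cs (hφ.pd i).continuous (cs_pd hc i) hf.continuous)
    (integrable_of_cs hφ.continuous hc (pd_cont hf i))
    (integrable_of_cs hφ.continuous hc hf.continuous)
    (fun x _ => hφ.diff x) (fun x _ => hf.differentiable (by simp) x)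

/-- mean value property -/
lemma mean {w : (Fin n → ℝ) → ℝ} (hw : ContDiff ℝ 2 w) (x : Fin n → ℝ) (t : ℝ)
    (h : ∀ z, ‖z - x‖ ≤ |t| → lap w z = 0) : ∫ y, rho y * w (x + t • y) = Irho n * w x := by
  have hd : Differentiable ℝ w := hw.differentiable (by simp)
  have hc : ∀ l, Continuous (pd l w) := fun l => (pd_one hw l).continuous
  let F' : ℝ → (Fin n → ℝ) → ℝ := fun s y => rho y * ∑ l, y l * pd l w (x + s • y)
  have hF' : Continuous fun p : ℝ × (Fin n → ℝ) => F' p.1 p.2 :=
    (sm_rho.continuous.comp continuous_snd).mul (continuous_finsetSum _ fun l _ =>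
      ((continuous_apply l).comp continuous_snd).mul ((hc l).comp (by fun_prop)))
  have h1 : ∀ s, HasDerivAt (fun s : ℝ => ∫ y, rho y * w (x + s • y)) (∫ y, F' s y) s := by
    intro s
    obtain ⟨C, hC⟩ := ((isCompact_closedBall s 1).prod
      (isCompact_closedBall (0 : Fin n → ℝ) 1)).exists_bound_of_continuousOn hF'.continuousOn
    have hi : ∀ s : ℝ, Integrable fun y => rho y * w (x + s • y) := fun s =>
      integrable_of_cs sm_rho.continuous cs_rho (hw.continuous.comp (by fun_prop))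
    refine (hasDerivAt_integral_of_dominated_loc_of_deriv_le (closedBall_mem_nhds s one_pos)
      (bound := (closedBall (0 : Fin n → ℝ) 1).indicator fun _ => C)
      (Eventually.of_forall fun s => (hi s).aestronglyMeasurable) (hi s)
      (hF'.comp (Continuous.prodMk_right s)).aestronglyMeasurable
      (Eventually.of_forall fun y r hr => ?_)
      ((integrable_indicator_iff measurableSet_closedBall).mpr
        (integrableOn_const (isCompact_closedBall _ _).measure_lt_top.ne))
      (Eventually.of_forall fun y r _ => ?_)).2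
    · by_cases hy : y ∈ closedBall (0 : Fin n → ℝ) 1
      · rw [Set.indicator_of_mem hy]
        exact hC (r, y) ⟨hr, hy⟩
      · simp [Set.indicator_of_notMem hy, F', rho_zero hy]
    · have h1 : HasDerivAt (fun s : ℝ => x + s • y) y r := by
        simpa using ((hasDerivAt_id r).smul_const y).const_add x
      have h2 := (hd (x + r • y)).hasFDerivAt.comp_hasDerivAt r h1
      rw [fderiv_eq_sum] at h2
      exact h2.const_mul (rho y)
  have h2 : ∀ s, |s| ≤ |t| → ∫ y, F' s y = 0 := by
    intro s hs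
    have hl : ∀ l, ContDiff ℝ 1 fun y => pd l w (x + s • y) := fun l =>
      (pd_one hw l).comp (by fun_prop)
    have e1 : ∀ y, F' s y = ∑ l, -(1 / 2) * (pd l Psi y * pd l w (x + s • y)) := fun y => by
      simp only [F', mul_sum, pd_Psi]
      exact sum_congr rfl fun l _ => by ring
    have e2 : ∀ l, ∫ y, -(1 / 2) * (pd l Psi y * pd l w (x + s • y)) =
        ∫ y, s / 2 * (Psi y * pd l (pd l w) (x + s • y)) := fun l => by
      have := ibp sm_Psi cs_Psi (hl l) l
      simp_rw [pd_shift ((pd_one hw l).differentiable (by simp)), mul_left_comm _ s] at this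
      rw [integral_const_mul] at this
      rw [integral_const_mul, integral_const_mul]
      linarith
    simp_rw [e1]
    rw [integral_finsetSum _ fun l _ => (integrable_of_cs (sm_Psi.pd l).continuous (cs_pd cs_Psi l)
      (hl l).continuous).const_mul _]
    simp_rw [e2]
    have hi : ∀ l, Integrable fun y => s / 2 * (Psi y * pd l (pd l w) (x + s • y)) := fun l =>
      (integrable_of_cs sm_Psi.continuous cs_Psi
        ((pd_cont (pd_one hw l) l).comp (by fun_prop))).const_mul _
    rw [← integral_finsetSum _ fun l _ => hi l]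
    refine integral_eq_zero_of_ae (Eventually.of_forall fun y => ?_)
    simp only [← mul_sum, Pi.zero_apply]
    by_cases hy : y ∈ closedBall (0 : Fin n → ℝ) 1
    · have := h (x + s • y) (by
        rw [add_sub_cancel_left, norm_smul]
        exact (mul_le_of_le_one_right (norm_nonneg _) (mem_closedBall_zero_iff.mp hy)).trans hs)
      unfold lap at this
      rw [this]; simp
    · simp [Psi_zero hy]
  have h3 := Convex.norm_image_sub_le_of_norm_hasDerivWithin_le (C := 0) (s := closedBall 0 |t|)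
    (fun s _ => (h1 s).hasDerivWithinAt)
    (fun s hs => by rw [h2 s (mem_closedBall_zero_iff.mp hs), norm_zero]) (convex_closedBall _ _)
    (mem_closedBall_self (abs_nonneg t)) (mem_closedBall_zero_iff.mpr (le_refl |t|))
  rw [zero_mul, norm_le_zero_iff, sub_eq_zero] at h3
  rw [h3]
  simp [Irho, integral_mul_const]

lemma pd_congr {f g : (Fin n → ℝ) → ℝ} {x : Fin n → ℝ} (h : f =ᶠ[𝓝 x] g) (l : Fin n) :
    pd l f x = pd l g x := by
  unfold pd; rw [h.fderiv_eq]

lemma pd_congr' {f g : (Fin n → ℝ) → ℝ} {x : Fin n → ℝ} (h : f =ᶠ[𝓝 x] g) (l : Fin n) :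
    pd l f =ᶠ[𝓝 x] pd l g := h.eventuallyEq_nhds.mono fun _ hy => pd_congr hy l

lemma lap_pd {v : (Fin n → ℝ) → ℝ} (hv : Sm v) {x : Fin n → ℝ} {r s : ℝ} (hs : s < r)
    (h : ∀ z, ‖z - x‖ ≤ r → lap v z = 0) (l : Fin n) (z : Fin n → ℝ) (hz : ‖z - x‖ ≤ s) :
    lap (pd l v) z = 0 := by
  have h1 : lap v =ᶠ[𝓝 z] fun _ => 0 := by
    filter_upwards [closedBall_mem_nhds_of_mem (show z ∈ ball x r from
      mem_ball_iff_norm.mpr (hz.trans_lt hs))] with y hy using h y (mem_closedBall_iff_norm.mp hy)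
  have h2 := pd_congr h1 l
  rw [pd_const] at h2
  rw [← h2]
  unfold lap
  rw [pd_sum _ fun j _ => (hv.pd j).pd j]
  refine sum_congr rfl fun j _ => ?_
  rw [pd_comm (hv.pd j) l j, show pd l (pd j v) = pd j (pd l v) from funext (pd_comm hv l j)]

lemma sm_two {v : (Fin n → ℝ) → ℝ} (hv : Sm v) : ContDiff ℝ 2 v :=
  hv.of_le ENat.LEInfty.out

/-- gradient estimate -/
lemma grad_est (n : ℕ) : ∃ C : ℝ, 1 ≤ C ∧ ∀ (v : (Fin n → ℝ) → ℝ) (x : Fin n → ℝ) (t M : ℝ),
    Sm v → 0 < t → (∀ z, ‖z - x‖ ≤ t → lap v z = 0 ∧ |v z| ≤ M) → ∀ l, |pd l v x| ≤ C / t * M := by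
  have hI := Irho_pos (n := n)
  let K : ℝ := ∑ l : Fin n, ∫ y, |pd l rho y|
  have hK : ∀ l : Fin n, ∫ y, |pd l rho y| ≤ K := fun l =>
    single_le_sum (f := fun l : Fin n => ∫ y, |pd l rho y|)
      (fun _ _ => integral_nonneg fun _ => abs_nonneg _) (mem_univ l)
  have hK0 : 0 ≤ K := sum_nonneg fun _ _ => integral_nonneg fun _ => abs_nonneg _
  refine ⟨2 * K / Irho n + 1, by have : 0 ≤ 2 * K / Irho n := by positivity
                                 linarith, fun v x t M hv ht h l => ?_⟩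
  have hM : 0 ≤ M := (abs_nonneg _).trans (h x (by simp [ht.le])).2
  have h1 := mean (sm_two (hv.pd l)) x (t / 2) fun z hz =>
    lap_pd hv (half_lt_self ht) (fun z hz => (h z hz).1) l z (by rwa [abs_of_pos (half_pos ht)] at hz)
  have h2 := ibp sm_rho cs_rho (f := fun y => v (x + (t / 2) • y))
    ((hv.of_le (by simp)).comp (by fun_prop)) l
  simp_rw [pd_shift hv.diff, mul_left_comm _ (t / 2)] at h2
  rw [integral_const_mul, h1] at h2
  have h3 : |∫ y, pd l rho y * v (x + (t / 2) • y)| ≤ K * M := by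
    refine abs_integral_le_integral_abs.trans (le_trans ?_ (mul_le_mul_of_nonneg_right (hK l) hM))
    rw [← integral_mul_const]
    refine integral_mono_of_nonneg (Eventually.of_forall fun _ => abs_nonneg _)
      (((sm_rho.pd l).continuous.integrable_of_hasCompactSupport (cs_pd cs_rho l)).abs.mul_const M)
      (Eventually.of_forall fun y => ?_)
    simp only [abs_mul]
    by_cases hy : y ∈ closedBall (0 : Fin n → ℝ) 1
    · refine mul_le_mul_of_nonneg_left (h _ ?_).2 (abs_nonneg _)
      rw [add_sub_cancel_left, norm_smul, Real.norm_of_nonneg (half_pos ht).le]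
      exact (mul_le_of_le_one_right (half_pos ht).le (mem_closedBall_zero_iff.mp hy)).trans
        (half_le_self ht.le)
    · have : pd l rho y = 0 := by
        rw [pd_congr (g := fun _ => 0) ?_, pd_const]
        filter_upwards [isClosed_closedBall.isOpen_compl.mem_nhds hy] with z hz using rho_zero hz
      simp [this]
  rw [← abs_neg, ← h2, abs_mul, abs_mul, abs_of_pos (half_pos ht), abs_of_pos hI] at h3
  rw [div_mul_eq_mul_div, le_div_iff₀ ht, add_mul, div_mul_eq_mul_div]
  have : |pd l v x| * t ≤ 2 * K * M / Irho n := by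
    rw [le_div_iff₀ hI]; linarith
  linarith

/-- smoothing of a harmonic function -/
lemma smoothing {w : (Fin n → ℝ) → ℝ} (hw : ContDiff ℝ 2 w) :
    ∃ v : (Fin n → ℝ) → ℝ, Sm v ∧ ∀ x, (∀ z, ‖z - x‖ ≤ 1 → lap w z = 0) → v x = w x := by
  have h1 := cs_rho.contDiff_convolution_left (μ := volume) (n := ⊤) (ContinuousLinearMap.mul ℝ ℝ)
    sm_rho (hw.continuous.locallyIntegrable (μ := volume))
  refine ⟨fun x => (Irho n)⁻¹ * (rho ⋆[ContinuousLinearMap.mul ℝ ℝ, volume] w) x,
    contDiff_const.mul h1, fun x hx => ?_⟩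
  have h2 := mean hw x (-1) (by simpa using hx)
  simp only [neg_smul, one_smul, ← sub_eq_add_neg] at h2
  simp only [MeasureTheory.convolution, ContinuousLinearMap.mul_apply', h2]
  rw [inv_mul_cancel_left₀ Irho_pos.ne']

end

end Pool.Agent.LinCrit
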