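import Pool.Agent.Lib.MP_3fa020_gt.Calc

/-!
Polynomial functions, a weak Bezout bound and the area inequality for MP_8465a2_an.
-/

namespace Pool.Agent.LinCrit

open Finset MeasureTheory Pool.Agent.Alesker Topology Filter
open scoped ContDiff ENNReal

noncomputable section

variable {n : ℕ}

/-- monomial function -/
def mono (α : Fin n → ℕ) (x : Fin n → ℝ) : ℝ := ∏ l, x l ^ α l

/-- polynomial functions of total degree at most `d` -/
def Pol (n d : ℕ) : Submodule ℝ ((Fin n → ℝ) → ℝ) :=
  Submodule.span ℝ {f | ∃ α : Fin n → ℕ, ∑ l, α l ≤ d ∧ f = mono α}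

lemma pol_le {d e : ℕ} (h : d ≤ e) {f : (Fin n → ℝ) → ℝ} (hf : f ∈ Pol n d) : f ∈ Pol n e :=
  Submodule.span_mono (by rintro _ ⟨α, h1, h2⟩; exact ⟨α, h1.trans h, h2⟩) hf

lemma pol_mono (α : Fin n → ℕ) : mono α ∈ Pol n (∑ l, α l) :=
  Submodule.subset_span ⟨α, le_rfl, rfl⟩

lemma pol_smul {d : ℕ} (c : ℝ) {f : (Fin n → ℝ) → ℝ} (hf : f ∈ Pol n d) :
    (fun x => c * f x) ∈ Pol n d := (Pol n d).smul_mem c hf

lemma pol_add {d : ℕ} {f g : (Fin n → ℝ) → ℝ} (hf : f ∈ Pol n d) (hg : g ∈ Pol n d) :
    (fun x => f x + g x) ∈ Pol n d := (Pol n d).add_mem hf hg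

lemma pol_sub {d : ℕ} {f g : (Fin n → ℝ) → ℝ} (hf : f ∈ Pol n d) (hg : g ∈ Pol n d) :
    (fun x => f x - g x) ∈ Pol n d := (Pol n d).sub_mem hf hg

lemma pol_sum {d : ℕ} {J : Type} (S : Finset J) {f : J → (Fin n → ℝ) → ℝ}
    (hf : ∀ j ∈ S, f j ∈ Pol n d) : (fun x => ∑ j ∈ S, f j x) ∈ Pol n d := by
  have := (Pol n d).sum_mem hf
  rwa [show (∑ j ∈ S, f j) = fun x => ∑ j ∈ S, f j x from by ext x; simp] at this

lemma pol_const (c : ℝ) (d : ℕ) : (fun _ : Fin n → ℝ => c) ∈ Pol n d := by
  have := pol_smul c (pol_mono (n := n) 0)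
  simp only [mono, Pi.zero_apply, pow_zero, prod_const_one, mul_one, sum_const_zero] at this
  exact pol_le (Nat.zero_le d) this

lemma pol_coord_pow (l : Fin n) (k : ℕ) : (fun x : Fin n → ℝ => x l ^ k) ∈ Pol n k := by
  have := pol_mono (n := n) (Pi.single l k)
  have e : mono (Pi.single l k) = fun x : Fin n → ℝ => x l ^ k := by
    ext x
    unfold mono
    rw [prod_eq_single l (fun b _ hb => by simp [hb]) (by simp)]
    simp
  rw [e] at this
  simpa using this

lemma pol_coord (l : Fin n) : (fun x : Fin n → ℝ => x l) ∈ Pol n 1 := by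
  simpa using pol_coord_pow l 1

lemma pol_mul {a b : ℕ} {f g : (Fin n → ℝ) → ℝ} (hf : f ∈ Pol n a) (hg : g ∈ Pol n b) :
    (fun x => f x * g x) ∈ Pol n (a + b) := by
  change f * g ∈ Pol n (a + b)
  induction hf using Submodule.span_induction with
  | mem f hf =>
    obtain ⟨α, hα, rfl⟩ := hf
    induction hg using Submodule.span_induction with
    | mem g hg =>
      obtain ⟨β, hβ, rfl⟩ := hg
      refine Submodule.subset_span ⟨α + β, ?_, ?_⟩
      · simp only [Pi.add_apply, sum_add_distrib]
        omega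
      · ext x
        simp [mono, pow_add, prod_mul_distrib]
    | zero => simp
    | add g h _ _ h1 h2 => rw [mul_add]; exact add_mem h1 h2
    | smul c g _ h1 => rw [mul_smul_comm]; exact Submodule.smul_mem _ c h1
  | zero => simp
  | add f h _ _ h1 h2 => rw [add_mul]; exact add_mem h1 h2
  | smul c f _ h1 => rw [smul_mul_assoc]; exact Submodule.smul_mem _ c h1

lemma pol_sm {d : ℕ} {f : (Fin n → ℝ) → ℝ} (hf : f ∈ Pol n d) : Sm f := by
  induction hf using Submodule.span_induction with
  | mem f hf =>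
    obtain ⟨α, _, rfl⟩ := hf
    exact sm_prod univ fun l _ => (sm_coord l).pow _
  | zero => exact contDiff_const
  | add f g _ _ h1 h2 => exact h1.add h2
  | smul c f _ h1 => exact h1.const_smul c

lemma pol_prod_ex {J : Type} (S : Finset J) {f : J → (Fin n → ℝ) → ℝ}
    (hf : ∀ j ∈ S, f j ∈ Pol n 1) : (fun x => ∏ j ∈ S, f j x) ∈ Pol n S.card := by
  classical
  induction S using Finset.induction_on with
  | empty => simpa using pol_const 1 0
  | insert j S hj ih =>
    have := pol_mul (hf j (mem_insert_self _ _)) (ih fun k hk => hf k (mem_insert_of_mem hk))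
    simp only [prod_insert hj, card_insert_of_notMem hj]
    rwa [add_comm]

/-- weak Bezout bound -/
lemma bezout (D : Fin n → ℕ) (R : Fin n → (Fin n → ℝ) → ℝ) (hR : ∀ l, R l ∈ Pol n (D l))
    (Z : Finset (Fin n → ℝ)) (hZ : ∀ x ∈ Z, ∀ l, x l ^ (D l + 1) = R l x) :
    Z.card ≤ ∏ l, (D l + 1) := by
  classical
  let res : ((Fin n → ℝ) → ℝ) →ₗ[ℝ] (Z → ℝ) := LinearMap.funLeft ℝ ℝ Subtype.val
  let b : (∀ l, Fin (D l + 1)) → (Z → ℝ) := fun α => res (mono fun l => α l)
  let W := Submodule.span ℝ (Set.range b)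
  have h1 : ∀ d, ∀ f ∈ Pol n d, res f ∈ W := by
    intro d
    induction d using Nat.strong_induction_on with
    | _ d ih =>
      intro f hf
      induction hf using Submodule.span_induction with
      | mem f hf =>
        obtain ⟨α, hα, rfl⟩ := hf
        by_cases h : ∀ l, α l ≤ D l
        · exact Submodule.subset_span ⟨fun l => ⟨α l, Nat.lt_succ_of_le (h l)⟩, rfl⟩
        · push Not at h
          obtain ⟨l, hl⟩ := h
          let β := Function.update α l (α l - (D l + 1))
          have hs : ∑ j, β j + (D l + 1) = ∑ j, α j := by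
            rw [← add_sum_erase _ _ (mem_univ l), ← add_sum_erase _ α (mem_univ l)]
            rw [sum_congr rfl fun j hj => Function.update_of_ne (ne_of_mem_erase hj) _ _]
            simp only [β, Function.update_self]
            omega
          have h2 := ih (∑ j, β j + D l) (by omega) _ (pol_mul (pol_mono β) (hR l))
          have e : res (mono α) = res fun x => mono β x * R l x := by
            ext x
            simp only [res, LinearMap.funLeft_apply]
            rw [← hZ x x.2 l]
            unfold mono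
            rw [← mul_prod_erase _ _ (mem_univ l), ← mul_prod_erase _ _ (mem_univ l)]
            have e2 : ∏ j ∈ univ.erase l, x.1 j ^ β j = ∏ j ∈ univ.erase l, x.1 j ^ α j :=
              prod_congr rfl fun j hj => by
                rw [show β j = α j from Function.update_of_ne (ne_of_mem_erase hj) _ _]
            rw [e2]
            simp only [β, Function.update_self]
            rw [mul_right_comm, ← pow_add, Nat.sub_add_cancel hl]
          rwa [e]
      | zero => simp
      | add f g _ _ h1 h2 => rw [map_add]; exact add_mem h1 h2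
      | smul c f _ h1 => rw [map_smul]; exact Submodule.smul_mem _ c h1
  have h2 : ∀ z : Z, Pi.single z (1 : ℝ) ∈ W := by
    intro z
    have h3 : ∀ w : Z, ∃ f ∈ Pol n 1, f z = 1 ∧ (w ≠ z → f w = 0) := fun w => by
      by_cases hw : w = z
      · exact ⟨_, pol_const 1 1, rfl, fun h => absurd hw h⟩
      have : ∃ l, z.1 l ≠ w.1 l := by
        by_contra h
        push Not at h
        exact hw (Subtype.ext (funext fun l => (h l).symm))
      obtain ⟨l, hl⟩ := this
      refine ⟨_, pol_smul (z.1 l - w.1 l)⁻¹ (pol_sub (pol_coord l) (pol_const (w.1 l) 1)),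
        inv_mul_cancel₀ (sub_ne_zero.mpr hl), fun _ => by simp⟩
    choose f hf h1f h0f using h3
    have h4 := h1 _ _ (pol_prod_ex univ fun w _ => hf w)
    have e : (res fun x => ∏ w, f w x) = Pi.single z 1 := by
      ext x
      simp only [res, LinearMap.funLeft_apply]
      by_cases hx : x = z
      · subst hx
        simp [h1f]
      · rw [Pi.single_eq_of_ne hx]
        exact prod_eq_zero (mem_univ x) (h0f x hx)
    rwa [e] at h4
  have h3 : W = ⊤ := by
    refine eq_top_iff.mpr fun f _ => ?_
    rw [pi_eq_sum_univ' f]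
    exact sum_mem fun z _ => Submodule.smul_mem _ _ (h2 z)
  have h4 := finrank_range_le_card (R := ℝ) b
  unfold Set.finrank at h4
  change Module.finrank ℝ W ≤ _ at h4
  rw [h3] at h4
  simpa using h4

/-- area inequality for a map with boundedly many preimages -/
lemma area_le {Φ : (Fin n → ℝ) → (Fin n → ℝ)} (hΦ : ContDiff ℝ 1 Φ) {S Y : Set (Fin n → ℝ)}
    (hS : MeasurableSet S) (hY : MeasurableSet Y) (hm : Set.MapsTo Φ S Y) (M : ℕ)
    (hM : ∀ y, ∀ Z : Finset (Fin n → ℝ), (∀ x ∈ Z, Φ x = y) → Z.card ≤ M) :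
    ∫⁻ x in S, ENNReal.ofReal |(fderiv ℝ Φ x).det| ≤ M * volume Y := by
  classical
  have hc : Continuous fun x => (fderiv ℝ Φ x).det :=
    ContinuousLinearMap.continuous_det.comp (hΦ.continuous_fderiv (by simp))
  set S' := S ∩ {x | (fderiv ℝ Φ x).det ≠ 0} with hS'
  have hS'm : MeasurableSet S' := hS.inter (isOpen_ne_fun hc continuous_const).measurableSet
  have h1 : ∀ x, ∃ U : Set (Fin n → ℝ), IsOpen U ∧ Set.InjOn Φ U ∧ (x ∈ S' → x ∈ U) := by
    intro x
    by_cases hx : x ∈ S'
    · let e := (fderiv ℝ Φ x).toContinuousLinearEquivOfDetNeZero hx.2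
      have hd : HasStrictFDerivAt Φ (e : (Fin n → ℝ) →L[ℝ] (Fin n → ℝ)) x := by
        rw [ContinuousLinearMap.coe_toContinuousLinearEquivOfDetNeZero]
        exact hΦ.contDiffAt.hasStrictFDerivAt (by simp)
      exact ⟨(hd.toOpenPartialHomeomorph Φ).source, (hd.toOpenPartialHomeomorph Φ).open_source,
        (hd.toOpenPartialHomeomorph Φ).injOn, fun _ => hd.mem_toOpenPartialHomeomorph_source⟩
    · exact ⟨∅, isOpen_empty, Set.injOn_empty _, fun h => absurd h hx⟩
  choose U hUo hUi hUx using h1
  obtain ⟨t, -, htc, ht⟩ := TopologicalSpace.countable_cover_nhdsWithin (f := U) (s := S')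
    fun x hx => mem_nhdsWithin_of_mem_nhds ((hUo x).mem_nhds (hUx x hx))
  obtain ⟨f, hf⟩ := (htc.insert 0).exists_eq_range (Set.insert_nonempty _ _)
  let P : ℕ → Set (Fin n → ℝ) := fun k => S' ∩ disjointed (fun k => U (f k)) k
  have hPm : ∀ k, MeasurableSet (P k) := fun k =>
    hS'm.inter (MeasurableSet.disjointed (fun k => (hUo _).measurableSet) k)
  have hPd : Pairwise (Function.onFun Disjoint P) := fun a b hab =>
    (disjoint_disjointed _ hab).mono Set.inter_subset_right Set.inter_subset_right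
  have hPi : ∀ k, Set.InjOn Φ (P k) := fun k =>
    (hUi (f k)).mono (Set.inter_subset_right.trans (disjointed_subset _ k))
  have hPu : S' = ⋃ k, P k := by
    rw [← Set.inter_iUnion, iUnion_disjointed]
    refine (Set.inter_eq_left.mpr fun x hx => ?_).symm
    obtain ⟨y, hy, hxy⟩ := Set.mem_iUnion₂.mp (ht hx)
    obtain ⟨k, rfl⟩ : y ∈ Set.range f := hf ▸ Set.mem_insert_of_mem _ hy
    exact Set.mem_iUnion.mpr ⟨k, hxy⟩
  have hd : ∀ k, ∀ x ∈ P k, HasFDerivWithinAt Φ (fderiv ℝ Φ x) (P k) x := fun k x _ =>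
    (hΦ.differentiable (by simp) x).hasFDerivAt.hasFDerivWithinAt
  have hIm : ∀ k, MeasurableSet (Φ '' P k) := fun k =>
    measurable_image_of_fderivWithin (hPm k) (hd k) (hPi k)
  calc ∫⁻ x in S, ENNReal.ofReal |(fderiv ℝ Φ x).det|
      = ∫⁻ x in S', ENNReal.ofReal |(fderiv ℝ Φ x).det| := by
        rw [← lintegral_indicator hS, ← lintegral_indicator hS'm]
        refine lintegral_congr fun x => ?_
        by_cases hx : x ∈ S
        · by_cases h0 : (fderiv ℝ Φ x).det = 0
          · simp [Set.indicator, h0]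
          · rw [Set.indicator_of_mem hx, Set.indicator_of_mem (show x ∈ S' from ⟨hx, h0⟩)]
        · rw [Set.indicator_of_notMem hx, Set.indicator_of_notMem fun h => hx h.1]
    _ = ∑' k, volume (Φ '' P k) := by
        rw [hPu, lintegral_iUnion hPm hPd]
        exact tsum_congr fun k =>
          lintegral_abs_det_fderiv_eq_addHaar_image volume (hPm k) (hd k) (hPi k)
    _ = ∫⁻ y, ∑' k, (Φ '' P k).indicator 1 y := by
        rw [lintegral_tsum fun k => (measurable_one.indicator (hIm k)).aemeasurable]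
        exact tsum_congr fun k => (lintegral_indicator_one (hIm k)).symm
    _ ≤ ∫⁻ y, Y.indicator (fun _ => (M : ℝ≥0∞)) y := by
        refine lintegral_mono fun y => ?_
        rw [ENNReal.tsum_eq_iSup_sum]
        refine iSup_le fun F => ?_
        have h2 : ∀ k, ∃ x, y ∈ Φ '' P k → x ∈ P k ∧ Φ x = y := fun k => by
          by_cases h : y ∈ Φ '' P k
          · obtain ⟨x, hx⟩ := h
            exact ⟨x, fun _ => hx⟩
          · exact ⟨0, fun h' => absurd h' h⟩
        choose g hg using h2
        have h3 : ∑ k ∈ F, (Φ '' P k).indicator (1 : (Fin n → ℝ) → ℝ≥0∞) y =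
            ((F.filter fun k => y ∈ Φ '' P k).card : ℝ≥0∞) := by
          rw [card_filter]
          push_cast
          refine sum_congr rfl fun k _ => ?_
          simp [Set.indicator]
        rw [h3]
        by_cases hy : y ∈ Y
        · rw [Set.indicator_of_mem hy]
          have h4 := hM y ((F.filter fun k => y ∈ Φ '' P k).image g) fun x hx => by
            obtain ⟨k, hk, rfl⟩ := mem_image.mp hx
            exact (hg k (mem_filter.mp hk).2).2
          rw [card_image_of_injOn fun a ha b hb hab => by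
            by_contra hne
            exact Set.disjoint_left.mp (hPd hne) (hg a (mem_filter.mp ha).2).1
              (hab ▸ (hg b (mem_filter.mp hb).2).1)] at h4
          exact_mod_cast h4
        · rw [filter_eq_empty_iff.mpr fun k _ ⟨x, hx, hxy⟩ => hy (hxy ▸ hm hx.1.1)]
          simp
    _ = M * volume Y := lintegral_indicator_const hY _

lemma det_fderiv {Φ : (Fin n → ℝ) → (Fin n → ℝ)} (hΦ : ∀ l, Sm fun x => Φ x l) (x : Fin n → ℝ) :
    (fderiv ℝ Φ x).det = (Matrix.of fun l m => pd m (fun x => Φ x l) x).det := by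
  unfold ContinuousLinearMap.det
  rw [← LinearMap.det_toMatrix']
  congr 1
  ext l m
  rw [LinearMap.toMatrix'_apply, fderiv_pi fun l => (hΦ l).diff x]
  simp [pd]

lemma det_block {k : ℕ} {i : Fin k → Fin n} (hi : Function.Injective i)
    {M : Matrix (Fin n) (Fin n) ℝ}
    (h : ∀ l, l ∉ Set.range i → ∀ m, M l m = if m = l then 1 else 0) :
    M.det = (M.submatrix i i).det := by
  classical
  obtain ⟨p, hp⟩ : ∃ p : Fin n → Prop, ∀ l, p l ↔ l ∈ Set.range i := ⟨_, fun _ => Iff.rfl⟩
  let e : Fin k ≃ {l // p l} :=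
    (Equiv.ofInjective i hi).trans (Equiv.subtypeEquivRight fun l => (hp l).symm)
  rw [Matrix.twoBlockTriangular_det _ p]
  · have e1 : Matrix.toSquareBlockProp M (fun l => ¬p l) = 1 := by
      ext l m
      simp only [Matrix.toSquareBlockProp_def, Matrix.of_apply, h l.1 (hp _ |>.not.mp l.2),
        Matrix.one_apply, Subtype.ext_iff, eq_comm]
    rw [e1, Matrix.det_one, mul_one, ← Matrix.det_submatrix_equiv_self e]
    rfl
  · intro l hl m hm
    rw [h l (hp _ |>.not.mp hl), if_neg]
    rintro rfl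
    exact hl hm

/-- integral of a minor of the Jacobian matrix -/
lemma minor_le {k : ℕ} {i : Fin k → Fin n} (hi : Function.Injective i)
    {F : Fin k → (Fin n → ℝ) → ℝ} (hF : ∀ a, Sm (F a)) {S : Set (Fin n → ℝ)}
    (hS : MeasurableSet S) (hS3 : ∀ x ∈ S, ‖x‖ ≤ 3) {b : ℝ} (hb0 : 0 ≤ b)
    (hb : ∀ x ∈ S, ∀ a, |F a x| ≤ b) (D : ℕ)
    (hD : ∀ (c : Fin k → ℝ) (a : Fin k), ∃ R ∈ Pol n D, ∀ x, (∀ a', F a' x = c a') →
      x (i a) ^ (D + 1) = R x) :
    ∫⁻ x in S, ENNReal.ofReal |(Matrix.of fun a a' => pd (i a') (F a) x).det| ≤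
      ENNReal.ofReal ((D + 1) ^ k * (2 * b) ^ k * 6 ^ n) := by
  classical
  let Φ : (Fin n → ℝ) → (Fin n → ℝ) := fun x => Function.extend i (fun a => F a x) x
  have h1 : ∀ a, (fun x => Φ x (i a)) = F a := fun a => funext fun x => hi.extend_apply _ _ a
  have h2 : ∀ l, l ∉ Set.range i → (fun x => Φ x l) = fun x => x l := fun l hl =>
    funext fun x => Function.extend_apply' _ _ _ hl
  have hΦ : ∀ l, Sm fun x => Φ x l := fun l => by
    by_cases hl : l ∈ Set.range i
    · obtain ⟨a, rfl⟩ := hl
      rw [h1]; exact hF a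
    · rw [h2 l hl]; exact sm_coord l
  let β : Fin n → ℝ := fun l => if l ∈ Set.range i then b else 3
  let E : Fin n → ℕ := fun l => if l ∈ Set.range i then D else 0
  have hp : ∀ {M : Type} [CommMonoid M] (u v : M),
      ∏ l, (if l ∈ Set.range i then u else v) = u ^ k * v ^ (n - k) := by
    intro M _ u v
    have e : univ.filter (fun l => l ∈ Set.range i) = univ.image i := by ext l; simp
    have c1 : (univ.filter fun l => l ∈ Set.range i).card = k := by
      rw [e, card_image_of_injective _ hi]; simp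
    have c2 := card_filter_add_card_filter_not (s := (univ : Finset (Fin n)))
      (fun l => l ∈ Set.range i)
    rw [prod_ite, prod_const, prod_const, c1]
    congr 2
    simp only [card_univ, Fintype.card_fin] at c2
    omega
  have h3 := area_le (Φ := Φ) (contDiff_pi.mpr fun l => (hΦ l).of_le (by simp)) hS
    (Y := Set.Icc (fun l => -β l) β) measurableSet_Icc ?_ ((D + 1) ^ k) ?_
  · have e : ∀ x, (fderiv ℝ Φ x).det = (Matrix.of fun a a' => pd (i a') (F a) x).det := by
      intro x
      rw [det_fderiv hΦ, det_block hi fun l hl m => by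
        simp only [Matrix.of_apply, h2 l hl, pd_coord]]
      congr 1
      ext a a'
      simp [h1]
    simp_rw [e] at h3
    refine h3.trans ?_
    rw [Real.volume_Icc_pi, ← ENNReal.ofReal_prod_of_nonneg fun l _ => by
      simp only [β]; split_ifs <;> linarith]
    rw [← ENNReal.ofReal_natCast, ← ENNReal.ofReal_mul (by positivity)]
    refine ENNReal.ofReal_le_ofReal ?_
    have e2 : ∏ l, (β l - -β l) = (2 * b) ^ k * 6 ^ (n - k) := by
      rw [← hp]
      refine prod_congr rfl fun l _ => ?_
      simp only [β]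
      split_ifs <;> ring
    rw [e2]
    push_cast
    rw [mul_assoc]
    gcongr
    · norm_num
    · omega
  · intro x hx
    have : ∀ l, |Φ x l| ≤ β l := fun l => by
      by_cases hl : l ∈ Set.range i
      · simp only [β, if_pos hl]
        obtain ⟨a, rfl⟩ := hl
        rw [congrFun (h1 a) x]
        exact hb x hx a
      · simp only [β, if_neg hl]
        rw [congrFun (h2 l hl) x]
        exact (norm_le_pi_norm x l).trans (hS3 x hx)
    exact ⟨fun l => (abs_le.mp (this l)).1, fun l => (abs_le.mp (this l)).2⟩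
  · intro y Z hZ
    have h4 : ∀ l, ∃ R ∈ Pol n (E l), ∀ x, Φ x = y → x l ^ (E l + 1) = R x := fun l => by
      by_cases hl : l ∈ Set.range i
      · simp only [E, if_pos hl]
        obtain ⟨a, rfl⟩ := hl
        obtain ⟨R, hR, h⟩ := hD (fun a => y (i a)) a
        exact ⟨R, hR, fun x hx => h x fun a' => by rw [← hx, congrFun (h1 a') x]⟩
      · simp only [E, if_neg hl]
        exact ⟨_, pol_const (y l) 0, fun x hx => by rw [← hx, congrFun (h2 l hl) x]; simp⟩
    choose R hR h using h4
    refine (bezout E R hR Z fun x hx l => h l x (hZ x hx)).trans (le_of_eq ?_)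
    rw [← mul_one ((D + 1) ^ k), ← one_pow (n - k), ← hp]
    refine prod_congr rfl fun l _ => ?_
    simp only [E]
    split_ifs <;> simp

end

end Pool.Agent.LinCrit
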