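import Pool.Agent.Lib.MP_8465a2_an.Mean

/-!
Taylor expansions of harmonic functions with explicit bounds.
-/

namespace Pool.Agent.LinCrit

open Finset MeasureTheory Pool.Agent.Alesker Topology Filter Metric
open scoped ContDiff ENNReal Nat

noncomputable section

variable {n : ℕ}

/-- `k`-th derivative of `v` at `x` in the direction `h` -/
def TL : ℕ → ((Fin n → ℝ) → ℝ) → (Fin n → ℝ) → (Fin n → ℝ) → ℝ
  | 0, v, x, _ => v x
  | k + 1, v, x, h => ∑ i, h i * TL k (pd i v) x h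

lemma TL_deriv (k : ℕ) {v : (Fin n → ℝ) → ℝ} (hv : Sm v) (x h : Fin n → ℝ) (t : ℝ) :
    HasDerivAt (fun t : ℝ => TL k v (x + t • h) h) (TL (k + 1) v (x + t • h) h) t := by
  induction k generalizing v with
  | zero => exact hasDerivAt_line hv x h t
  | succ k ih => exact HasDerivAt.fun_sum fun i _ => (ih (hv.pd i)).const_mul (h i)

lemma TL_pol (k : ℕ) (v : (Fin n → ℝ) → ℝ) (x : Fin n → ℝ) : TL k v x ∈ Pol n k := by
  induction k generalizing v with
  | zero => exact pol_const (v x) 0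
  | succ k ih =>
    have := pol_sum univ fun i _ => pol_mul (pol_coord i) (ih (pd i v))
    rwa [add_comm] at this

lemma TL_smul (k : ℕ) (v : (Fin n → ℝ) → ℝ) (x h : Fin n → ℝ) (c : ℝ) :
    TL k v x (c • h) = c ^ k * TL k v x h := by
  induction k generalizing v with
  | zero => simp [TL]
  | succ k ih =>
    simp only [TL, ih, mul_sum, Pi.smul_apply, smul_eq_mul]
    exact sum_congr rfl fun i _ => by ring

lemma TL_pd (k : ℕ) {v : (Fin n → ℝ) → ℝ} (hv : Sm v) (x h : Fin n → ℝ) (l : Fin n) :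
    pd l (TL (k + 1) v x) h = (k + 1) * TL k (pd l v) x h := by
  have e : ∀ (k : ℕ) (v : (Fin n → ℝ) → ℝ), pd l (TL (k + 1) v x) h =
      TL k (pd l v) x h + ∑ i, h i * pd l (TL k (pd i v) x) h := by
    intro k v
    change pd l (fun h => ∑ i, h i * TL k (pd i v) x h) h = _
    rw [pd_sum _ fun i _ => (sm_coord i).mul (pol_sm (TL_pol k _ x))]
    simp_rw [pd_mul (sm_coord _) (pol_sm (TL_pol k _ x)), pd_coord]
    simp [sum_add_distrib]
  induction k generalizing v with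
  | zero =>
    rw [e]
    have : ∀ i, pd l (TL 0 (pd i v) x) h = 0 := fun i => pd_const _ l h
    simp [this]
  | succ k ih =>
    rw [e]
    simp_rw [ih (hv.pd _), show ∀ i, pd l (pd i v) = pd i (pd l v) from
      fun i => funext (pd_comm hv l i), mul_left_comm _ ((k : ℝ) + 1), ← mul_sum]
    change _ + (k + 1) * TL (k + 1) (pd l v) x h = _
    push_cast
    ring

/-- `v` is smooth, and harmonic and bounded by `M` on the cube of radius `R` around `x` -/
structure Har (v : (Fin n → ℝ) → ℝ) (x : Fin n → ℝ) (R M : ℝ) : Prop where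
  sm : Sm v
  har : ∀ z, ‖z - x‖ ≤ R → lap v z = 0
  bd : ∀ z, ‖z - x‖ ≤ R → |v z| ≤ M

lemma Har.mono {v : (Fin n → ℝ) → ℝ} {x y : Fin n → ℝ} {R S M : ℝ} (h : Har v x R M)
    (hy : ‖y - x‖ + S ≤ R) : Har v y S M := by
  have : ∀ z, ‖z - y‖ ≤ S → ‖z - x‖ ≤ R := fun z hz => by
    have := norm_sub_le_norm_sub_add_norm_sub z y x
    linarith
  exact ⟨h.sm, fun z hz => h.har z (this z hz), fun z hz => h.bd z (this z hz)⟩

lemma Har.nonneg {v : (Fin n → ℝ) → ℝ} {x : Fin n → ℝ} {R M : ℝ} (h : Har v x R M) (hR : 0 ≤ R) :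
    0 ≤ M := (abs_nonneg _).trans (h.bd x (by simpa using hR))

/-- constant of the gradient estimate -/
def Cg (n : ℕ) : ℝ := (grad_est n).choose

lemma Cg_ge (n : ℕ) : 1 ≤ Cg n := (grad_est n).choose_spec.1

lemma Har.pd' {v : (Fin n → ℝ) → ℝ} {x : Fin n → ℝ} {R t M : ℝ} (h : Har v x (R + t) M)
    (ht : 0 < t) (l : Fin n) : Har (pd l v) x R (Cg n / t * M) :=
  ⟨h.sm.pd l, lap_pd h.sm (lt_add_of_pos_right R ht) h.har l, fun z hz =>
    have h1 := h.mono (y := z) (S := t) (by linarith)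
    (grad_est n).choose_spec.2 v z t M h.sm ht (fun y hy => ⟨h1.har y hy, h1.bd y hy⟩) l⟩

lemma TL_bound (k : ℕ) {v : (Fin n → ℝ) → ℝ} {x : Fin n → ℝ} {t M : ℝ} (ht : 0 < t)
    (hv : Har v x (k * t) M) (h : Fin n → ℝ) : |TL k v x h| ≤ (Cg n * n * ‖h‖ / t) ^ k * M := by
  induction k generalizing v M with
  | zero => simpa [TL] using hv.bd x (by simp)
  | succ k ih =>
    have h1 : ∀ i, |h i * TL k (pd i v) x h| ≤ ‖h‖ * ((Cg n * n * ‖h‖ / t) ^ k * (Cg n / t * M)) :=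
      fun i => by
        rw [abs_mul]
        refine mul_le_mul (norm_le_pi_norm h i) (ih (Har.pd' ?_ ht i)) (abs_nonneg _) (norm_nonneg _)
        rwa [Nat.cast_succ, add_mul, one_mul] at hv
    refine ((abs_sum_le_sum_abs _ _).trans (sum_le_sum fun i _ => h1 i)).trans (le_of_eq ?_)
    simp only [sum_const, card_univ, Fintype.card_fin, nsmul_eq_mul]
    ring

lemma taylor1d {f : ℕ → ℝ → ℝ} (hf : ∀ k t, HasDerivAt (f k) (f (k + 1) t) t) (d : ℕ) {B : ℝ}
    (hB : ∀ t ∈ Set.Icc (0 : ℝ) 1, |f (d + 1) t| ≤ B) :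
    |f 0 1 - ∑ k ∈ range (d + 1), f k 0 / k !| ≤ B / d ! := by
  have h1 : ∀ (d : ℕ) (s : ℝ), HasDerivAt (fun s => ∑ k ∈ range (d + 1), f k s * (1 - s) ^ k / k !)
      (f (d + 1) s * (1 - s) ^ d / d !) s := by
    intro d s
    induction d with
    | zero => simpa using hf 0 s
    | succ d ih =>
      simp_rw [sum_range_succ _ (d + 1)]
      have h2 := (((hf (d + 1) s).mul
        (((hasDerivAt_id s).const_sub 1).pow (d + 1))).div_const ((d + 1)! : ℝ))
      refine (ih.add h2).congr_deriv ?_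
      simp only [id, Nat.factorial_succ, Pi.pow_apply, Nat.add_sub_cancel]
      push_cast
      field_simp
      ring
  have h2 := Convex.norm_image_sub_le_of_norm_hasDerivWithin_le (C := B / d !) (s := Set.Icc 0 1)
    (fun s _ => (h1 d s).hasDerivWithinAt) (fun s hs => by
      rw [Real.norm_eq_abs, abs_div, abs_mul, Nat.abs_cast]
      gcongr
      refine (mul_le_of_le_one_right (abs_nonneg _) ?_).trans (hB s hs)
      rw [abs_pow]
      exact pow_le_one₀ (abs_nonneg _) (abs_le.mpr ⟨by linarith [hs.2], by linarith [hs.1]⟩))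
    (convex_Icc 0 1) (Set.left_mem_Icc.mpr zero_le_one) (Set.right_mem_Icc.mpr zero_le_one)
  rw [sum_range_succ' _ d] at h2
  simpa using h2

/-- Taylor coefficient -/
def co (k : ℕ) (v : (Fin n → ℝ) → ℝ) (x h : Fin n → ℝ) : ℝ := TL k v x h / k !

/-- radius needed for the Taylor bounds -/
def R0 (n : ℕ) : ℝ := 768 * Cg n * (n + 1) + 8

lemma R0_ge (n : ℕ) : Cg n + 8 ≤ R0 n := by
  have := Cg_ge n
  have : (0 : ℝ) ≤ n := Nat.cast_nonneg n
  unfold R0
  nlinarith

lemma R0_pos (n : ℕ) : 8 ≤ R0 n := by linarith [R0_ge n, Cg_ge n]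

lemma Har.pd {v : (Fin n → ℝ) → ℝ} {x : Fin n → ℝ} {R M : ℝ} (h : Har v x (R + R0 n) M)
    (l : Fin n) : Har (pd l v) x R M := by
  have hC := Cg_ge n
  have := (h.mono (y := x) (S := R + Cg n) (by simp; linarith [R0_ge n])).pd' (by linarith) l
  rwa [div_self (by linarith), one_mul] at this

lemma TL_le (d : ℕ) {v : (Fin n → ℝ) → ℝ} {x : Fin n → ℝ} {M : ℝ}
    (hv : Har v x (R0 n - 8) M) (h : Fin n → ℝ) :
    |TL (d + 1) v x h| ≤ (‖h‖ / 128) ^ (d + 1) * M * d ! := by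
  have hC := Cg_ge n
  have hR : 0 < R0 n - 8 := by linarith [R0_ge n]
  have hM := hv.nonneg hR.le
  have h1 := TL_bound (d + 1) (t := (R0 n - 8) / (d + 1 : ℕ)) (by positivity)
    (by rwa [mul_div_cancel₀ _ (by positivity)]) h
  refine h1.trans ?_
  have h2 : Cg n * n * ‖h‖ / ((R0 n - 8) / (d + 1 : ℕ)) ≤ ‖h‖ / 128 * ((d + 1 : ℕ) / 6) := by
    rw [div_div_eq_mul_div, div_le_iff₀ hR]
    have : R0 n - 8 = 768 * Cg n * (n + 1) := by unfold R0; ring
    rw [this]
    have : 0 ≤ Cg n * ‖h‖ * (d + 1 : ℕ) := by positivity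
    nlinarith
  have h3 : (((d + 1 : ℕ) : ℝ) / 6) ^ (d + 1) ≤ d ! := by
    have h4 := Real.pow_div_factorial_le_exp ((d + 1 : ℕ) : ℝ) (by positivity) (d + 1)
    rw [div_le_iff₀ (by positivity), ← Real.exp_one_pow, Nat.factorial_succ] at h4
    have h5 : Real.exp 1 ^ (d + 1) ≤ 3 ^ (d + 1) :=
      pow_le_pow_left₀ (by positivity) (Real.exp_one_lt_d9.le.trans (by norm_num)) _
    have h6 : ((d + 1 : ℕ) : ℝ) ≤ 2 ^ (d + 1) := by exact_mod_cast Nat.lt_two_pow_self.le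
    rw [div_pow, div_le_iff₀ (by positivity), show (6 : ℝ) = 3 * 2 by norm_num, mul_pow]
    refine h4.trans ?_
    rw [Nat.cast_mul]
    calc _ ≤ 3 ^ (d + 1) * (2 ^ (d + 1) * (d ! : ℝ)) := by gcongr
      _ = _ := by ring
  calc _ ≤ (‖h‖ / 128 * ((d + 1 : ℕ) / 6)) ^ (d + 1) * M := by gcongr
    _ ≤ (‖h‖ / 128) ^ (d + 1) * d ! * M := by rw [mul_pow]; gcongr
    _ = _ := by ring

lemma co_le (k : ℕ) {v : (Fin n → ℝ) → ℝ} {x : Fin n → ℝ} {M : ℝ} (hv : Har v x (R0 n) M)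
    (h : Fin n → ℝ) : |co k v x h| ≤ (‖h‖ / 128) ^ k * M := by
  have hM := hv.nonneg (by linarith [R0_pos n])
  rcases k with _ | d
  · simpa [co, TL] using hv.bd x (by simp; linarith [R0_pos n])
  · rw [co, abs_div, Nat.abs_cast, div_le_iff₀ (by positivity)]
    refine (TL_le d (hv.mono (by simp)) h).trans ?_
    gcongr
    omega

lemma taylor_le (d : ℕ) {v : (Fin n → ℝ) → ℝ} {x : Fin n → ℝ} {M : ℝ} (hv : Har v x (R0 n) M)
    {h : Fin n → ℝ} (hh : ‖h‖ ≤ 8) :
    |v (x + h) - ∑ k ∈ range (d + 1), co k v x h| ≤ (‖h‖ / 128) ^ (d + 1) * M := by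
  have h1 := taylor1d (f := fun k t => TL k v (x + t • h) h) (fun k t => TL_deriv k hv.sm x h t) d
    (B := (‖h‖ / 128) ^ (d + 1) * M * d !) fun t ht => TL_le d (hv.mono (by
      rw [add_sub_cancel_left, norm_smul, Real.norm_of_nonneg ht.1]
      nlinarith [ht.1, ht.2, norm_nonneg h])) h
  rw [mul_div_cancel_right₀ _ (by positivity)] at h1
  simpa [TL, co] using h1

lemma co_smul (k : ℕ) (v : (Fin n → ℝ) → ℝ) (x h : Fin n → ℝ) (c : ℝ) :
    co k v x (c • h) = c ^ k * co k v x h := by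
  rw [co, co, TL_smul, mul_div_assoc]

lemma co_pol (k : ℕ) (v : (Fin n → ℝ) → ℝ) (x : Fin n → ℝ) : co k v x ∈ Pol n k := by
  have := pol_smul (k ! : ℝ)⁻¹ (TL_pol k v x)
  rwa [show (fun h => (k ! : ℝ)⁻¹ * TL k v x h) = co k v x from
    funext fun h => by rw [co, div_eq_inv_mul]] at this

lemma co_pd (k : ℕ) {v : (Fin n → ℝ) → ℝ} (hv : Sm v) (x h : Fin n → ℝ) (l : Fin n) :
    pd l (co (k + 1) v x) h = co k (pd l v) x h := by
  rw [show co (k + 1) v x = fun h => ((k + 1)! : ℝ)⁻¹ * TL (k + 1) v x h from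
    funext fun h => by rw [co, div_eq_inv_mul], pd_const_mul (pol_sm (TL_pol _ v x)), TL_pd k hv,
    co, Nat.factorial_succ]
  push_cast
  field_simp

/-- polynomial approximation in the `C^1` norm -/
lemma approx (D : ℕ) {v : (Fin n → ℝ) → ℝ} (hv : Har v 0 (2 * R0 n) 1) :
    ∃ p ∈ Pol n (D + 1), ∀ x, ‖x‖ ≤ 3 →
      |v x - p x| ≤ (1 / 16) ^ (D + 1) ∧ ∀ l, |pd l v x - pd l p x| ≤ (1 / 16) ^ (D + 1) := by
  have hR := R0_pos n
  refine ⟨fun h => ∑ k ∈ range (D + 1 + 1), co k v 0 h, pol_sum _ fun k hk =>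
    pol_le (by simp at hk; omega) (co_pol k v 0), fun x hx => ⟨?_, fun l => ?_⟩⟩
  · have := taylor_le (D + 1) (hv.mono (y := 0) (S := R0 n) (by simp; linarith)) (h := x)
      (by linarith)
    rw [zero_add, mul_one] at this
    refine this.trans ?_
    calc _ ≤ (1 / 16 : ℝ) ^ (D + 1 + 1) := pow_le_pow_left₀ (by positivity) (by linarith) _
      _ ≤ _ := pow_le_pow_of_le_one (by norm_num) (by norm_num) (by omega)
  · have := taylor_le D (Har.pd (by rwa [← two_mul]) l) (h := x) (by linarith)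
    rw [zero_add, mul_one] at this
    rw [pd_sum _ fun k _ => pol_sm (co_pol k v 0), sum_range_succ']
    simp_rw [co_pd _ hv.sm]
    rw [show pd l (co 0 v 0) x = 0 from pd_const (v 0 / (0 ! : ℕ)) l x, add_zero]
    exact this.trans (pow_le_pow_left₀ (by positivity) (by linarith) _)

end

end Pool.Agent.LinCrit
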